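import Pool.Agent.Lib.DN.Base

/-!
# Theorem DN, part E, second half: `S_E1`, `S_E6`, `S_E7`, `S_E8`, `S_E9`

Statements of the modules with complete proofs (author helper28). The module `DN/E/<Name>.lean` proves its theorem in
`namespace Pool.Agent.DN.Eb` (first line `import Pool.Agent.Lib.DN.E.SpecB`); the name and the exact type are
at the end of the docstring. Read `DN/Defs.lean`, `DN/Iface.lean`, `DN/Base.lean` (lemmas `mem_GK_iff`, `GK_toO`,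
`lam_..`, `tor_..`, `toC_..`, `Nm_..`, `cop_..`) and the lemmas proved below (`psi_top`, `psi_mul`, `psi_level`,
`pri_mul`, `pri_dvd`, `pri_15`, `ne_mul`, ..). Most modules are adaptations of files of `DK/E` (SAME NAME there; natural moduli `N` in
both; the ring `OO k` with `w ^ 2 = w - 2 k` there, `OO n t` with `w ^ 2 = t w - n` here) or of `DT/E` (ring with `t`, moduli are ideals there). In DN the curves are
framed: `Psi τ N a` is about the `b` with `b ≠ ⊥`, `PrI b 15`, and `15 ∣ N` everywhere. An instance `[Ine n t]` gives `[SqN n t]`.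
-/

set_option autoImplicit false

open scoped Pointwise nonZeroDivisors

noncomputable section

namespace Pool.Agent.DN.Eb

open Pool.Agent.MuZ Pool.Agent.FW NumberField IsDedekindDomain Pool.Agent.DN
open Pool.Agent.DI (io ofC io_inj exists_io io_ofC ofC_io VP MP UP TP ex sqr sqr_sq kap)

variable {n t : ℕ}

/-! ## Elementary lemmas (complete) -/

theorem ne_mul [SqN n t] {a b : Ideal (OO n t)} (ha : a ≠ ⊥) (hb : b ≠ ⊥) : a * b ≠ ⊥ :=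
  fun h => (Ideal.mul_eq_bot.1 h).elim ha hb

theorem ne_top [SqN n t] : (⊤ : Ideal (OO n t)) ≠ ⊥ := top_ne_bot

theorem ne_sp [SqN n t] {α : OO n t} (h : α ≠ 0) : sp α ≠ ⊥ := by
  intro h'
  exact h (Ideal.span_singleton_eq_bot.1 h')

theorem ne_pow [SqN n t] {a : Ideal (OO n t)} (ha : a ≠ ⊥) (j : ℕ) : a ^ j ≠ ⊥ := by
  rw [← Ideal.zero_eq_bot] at ha ⊢
  exact pow_ne_zero j ha

theorem nat_ne [SqN n t] {N : ℕ} (hN : 0 < N) : (N : OO n t) ≠ 0 := by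
  intro h
  have h1 := congrArg Nm h
  rw [Nm_nat, Nm_zero] at h1
  have h2 : (N : ℤ) = 0 := by simpa using h1
  omega

theorem ne_cj (hO3 : S_O3) [SqN n t] {a : Ideal (OO n t)} (ha : a ≠ ⊥) : cjI a ≠ ⊥ := by
  intro h
  apply ha
  rw [← ((hO3 n t).2.2.1 a).1, h]
  unfold cjI
  rw [eq_bot_iff, Ideal.span_le]
  rintro _ ⟨v, hv, rfl⟩
  have hv0 : v = 0 := by simpa using hv
  rw [hv0, cjO_zero]
  exact Ideal.zero_mem _

theorem pri_iff {a : Ideal (OO n t)} {N : ℕ} : PrI a N ↔ IsCoprime a (Ideal.span {(N : OO n t)}) :=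
  (Ideal.isCoprime_iff_sup_eq).symm

theorem pri_mul {a b : Ideal (OO n t)} {N : ℕ} (h : PrI a N) (h' : PrI b N) : PrI (a * b) N :=
  pri_iff.2 ((pri_iff.1 h).mul_left (pri_iff.1 h'))

theorem pri_top (N : ℕ) : PrI (⊤ : Ideal (OO n t)) N := by
  unfold PrI
  rw [top_sup_eq]

theorem pri_dvd {a : Ideal (OO n t)} {N M : ℕ} (h : PrI a N) (hM : M ∣ N) : PrI a M := by
  unfold PrI at *
  rw [eq_top_iff, ← h]
  refine sup_le_sup_left ?_ a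
  rw [Ideal.span_singleton_le_span_singleton]
  exact_mod_cast Nat.cast_dvd_cast hM

/-- For `15 ∣ N`: prime to `15 N` is prime to `N`. -/
theorem pri_15 {a : Ideal (OO n t)} {N : ℕ} (h : PrI a N) (hN : 15 ∣ N) : PrI a (15 * N) := by
  have h1 : PrI a 15 := pri_dvd h hN
  rw [pri_iff] at h h1 ⊢
  have h2 := h1.mul_right h
  rw [Ideal.span_singleton_mul_span_singleton] at h2
  push_cast at h2 ⊢
  exact h2

theorem g15_top [SqN n t] : G15 (⊤ : Ideal (OO n t)) := ⟨ne_top, pri_top 15⟩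

theorem g15_mul [SqN n t] {a b : Ideal (OO n t)} (ha : G15 a) (hb : G15 b) : G15 (a * b) :=
  ⟨ne_mul ha.ne hb.ne, pri_mul ha.cop hb.cop⟩

theorem psi_pri {τ : Gal(Om/ℚ)} {N : ℕ} {a : Ideal (OO n t)} (h : Psi τ N a) : PrI a N :=
  pri_dvd h.cop ⟨15, by ring⟩

theorem psi_g15 {τ : Gal(Om/ℚ)} {N : ℕ} {a : Ideal (OO n t)} (h : Psi τ N a) : G15 a :=
  ⟨h.ne, pri_dvd h.cop ⟨N, rfl⟩⟩

theorem psi_top [SqN n t] (N : ℕ) : Psi 1 N (⊤ : Ideal (OO n t)) where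
  ne := ne_top
  cop := pri_top _
  a1 := fun b _ _ => by rw [Ideal.top_mul]; rfl
  a3 := fun b _ _ => by rw [Ideal.top_mul]; rfl
  xx := fun b _ _ z _ => by rw [Ideal.top_mul]; rfl

theorem psi_mul [SqN n t] {τ τ' : Gal(Om/ℚ)} {N : ℕ} {a a' : Ideal (OO n t)} (h : Psi τ N a)
    (h' : Psi τ' N a') : Psi (τ * τ') N (a * a') where
  ne := ne_mul h.ne h'.ne
  cop := pri_mul h.cop h'.cop
  a1 := fun b hb h15 => by
    rw [AlgEquiv.mul_apply, h'.a1 b hb h15,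
      h.a1 _ (ne_mul h'.ne hb) (pri_mul (psi_g15 h').cop h15), mul_assoc]
  a3 := fun b hb h15 => by
    rw [AlgEquiv.mul_apply, h'.a3 b hb h15,
      h.a3 _ (ne_mul h'.ne hb) (pri_mul (psi_g15 h').cop h15), mul_assoc]
  xx := fun b hb h15 z hz => by
    rw [AlgEquiv.mul_apply, h'.xx b hb h15 z hz,
      h.xx _ (ne_mul h'.ne hb) (pri_mul (psi_g15 h').cop h15) z (lam_mono hz), mul_assoc]

theorem psi_level [SqN n t] {τ : Gal(Om/ℚ)} {N M : ℕ} {a : Ideal (OO n t)} (h : Psi τ N a)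
    (hM : M ∣ N) : Psi τ M a where
  ne := h.ne
  cop := pri_dvd h.cop (Nat.mul_dvd_mul_left 15 hM)
  a1 := h.a1
  a3 := h.a3
  xx := fun b hb h15 z hz => by
    refine h.xx b hb h15 z ?_
    obtain ⟨c, rfl⟩ := hM
    have h1 := lam_nat c hz
    have e : ((M * c : ℕ) : ℂ) * z = (c : ℂ) * ((M : ℂ) * z) := by
      push_cast
      ring
    rw [e]
    exact h1

/-! ## Inputs from the first half of part E -/

/-- Finiteness (first half of part E). -/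
def S_FN : Prop :=
  ∀ (n t : ℕ) [Ine n t] (N : ℕ), 0 < N → 15 ∣ N → ∃ A : Set Om, A.Finite ∧
    (∀ b : Ideal (OO n t), G15 b → a1O b ∈ A ∧ a3O b ∈ A) ∧
    ∀ b : Ideal (OO n t), G15 b → ∀ z : ℂ, (N : ℂ) * z ∈ Lam b → xO b z ∈ A

/-- `S_E1`, item 1 (first half of part E). -/
def S_Ex : Prop :=
  ∀ (n t : ℕ) [Ine n t] (N : ℕ), 0 < N → 15 ∣ N → ∀ τ ∈ GK n t,
    ∃ a : Ideal (OO n t), Psi τ N a

/-! ## `S_E1` -/

/-- MODULE `Ray` (90 lines; from `S_B1`, `S_B7`, `S_O7`; adapt `DK/E/Ray.lean`). `S_E1`, ITEM 3. PROOF. `Ray N a a'`: `sp α * a = sp α' * a'`,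
`α, α' ≠ 0` prime to `N`, `N ∣ α - α'`. `ne`, `cop`: `S_O7` (sixth item), `psi_pri`, `pri_15`. Let `β` with `N ∣ α β - 1` (`cop_inv`), `c = α β`, `c' = α' β`: `N ∣ c - 1`, `N ∣ c' - 1`, so `c, c' ≠ 0` (`N ≥ 15` does not divide `1`: `nat_dvd_iff`)
and `15 ∣ c - 1`, `15 ∣ c' - 1`; `sp c * a = sp c' * a'`, so `sp c * (a * b) = sp c' * (a' * b)` for all `b`. Let `b ≠ ⊥`, `PrI b 15`; `a * b`, `a' * b` are prime to `15`. `S_B7` (third part, for `c` and `a * b`): `A1 (sp c * (a * b)) = A1 (a * b)`, the same for `A3`, and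
`XC (sp c * (a * b)) z = XC (a * b) (toC c * z)`; the same for `c'`, `a' * b`. So `A1 (a * b) = A1 (a' * b)`, `A3 (a * b) = A3 (a' * b)`. If `N z ∈ Lam b`: `toC c * z - z = toC (c - 1) * z = toC u * (N z) ∈ Lam b`, so it is in `Lam (a * b)` and in `Lam (a' * b)` (`lam_mono`), and `XC` has these periods (`S_B1`: `wpC`), so
`X(a b, z) = X(a b, c z) = X(sp c * (a b), z) = X(sp c' * (a' b), z) = X(a' b, c' z) = X(a' b, z)`. THEOREM `tRay : S_B1 → S_B7 → S_O7 → S_Ray`. -/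
def S_Ray : Prop :=
  ∀ (n t : ℕ) [Ine n t] (N : ℕ), 0 < N → 15 ∣ N → ∀ (τ : Gal(Om/ℚ)) (a a' : Ideal (OO n t)),
    Psi τ N a → Ray N a a' → Psi τ N a'

/-- MODULE `Uq` (190 lines; from `S_B1`, `S_B7`, `S_B13`, `S_L5`, `S_O6`, `S_R1`; adapt `DK/E/Uq.lean`). `S_E1`, ITEM 2. PROOF. `b = ⊤` (`g15_top`): `a1O a = τ (a1O ⊤) = a1O a'`
(`a * ⊤ = a`), so `A1 a = A1 a'` (`S_R1`, `psi_g15`), the same for `A3`. `S_B13`: `α, α' ≠ 0` prime to `15` with `sp α * a = sp α' * a'`, `3 ∣ α - α'`, `5 ∣ α - α'` or `5 ∣ α + α'`. Let `15 ∣ α β - 1` (`cop_inv`), `c = α β`, `c' = α' β`: `15 ∣ c - 1`, `3 ∣ c' - 1`, `5 ∣ c' - 1` or `5 ∣ c' + 1`,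
`c, c' ≠ 0`, `sp c * a = sp c' * a'`. So `S_B7` (third part) applies to `c, a` and to `c', a'`. Let `μ = toC c / toC c'`.
(1) `XC a' z = XC a (μ z)` for all `z`: put `y = z / toC c'` in `XC (sp c' * a') y = XC a' (toC c' y)`, `XC (sp c * a) y = XC a (toC c y)`.
(2) `μ z ∈ Lam a ↔ z ∈ Lam a'` (`lam_sp` for `sp c * a = sp c' * a'` at `z / toC c'`). (3) Let `N z ∈ Lam ⊤`. `Psi` for `b = ⊤`: `xO a z = xO a' z`, so
`XC a z = XC a' z` (`S_R1`; `Tor n t z` by `tor_iff`). `z ∈ Lam a ↔ z ∈ Lam ⊤ ↔ z ∈ Lam a'` (`S_L5` first part with `b = ⊤`, and `lam_mono`; `a * ⊤ = a`).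
(4) For `N z ∈ Lam ⊤`: `μ z - z ∈ Lam a` or `μ z + z ∈ Lam a`: if `z ∈ Lam a` then `z ∈ Lam a'`, `μ z ∈ Lam a`, clear; if `z ∉ Lam a` then `z ∉ Lam a'`, `μ z ∉ Lam a`, and
`XC a z = XC a' z = XC a (μ z)`, so `wpC a z = wpC a (μ z)` (`fr a ≠ 0`), `S_B1` (fourth item). (5) There is `e ∈ {1, -1}` with `(μ - e) z ∈ Lam a` for all `z` with `N z ∈ Lam ⊤` (`Uq_cover` in `DK/E/Uq.lean`: two subgroups cover a group). (6) In
particular `(μ - e) / N ∈ Lam a` (`z = 1 / N`, `one_div_lam`). `S_O6` (last item): `ν ∈ a`, `ν ≠ 0`, `N ∣ ν - 1`. From `sp c * a = sp c' * a'`: `c ν = c' ν'`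
with `ν' ∈ a'` (`Ideal.mem_span_singleton_mul`), `toC ν' = μ toC ν`. `(μ - e) / N * toC ν = toC u` (definition of `Lam a`), so `toC ν' - e toC ν = N toC u`,
`ν' - e ν = N u`. Put `β = e ν'`, `β' = ν`: `N ∣ β - β'`, `β' = 1` and `β = 1` modulo `N`, both are prime to `N` (`cop_congr`, `cop_one`) and
`≠ 0` (`μ ≠ 0`), and `sp ν' * a = sp ν * a'`: `sp (c' ν') * a = sp (c ν) * a = sp ν * (sp c * a) = sp ν * (sp c' * a') = sp c' * (sp ν * a')`; cancel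
`sp c'` (`Ideal.span_singleton_mul_right_inj`). `sp (e ν') = sp ν'` (`Ideal.span_singleton_neg`).
THEOREM `tUq : S_B1 → S_B7 → S_B13 → S_L5 → S_O6 → S_R1 → S_Uq`. -/
def S_Uq : Prop :=
  ∀ (n t : ℕ) [Ine n t] (N : ℕ), 0 < N → 15 ∣ N → ∀ (τ : Gal(Om/ℚ)) (a a' : Ideal (OO n t)),
    Psi τ N a → Psi τ N a' → Ray N a a'

/-- **`S_E1`** (complete). -/
theorem sE1 (h1 : S_Ex) (h2 : S_Uq) (h3 : S_Ray) : S_E1 := by
  intro n t _ N hN h15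
  exact ⟨h1 n t N hN h15, h2 n t N hN h15, h3 n t N hN h15, fun τ τ' a a' h h' => psi_mul h h',
    fun τ M a h hM _ => psi_level h hM⟩

/-! ## Open subgroups, generation, Frobenius elements -/

/-- MODULE `Op` (50 lines; from `S_FN`; adapt `DK/E/Op.lean`). AN OPEN SUBGROUP WHICH ACTS TRIVIALLY ON THE `N`-TORSION AND ON `μ_N`. PROOF. `A` from `S_FN`,
`A' = A ∪ {ζ | ζ ^ N = 1}` is finite; the fixing subgroup of `ℚ(A')` is open. `Psi τ N ⊤`: `⊤ * b = b`, `pri_top`.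
THEOREM `tOp : S_FN → S_Op`. -/
def S_Op : Prop :=
  ∀ (n t : ℕ) [Ine n t] (N : ℕ), 0 < N → 15 ∣ N → ∃ O : OpenSubgroup Gal(Om/ℚ), ∀ τ ∈ O,
    Psi τ N (⊤ : Ideal (OO n t)) ∧ ∀ ζ : Om, ζ ^ N = 1 → τ ζ = ζ

/-- MODULE `Gn` (100 lines; `import Pool.Agent.Lib.DK.Gen`, no hypotheses; adapt `DT/E/Gn.lean`). `Gal(Om/K)` IS GENERATED BY FROBENIUS ELEMENTS. PROOF. `KQ n t` is a number
field. `gen_frob` (in `DK/Gen.lean`) for `K = KQ n t`, `GK n t = K.fixingSubgroup`. Let `l, Q, τ` be as in its last hypothesis. Let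
`q = {v | MP Q (toO v)}`, the inverse image of `Q` under the ring homomorphism `OO n t → ZZ`, `v ↦ toO v` (`toO_integral`; `MP.coe_iff`), a prime ideal, `Abv Q q`.
`(l : OO n t) ∈ q`, so `q ≠ ⊥`. `NI q = l`: as in `DT/E/Gn.lean`. `l.Coprime M` since `l` is prime, `¬ l ∣ M`.
THEOREM `tGn : S_Gn`. -/
def S_Gn : Prop :=
  ∀ (n t : ℕ) [SqN n t] (H : Subgroup Gal(Om/ℚ)) (O : OpenSubgroup Gal(Om/ℚ)) (M : ℕ),
    GK n t ⊓ (O : Subgroup Gal(Om/ℚ)) ≤ H → 0 < M →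
    (∀ (q : Ideal (OO n t)) (l : ℕ) (Q : Ideal ZZ) (τ : Gal(Om/ℚ)), Deg1 q l → l.Coprime M → Npr Q →
      Abv Q q → (l : ZZ) ∈ Q → τ ∈ GK n t → Fro Q l τ → τ ∈ H) → GK n t ≤ H

/-- MODULE `AbB` (90 lines; no hypotheses; adapt `DT/E/AbB.lean`). PRIMES ABOVE `q`. PROOF. (1) `toO` is an injective ring
homomorphism `OO n t → ZZ` (`toO_integral`, `toO_inj`), integral (`ZZ` is integral over `ℤ`), so there is a prime of `ZZ` over `q`; it is not `⊥` as `q ≠ ⊥`. (2) `NI q = l` kills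
`O/q`, so `(l : OO n t) ∈ q`, `MP Q l`. If `l` does not divide `j` then `a l + b j = 1`, so `j` is a unit modulo `Q`. THEOREM `tAbB : S_AbB`. -/
def S_AbB : Prop :=
  ∀ (n t : ℕ) [SqN n t],
    (∀ q : Ideal (OO n t), q.IsPrime → q ≠ ⊥ → ∃ Q : Ideal ZZ, Npr Q ∧ Abv Q q) ∧
    ∀ (Q : Ideal ZZ) (q : Ideal (OO n t)) (l : ℕ), Npr Q → Deg1 q l → Abv Q q →
      MP Q (l : Om) ∧ ∀ j : ℤ, ¬ (l : ℤ) ∣ j → UP Q (j : Om)

/-- `F0` (proved in `DN/E/F0.lean`). FROBENIUS ELEMENTS OVER `ℚ`. -/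
def S_F0 : Prop :=
  ∀ (Q : Ideal ZZ) (l : ℕ), Npr Q → l.Prime → (l : ZZ) ∈ Q → ∃ σ : Gal(Om/ℚ), Fro Q l σ

/-- MODULE `Fr` (90 lines; from `S_F0`, `S_AbB`; adapt `DT/E/Fr.lean`). FROBENIUS ELEMENTS IN `Gal(Om/K)`. PROOF. `Q` over `q`: `S_AbB` (1); `MP Q l`:
`S_AbB` (2), so `(l : ZZ) ∈ Q`; `τ` from `S_F0`. Claim `τ wO = wO` (`mem_GK_iff`). `τ wO` is a root of `X ^ 2 - t X + n`, so `wO` or `t - wO`. `OO n t ⧸ q` has
`NI q = l` elements, so `v ^ l - v ∈ q` for all `v`, so `MP Q (wO ^ l - wO)` (`Abv Q q`, `toO_wI`). `MP Q (τ wO - wO ^ l)` (`VP.frob`). If `τ wO = t - wO` then `MP Q (t - 2 wO)`, the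
square `(t - 2 wO) ^ 2 = t ^ 2 - 4 n = - Dk n t` (`wO_sq`, `Dk_cast`), so `MP Q (Dk n t)`, but `l` does not divide `Dk n t` (`S_AbB` (2): `UP Q (Dk n t)`): contradiction.
THEOREM `tFr : S_F0 → S_AbB → S_Fr`. -/
def S_Fr : Prop :=
  ∀ (n t : ℕ) [SqN n t] (q : Ideal (OO n t)) (l : ℕ), Deg1 q l → ¬ l ∣ Dk n t →
    ∃ (Q : Ideal ZZ) (τ : Gal(Om/ℚ)), Npr Q ∧ Abv Q q ∧ τ ∈ GK n t ∧ Fro Q l τ

/-! ## `S_E6`, `S_E7` -/

/-- MODULE `Cyc` (150 lines; from `S_E1`, `S_E2`, `S_O2`, `S_O9`, `S_Op`, `S_Gn`; adapt `DK/E/Cyc.lean`). THE CYCLOTOMIC CHARACTER (`15 ∣ N`). PROOF. Let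
`H = {τ ∈ GK n t | ∀ a, Psi τ N a → ∀ ζ, ζ ^ N = 1 → τ ζ = ζ ^ NI a}`. `ζ ^ NI a` depends only on `NI a` modulo `N` and `N ∣ NI a - NI a'` if `Psi τ N a`, `Psi τ N a'`
(`S_E1` (2), `S_O9`, `psi_pri`), so for `τ ∈ GK n t` the condition may be checked for one `a` (`S_E1` (1)). SUBGROUP: `1`: `psi_top`, `NI ⊤ = 1`. Products: `psi_mul`, `NI (a a') = NI a NI a'` (`S_O2`).
Inverses: `Psi τ N a`, `Psi τ⁻¹ N a'` (`S_E1` (1)), `Psi 1 N (a a')`, so `NI a NI a' = 1` modulo `N`. OPEN: `S_Op`. FROBENIUS: `S_Gn` with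
`M = N B`, `B` from `S_E2`: `Psi τ N q`, `NI q = l`, and `τ ζ = ζ ^ l` as in `DK/E/Cyc.lean`.
THEOREM `sE6 : S_E1 → S_E2 → S_O2 → S_O9 → S_Op → S_Gn → S_E6`. -/
def S_Cyc : Prop := S_E1 → S_E2 → S_O2 → S_O9 → S_Op → S_Gn → S_E6

/-- MODULE `Srj` (50 lines; from `S_E1`, `S_E2`, `S_O7`, `S_O8`, `S_Fr`; adapt `DK/E/Srj.lean`). SURJECTIVITY (`15 ∣ N`). PROOF. `S_O8` for `N`, `M = B * Dk n t` (`B` from `S_E2`; `0 < Dk n t`: `hD3`, `Dk_cast`) and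
`C a := ∃ τ ∈ GK n t, Psi τ N a`: `C ⊤` (`psi_top`), products (`psi_mul`), `C q` for `Deg1 q l`, `l.Coprime (N * M)`: `Q, τ` from `S_Fr` (`¬ l ∣ Dk n t`), `S_E2`. So there is `a'` with `C a'`,
`Ray N a a'`; `Ray N a' a` (`S_O7` (2)) and `S_E1` (3). THEOREM `sE7 : S_E1 → S_E2 → S_O7 → S_O8 → S_Fr → S_E7`. -/
def S_Srj : Prop := S_E1 → S_E2 → S_O7 → S_O8 → S_Fr → S_E7

/-! ## `S_E8` -/

/-- MODULE `Fix` (150 lines; from `S_E1`, `S_O7`, `S_Op`; adapt `DK/E/Fix.lean`). GALOIS THEORY FOR `FixI` (`15 ∣ N`). PROOF. INVERSES: if `H a`, `a' ≠ ⊥`, `PrI a' N`, `Ray N (a * a') ⊤` then `H a'`: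
`S_O7` (last item) gives a finite set of representatives, so there are `i < j` with `Ray N (a ^ i) (a ^ j)` (both have the same representative: `S_O7` (2), (3)), by `S_O7` (5) with `c = a ^ i` (`⊤ * c`, `a ^ (j - i) * c`)
`Ray N ⊤ (a ^ (j - i))`, `j - i = m + 1`; `Ray N (a * a') (a * a ^ m)`, cancel `a`: `Ray N a' (a ^ m)`, `H (a ^ m)`. Let `W = {τ ∈ GK n t | ∀ a, Psi τ N a → H a}`; the condition may be checked for one `a`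
(`S_E1` (1), (2), invariance of `H`). `W` is a subgroup, contains `GK n t ⊓ O`, `O` from `S_Op`; `FixI N H` is its fixed field. The rest as in `DK/E/Fix.lean` (`GK n t` is open: `KQ n t` is
finite over `ℚ`). THEOREM `sE8 : S_E1 → S_O7 → S_Op → S_E8`. -/
def S_Fix : Prop := S_E1 → S_O7 → S_Op → S_E8

/-! ## `S_E9` -/

/-- MODULE `Ab` (40 lines; from `S_E1`, `S_O7`; adapt `DK/E/Ab.lean`). `FixI` IS STABLE UNDER `Gal(Om/K)` (`15 ∣ N`). PROOF. Let `σ ∈ GK n t`, `Psi σ N a`, `H a`; `Psi τ N u`, `Psi τ⁻¹ N u'`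
(`S_E1` (1)), `Psi (τ⁻¹ * τ) N (u' * u)`, so `Ray N (u' * u) ⊤` (`S_E1` (2), `psi_top`), `Ray N a (u' * (a * u))` (`S_O7` (1), (2), (4)), so `H (u' * (a * u))` and `τ⁻¹ σ τ x = x`.
THEOREM `tAb : S_E1 → S_O7 → S_Ab`. -/
def S_Ab : Prop :=
  ∀ (n t : ℕ) [Ine n t] (N : ℕ) (H : Ideal (OO n t) → Prop), 0 < N → 15 ∣ N →
    (∀ a a', H a → Ray N a a' → H a') → ∀ τ ∈ GK n t, ∀ x ∈ FixI N H, τ x ∈ FixI N H

/-- MODULE `Cj` (130 lines; from `S_Ab`, `S_L2`, `S_O3`, `S_R1`; adapt `DK/E/Cj.lean`, which is harder; the elementary part is `DT/E/Cj1.lean`). COMPLEX CONJUGATION. PROOF. `c` from `S_R1` (second part). `c (c x) = x`, `c⁻¹ = c`, `c wO = t - wO` (apply `io`; `conj_wC`, `io_wO`).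
(1) `c τ c⁻¹ ∈ GK n t` for `τ ∈ GK n t` (`mem_GK_iff`; `τ (t - wO) = t - wO`). `Psi (c τ c⁻¹) N (cjI a)`: `ne`: `ne_cj`; `cop`: `S_O3` (5). Let `b ≠ ⊥`, `PrI b 15`: `cjI b` is `≠ ⊥`, prime to `15`, and so are `a * cjI b`, `cjI a * b`; `cjI (a * cjI b) = cjI a * b` (`S_O3` (2), (3)).
`a1`: `c τ c (a1O b) = c τ (a1O (cjI b)) = c (a1O (a * cjI b)) = a1O (cjI a * b)` (`S_R1`, `Psi`); the same for `a3`. `xx`: `N z ∈ Lam b`, `z' = conj z`: `N z' ∈ Lam (cjI b)` (`S_L2` (7)), `z, z'` are torsion points (`tor_iff`): `c (xO b z) = xO (cjI b) z'`, `τ` of it is `xO (a * cjI b) z'`, and `c` of this is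
`xO (cjI (a * cjI b)) z` (`conj z' = z`). (2) `g ∈ GK n t` or `c g ∈ GK n t`: `g wO` is a root of `X ^ 2 - t X + n`, so `wO` or `t - wO`. (3) Let `x ∈ FixI N H`. If `g ∈ GK n t`: `S_Ab`. Otherwise `y = (c g) x ∈ FixI N H` and `g x = c y`; for `τ ∈ GK n t`, `Psi τ N a`, `H a`: `Psi (c τ c) N (cjI a)`, `H (cjI a)`, so
`c τ c y = y`, `τ (c y) = c y`. THEOREM `tCj : S_Ab → S_L2 → S_O3 → S_R1 → S_Cj`. -/
def S_Cj : Prop :=
  ∃ c : Gal(Om/ℚ), (∀ x : Om, io (c x) = (starRingEnd ℂ) (io x)) ∧ ∀ (n t : ℕ) [Ine n t],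
    (∀ τ ∈ GK n t, c * τ * c⁻¹ ∈ GK n t ∧ ∀ (N : ℕ) (a : Ideal (OO n t)), 0 < N → Psi τ N a →
      Psi (c * τ * c⁻¹) N (cjI a)) ∧
    (∀ g : Gal(Om/ℚ), g ∈ GK n t ∨ c * g ∈ GK n t) ∧
    ∀ (N : ℕ) (H : Ideal (OO n t) → Prop), 0 < N → 15 ∣ N → (∀ a a', H a → Ray N a a' → H a') →
      (∀ a, H a → H (cjI a)) → ∀ g : Gal(Om/ℚ), ∀ x ∈ FixI N H, g x ∈ FixI N H

/-- The hypotheses on `H` in `S_E8` and `S_Cj`. -/
structure HG (N : ℕ) (H : Ideal (OO n t) → Prop) : Prop where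
  top : H ⊤
  cop : ∀ a, H a → a ≠ ⊥ ∧ PrI a N
  ray : ∀ a a', H a → Ray N a a' → H a'
  mul : ∀ a a', H a → H a' → H (a * a')
  cj : ∀ a, H a → H (cjI a)

/-- MODULE `H2M` (130 lines; from `S_O2`, `S_O3`, `S_O6`, `S_O7`, `S_O9`; adapt `DK/E/H2M.lean`: the modulus of `H2 f` is `2 f` here). THE GROUPS `H2 f`, `H2N f N`. PROOF. (A) `H2 f`. `top`: `j = 0`, `S_O7` (1). `cop`: `Ray (2 * f) (a ^ 2 ^ j) ⊤`, so `a ^ 2 ^ j ≠ ⊥` and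
`PrI (a ^ 2 ^ j) (2 * f)` (`S_O7` (6)), so `a ≠ ⊥` and `PrI a (2 * f)` (`a ^ 2 ^ j ≤ a`). `ray`: `Ray (2 * f) (a ^ m) (a' ^ m)` by induction (`S_O7` (1), (4)), (2), (3). `mul`: `(a a') ^ 2 ^ (j + j') = (a ^ 2 ^ j) ^ 2 ^ j' * (a' ^ 2 ^ j') ^ 2 ^ j`, and
`Ray (2 * f) (⊤ ^ m) ⊤`. `cj`: `cjI (a ^ m) = (cjI a) ^ m` (`S_O3` (2), induction, `cjI ⊤ = ⊤`: `cjI (sp 1) = sp (cjO 1)`), `S_O3` (6). (B) `H2N f N` modulo `f * 2 ^ N`, `1 ≤ N`: `2 * f ∣ f * 2 ^ N`. `cop`: `NI a` is prime to `2 f` (`S_O6` (3)), so to `f * 2 ^ N`.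
`ray`: `S_O7` (7) for `2 * f`, `S_O9` for `f * 2 ^ N` (`PrI a'`: `S_O7` (6)). `mul`: `NI (a a') = NI a NI a'` (`S_O2`); products of numbers `±1` modulo `2 ^ N`. `cj`: `NI (cjI a) = NI a` (`S_O3` (3)).
THEOREM `tH2M : S_O2 → S_O3 → S_O6 → S_O7 → S_O9 → S_H2M`. -/
def S_H2M : Prop :=
  ∀ (n t : ℕ) [SqN n t] (f : ℕ), 0 < f →
    HG (2 * f) (H2 (n := n) (t := t) f) ∧
    ∀ N : ℕ, 1 ≤ N → HG (f * 2 ^ N) (H2N (n := n) (t := t) f N)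

/-- MODULE `HPM` (160 lines; from `S_O2`, `S_O3`, `S_O6`, `S_O7`, `S_O9`, `S_H2M`; adapt `DK/E/HPM.lean`: the modulus of `HP f` is `2 f` here). THE GROUPS `HP f`, `HPN f N`. PROOF. (A) `HP f`: `Ray (2 * f) a (sp v)`, `v ≠ 0`, `Hf f v` (`Cop v (2 * f)`, `2 f ∣ v ^ 2 ^ j - 1`).
`top`: `v = 1`, `sp 1 = ⊤`. `cop`: `sp v ≠ ⊥`, `PrI (sp v) (2 * f) ↔ Cop v (2 * f)` (`S_O6` (4)), `S_O7` (6). `ray`: `S_O7` (2), (3). `mul`: `sp v * sp v' = sp (v v')` (`Ideal.span_singleton_mul_span_singleton`), `S_O7` (4), `cop_mul`, `v ^ 2 ^ j = 1` modulo `2 f` implies `v ^ 2 ^ i = 1` for `i ≥ j`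
(`sub_dvd_pow_sub_pow`). `cj`: `S_O3` (6), (4), `cop_cj`, `cjO (v ^ m - 1) = cjO v ^ m - 1`, `cjO_nat`. (B) `HPN f N` modulo `f * 2 ^ N`, `1 ≤ N`: the same with `HN f N v`; `Cop v (f * 2 ^ N)` follows from `Cop v (2 * f)` (`IsCoprime.pow_right` ..);
`Nm (v v') = Nm v Nm v'`, `Nm (cjO v) = Nm v`. (C) `HP f a` implies `H2 f a`: `Ray (2 * f) (a ^ m) (sp (v ^ m))`, `m = 2 ^ j`, and `Ray (2 * f) (sp (v ^ m)) (sp 1)` by `S_O7` (8) with `e = 1` (`2 f ∣ v ^ m - 1`; or directly by the definition of `Ray` with the elements `1`, `v ^ m`). `HPN f N a` implies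
`H2N f N a`: `Ray (2 * f) a (sp v)` by `S_O7` (7), and (C); `NI a = NI (sp v) = Nm v` modulo `f * 2 ^ N` by `S_O9`, `S_O2` (4).
THEOREM `tHPM : S_O2 → S_O3 → S_O6 → S_O7 → S_O9 → S_H2M → S_HPM`. -/
def S_HPM : Prop :=
  ∀ (n t : ℕ) [SqN n t] (f : ℕ), 0 < f →
    HG (2 * f) (HP (n := n) (t := t) f) ∧
    (∀ N : ℕ, 1 ≤ N → HG (f * 2 ^ N) (HPN (n := n) (t := t) f N)) ∧
    (∀ a : Ideal (OO n t), HP f a → H2 f a) ∧
    ∀ (N : ℕ) (a : Ideal (OO n t)), 1 ≤ N → HPN f N a → H2N f N a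

/-- MODULE `Tam` (110 lines; from `S_E1`, `S_E4`, `S_O4`, `S_O6`, `S_HPM`; compare `DK/E/Inr.lean`). TAME RAMIFICATION AT `2`. PROOF. `f > 0` is odd, `15 ∣ f`. (1) `τ ∈ P.inertia` is in `GK n t`: `τ wO` is a root of `X ^ 2 - t X + n` (`wO_sq`), so `wO` or `t - wO`; `MP P (τ wO - wO)` (`VP.inertia`, `toO_integral`). If
`τ wO = t - wO` then `MP P (t - 2 wO)`, its square `t ^ 2 - 4 n = 1 - 4 n` (`Ine.one : t = 1`) is in `m_P`, and `MP P 2`, so `MP P 1`: contradiction. (2) `S_E4` (first part, `N = f`): `Psi τ f ⊤`. `S_E1` (1) for `2 * f`: `Psi τ (2 * f) a`; level: `Psi τ f a`; `S_E1` (2) for `f`: `Ray f a ⊤`: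
`sp α * a = sp α' * ⊤ = sp α'`, `f ∣ α - α'`, `Cop α f`. `α' ∈ sp α * a`, so `α' = α x` with `x ∈ a` (`Ideal.mem_span_singleton_mul`), `sp α * a = sp α * sp x`, so `a = sp x` (`Ideal.span_singleton_mul_right_inj`), `x ≠ 0`. `f ∣ α (1 - x)`, `f ∣ β α - 1` (`cop_inv`), so `f ∣ x - 1`, `f ∣ x ^ 3 - 1`. `PrI a 2` (`psi_pri`, `pri_dvd`), so
`Cop x 2` (`S_O6` (4)), `2 ∣ x ^ 3 - 1` (`S_O4` (6)). `f` is odd, so `2 f ∣ x ^ 3 - 1` (`nat_dvd_iff`). Hence `Ray (2 * f) (a * (a * a)) ⊤` with the elements `1`, `x ^ 3` (`Cop (x ^ 3) (2 * f)`: `cop_congr`, `cop_one`). `Psi (τ * (τ * τ)) (2 * f) (a * (a * a))` (`psi_mul`), so `Psi (τ * (τ * τ)) (2 * f) ⊤` (`S_E1` (3); `15 ∣ 2 * f`).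
(3) `HP f ⊤` (`S_HPM`), `τ * (τ * τ) ∈ GK n t`, so it fixes `x ∈ Mf n t f = FixI (2 * f) (HP f)`. THEOREM `tTam : S_E1 → S_E4 → S_O4 → S_O6 → S_HPM → S_Tam`. -/
def S_Tam : Prop :=
  ∀ (n t : ℕ) [Ine n t] (f : ℕ), Odd f → 15 ∣ f → ∀ P : Ideal ZZ, Ab2 P →
    ∀ τ ∈ P.inertia Gal(Om/ℚ), ∀ x ∈ Mf n t f, τ (τ (τ x)) = x

/-- **`S_E9`** (complete). -/
theorem sE9 (hC : S_Cj) (h2 : S_H2M) (hP : S_HPM) (hT : S_Tam) : S_E9 := by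
  intro n t _ f hf h15
  obtain ⟨c, -, hc⟩ := hC
  obtain ⟨-, -, hst⟩ := hc n t
  have hf0 : 0 < f := hf.pos
  obtain ⟨a1, a2⟩ := h2 n t f hf0
  obtain ⟨b1, b2, b3, b4⟩ := hP n t f hf0
  have h2f : 0 < 2 * f := by omega
  have h15' : 15 ∣ 2 * f := h15.mul_left 2
  have hfN : ∀ N : ℕ, 0 < f * 2 ^ N := fun N => Nat.mul_pos hf0 (by positivity)
  have hfN' : ∀ N : ℕ, 15 ∣ f * 2 ^ N := fun N => h15.mul_right _
  refine ⟨hst (2 * f) _ h2f h15' b1.ray b1.cj,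
    fun N τ hN => hst _ _ (hfN N) (hfN' N) (b2 N hN).ray (b2 N hN).cj τ,
    hst (2 * f) _ h2f h15' a1.ray a1.cj,
    fun N τ hN => hst _ _ (hfN N) (hfN' N) (a2 N hN).ray (a2 N hN).cj τ, hT n t f hf h15, ?_, ?_⟩
  · intro x hx τ hτ a h1 h2
    exact hx τ hτ a h1 (b3 a h2)
  · intro N hN x hx τ hτ a h1 h2
    exact hx τ hτ a h1 (b4 N a hN h2)

end Pool.Agent.DN.Eb
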