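import Pool.Agent.Lib.DN.E.SpecB

/-!
# Theorem DN, part E, module Cyc: the cyclotomic character
-/

set_option autoImplicit false

open scoped Pointwise nonZeroDivisors

noncomputable section

namespace Pool.Agent.DN.Eb

open Pool.Agent.MuZ Pool.Agent.FW NumberField IsDedekindDomain Pool.Agent.DN
open Pool.Agent.DI (io ofC io_inj exists_io io_ofC ofC_io VP MP UP TP ex sqr sqr_sq kap)

private theorem Cyc_pow {N : ℕ} {ζ : Om} (hζ : ζ ^ N = 1) (hN : 0 < N) {a b : ℕ}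
    (h : (N : ℤ) ∣ (a : ℤ) - b) : ζ ^ a = ζ ^ b := by
  have h0 : ζ ≠ 0 := by
    rintro rfl
    rw [zero_pow hN.ne'] at hζ
    exact zero_ne_one hζ
  obtain ⟨k, hk⟩ := h
  have e : (a : ℤ) = b + N * k := by linarith
  rw [← zpow_natCast, e, zpow_add₀ h0, zpow_mul, zpow_natCast, zpow_natCast, hζ, one_zpow, mul_one]

private theorem Cyc_powN {N : ℕ} {ζ : Om} (hζ : ζ ^ N = 1) (k : ℕ) : (ζ ^ k) ^ N = 1 := by
  rw [← pow_mul, mul_comm, pow_mul, hζ, one_pow]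

variable {n t : ℕ}

/-- The condition of the subgroup. -/
private def Cyc_C (n t N : ℕ) (τ : Gal(Om/ℚ)) : Prop :=
  ∀ a : Ideal (OO n t), Psi τ N a → ∀ ζ : Om, ζ ^ N = 1 → τ ζ = ζ ^ NI a

private theorem Cyc_cong [Ine n t] {N : ℕ} (hN : 0 < N) (h15 : 15 ∣ N) (h1 : S_E1) (h9 : S_O9)
    {τ : Gal(Om/ℚ)} {a b : Ideal (OO n t)} (ha : Psi τ N a) (hb : Psi τ N b) :
    (N : ℤ) ∣ (NI a : ℤ) - NI b :=
  h9 n t N hN a b (psi_pri ha) (psi_pri hb) ((h1 n t N hN h15).2.1 τ a b ha hb)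

private theorem Cyc_one [Ine n t] {N : ℕ} (hN : 0 < N) (h15 : 15 ∣ N) (h1 : S_E1) (h9 : S_O9)
    {τ : Gal(Om/ℚ)} {a : Ideal (OO n t)} (ha : Psi τ N a)
    (h : ∀ ζ : Om, ζ ^ N = 1 → τ ζ = ζ ^ NI a) : Cyc_C n t N τ := by
  intro b hb ζ hζ
  rw [h ζ hζ]
  exact Cyc_pow hζ hN (Cyc_cong hN h15 h1 h9 ha hb)

private theorem Cyc_top : NI (⊤ : Ideal (OO n t)) = 1 := by
  unfold NI
  have : Subsingleton (OO n t ⧸ (⊤ : Ideal (OO n t))) := Ideal.Quotient.subsingleton_iff.2 rfl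
  exact Nat.card_unique

/-- The subgroup. -/
private def Cyc_H [Ine n t] {N : ℕ} (hN : 0 < N) (h15 : 15 ∣ N) (h1 : S_E1) (h2 : S_O2)
    (h9 : S_O9) : Subgroup Gal(Om/ℚ) where
  carrier := {τ | τ ∈ GK n t ∧ Cyc_C n t N τ}
  one_mem' := ⟨one_mem _, Cyc_one hN h15 h1 h9 (psi_top N) fun ζ _ => by
    rw [Cyc_top, AlgEquiv.one_apply, pow_one]⟩
  mul_mem' := by
    rintro σ τ ⟨g1, g2⟩ ⟨g3, g4⟩
    refine ⟨mul_mem g1 g3, ?_⟩
    obtain ⟨a, ha⟩ := (h1 n t N hN h15).1 σ g1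
    obtain ⟨b, hb⟩ := (h1 n t N hN h15).1 τ g3
    refine Cyc_one hN h15 h1 h9 (psi_mul ha hb) fun ζ hζ => ?_
    rw [AlgEquiv.mul_apply, g4 b hb ζ hζ, map_pow, g2 a ha ζ hζ, ← pow_mul,
      (h2 n t).2.2.2.2.1 a b]
  inv_mem' := by
    rintro τ ⟨g1, g2⟩
    refine ⟨inv_mem g1, ?_⟩
    obtain ⟨a, ha⟩ := (h1 n t N hN h15).1 τ g1
    obtain ⟨b, hb⟩ := (h1 n t N hN h15).1 τ⁻¹ (inv_mem g1)
    refine Cyc_one hN h15 h1 h9 hb fun ζ hζ => ?_
    have h3 : Psi 1 N (a * b) := by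
      have := psi_mul ha hb
      rwa [mul_inv_cancel] at this
    have h4 := Cyc_cong hN h15 h1 h9 h3 (psi_top N)
    have h5 : τ (ζ ^ NI b) = ζ := by
      rw [g2 a ha _ (Cyc_powN hζ _), ← pow_mul, mul_comm, ← (h2 n t).2.2.2.2.1 a b,
        Cyc_pow hζ hN h4, Cyc_top, pow_one]
    calc τ⁻¹ ζ = τ⁻¹ (τ (ζ ^ NI b)) := by rw [h5]
      _ = ζ ^ NI b := by
        rw [← AlgEquiv.mul_apply, inv_mul_cancel, AlgEquiv.one_apply]

private theorem Cyc_frob {N l : ℕ} {Q : Ideal ZZ} (hQ : Q.IsPrime) (hl : (l : ZZ) ∈ Q)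
    (hc : l.Coprime N) {x y : ZZ} (hx : x ^ N = 1) (hy : y ^ N = 1) (hN : 0 < N)
    (h : x - y ∈ Q) : x = y := by
  by_contra hne
  obtain ⟨M, rfl⟩ : ∃ M, N = M + 1 := ⟨N - 1, by omega⟩
  set w : ZZ := x * y ^ M with hw
  have h1 : y * y ^ M = 1 := by
    rw [← pow_succ', hy]
  have hw1 : w - 1 ∈ Q := by
    have e : w - 1 = y ^ M * (x - y) := by
      rw [hw]
      linear_combination h1
    rw [e]
    exact Q.mul_mem_left _ h
  have hwN : w ^ (M + 1) = 1 := by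
    rw [hw, mul_pow, hx, one_mul, ← pow_mul, mul_comm, pow_mul, hy, one_pow]
  have hwne : w ≠ 1 := by
    intro h2
    apply hne
    have e : x = w * y := by
      rw [hw]
      linear_combination -x * h1
    rw [e, h2, one_mul]
  have hsum : ∑ i ∈ Finset.range (M + 1), w ^ i = 0 := by
    have h3 := geom_sum_mul w (M + 1)
    rw [hwN, sub_self] at h3
    rcases mul_eq_zero.1 h3 with h4 | h4
    · exact h4
    · exact absurd (sub_eq_zero.1 h4) hwne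
  have h5 : ((M + 1 : ℕ) : ZZ) ∈ Q := by
    have h6 : ∑ i ∈ Finset.range (M + 1), (w ^ i - 1) ∈ Q := by
      refine Q.sum_mem fun i _ => ?_
      have h7 : w - 1 ∣ w ^ i - 1 := by
        have := sub_dvd_pow_sub_pow w 1 i
        rwa [one_pow] at this
      exact Q.mem_of_dvd h7 hw1
    rw [Finset.sum_sub_distrib, hsum, zero_sub, Finset.sum_const, Finset.card_range,
      nsmul_eq_mul, mul_one] at h6
    have := Q.neg_mem h6
    rwa [neg_neg] at this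
  apply hQ.one_notMem
  have h8 : IsCoprime (l : ℤ) ((M + 1 : ℕ) : ℤ) := by
    exact_mod_cast Nat.isCoprime_iff_coprime.2 hc
  obtain ⟨u, v, huv⟩ := h8
  have h9 : ((u * (l : ℤ) + v * ((M + 1 : ℕ) : ℤ) : ℤ) : ZZ) = 1 := by
    rw [huv, Int.cast_one]
  rw [← h9]
  push_cast
  refine Q.add_mem (Q.mul_mem_left _ hl) (Q.mul_mem_left _ ?_)
  have := h5
  push_cast at this
  exact this

/-- **`S_E6`**, the cyclotomic character. -/
theorem sE6 : S_E1 → S_E2 → S_O2 → S_O9 → S_Op → S_Gn → S_E6 := by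
  intro h1 hE2 h2 h9 hOp hGn n t _ τ0 N a0 hτ0 hN h15 ha0
  have hle : GK n t ≤ Cyc_H (n := n) (t := t) hN h15 h1 h2 h9 := by
    obtain ⟨O, hO⟩ := hOp n t N hN h15
    obtain ⟨B, hB, hE⟩ := hE2 n t N hN h15
    refine hGn n t (Cyc_H hN h15 h1 h2 h9) O (N * B) ?_ (Nat.mul_pos hN hB) ?_
    · rintro τ ⟨g1, g2⟩
      refine ⟨g1, Cyc_one hN h15 h1 h9 (hO τ g2).1 fun ζ hζ => ?_⟩
      rw [(hO τ g2).2 ζ hζ, Cyc_top, pow_one]
    · intro q l Q τ hq hlM hQ hA hlQ hτ hF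
      have hlN : l.Coprime N := hlM.coprime_mul_right_right
      have hlB : l.Coprime B := hlM.coprime_mul_left_right
      have hroot : ∀ ζ : Om, ζ ^ N = 1 → τ ζ = ζ ^ l := by
        intro ζ hζ
        have hi : IsIntegral ℤ ζ := by
          refine IsIntegral.of_pow hN ?_
          rw [hζ]
          exact isIntegral_one
        let z : ZZ := ⟨ζ, hi⟩
        have hz : z ^ N = 1 := Subtype.ext hζ
        have h1 : τ • z = z ^ l := by
          refine Cyc_frob hQ.1 hlQ hlN ?_ ?_ hN (hF z)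
          · rw [← smul_pow', hz, smul_one]
          · rw [← pow_mul, mul_comm, pow_mul, hz, one_pow]
        have h2 := congrArg (fun x : ZZ => (x : Om)) h1
        exact h2
      refine ⟨hτ, Cyc_one hN h15 h1 h9 (hE q l hq hlB Q hQ hA τ hτ hF) fun ζ hζ => ?_⟩
      rw [hq.2.2.2]
      exact hroot ζ hζ
  exact (hle hτ0).2 a0 ha0

end Pool.Agent.DN.Eb
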