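import Pool.Agent.Lib.DN.E.SpecB
import Pool.Agent.Lib.DK.Gen

/-!
# Theorem DN, part E, module Gn: `Gal(Om/K)` is generated by Frobenius elements
-/

set_option autoImplicit false

open scoped Pointwise nonZeroDivisors

noncomputable section

namespace Pool.Agent.DN.Eb

open Pool.Agent.MuZ Pool.Agent.FW NumberField IsDedekindDomain Pool.Agent.DN
open Pool.Agent.DI (io ofC io_inj exists_io io_ofC ofC_io VP MP UP TP ex sqr sqr_sq kap)

variable {n t : ℕ}

private theorem Gn_mem [SqN n t] (v : OO n t) : toO v ∈ KQ n t := by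
  rw [toO_apply]
  have h : wO n t ∈ KQ n t := IntermediateField.mem_adjoin_simple_self ℚ (wO n t)
  exact add_mem (intCast_mem _ _) (mul_mem (intCast_mem _ _) h)

private theorem Gn_int [SqN n t] (v : OO n t) : IsIntegral ℤ (⟨toO v, Gn_mem v⟩ : KQ n t) := by
  have h1 : Function.Injective (algebraMap (KQ n t) Om) := (algebraMap (KQ n t) Om).injective
  rw [← isIntegral_algebraMap_iff (R := ℤ) h1]
  exact toO_integral v

/-- The inclusion of `O` in the ring of integers of `K`. -/
private def Gn_psi (n t : ℕ) [SqN n t] : OO n t →+* 𝓞 (KQ n t) where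
  toFun v := ⟨⟨toO v, Gn_mem v⟩, Gn_int v⟩
  map_one' := by
    apply Subtype.ext
    apply Subtype.ext
    exact toO_one
  map_mul' u v := by
    apply Subtype.ext
    apply Subtype.ext
    exact toO_mul u v
  map_zero' := by
    apply Subtype.ext
    apply Subtype.ext
    exact toO_zero
  map_add' u v := by
    apply Subtype.ext
    apply Subtype.ext
    exact toO_add u v

theorem tGn : S_Gn := by
  intro n t _ H O M hO hM hFr
  have hfin : FiniteDimensional ℚ (KQ n t) :=
    IntermediateField.adjoin.finiteDimensional (Algebra.IsIntegral.isIntegral (wO n t))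
  have hNF : NumberField (KQ n t) := ⟨⟩
  refine Pool.Agent.DK.gen_frob (KQ n t) H O M hO hM ?_
  intro l Q τ hl hlM hQ hQb hlQ hcard hτ hτf
  set J : Ideal (𝓞 (KQ n t)) := Q.comap (iO (KQ n t)) with hJ
  set q : Ideal (OO n t) := J.comap (Gn_psi n t) with hq
  have hmem : ∀ v : OO n t, v ∈ q ↔ MP Q (toO v) := by
    intro v
    have h1 : MP Q ((iO (KQ n t) (Gn_psi n t v) : ZZ) : Om) ↔ iO (KQ n t) (Gn_psi n t v) ∈ Q :=
      DI.MP.coe_iff (P := Q) _
    exact h1.symm
  have hqp : q.IsPrime := by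
    have h1 : J.IsPrime := Ideal.IsPrime.comap (iO (KQ n t))
    exact Ideal.IsPrime.comap (Gn_psi n t)
  have hlq : (l : OO n t) ∈ q := by
    rw [hmem, toO_nat]
    exact (DI.MP.nat_iff l).2 hlQ
  have hq0 : q ≠ ⊥ := by
    intro h
    rw [h, Submodule.mem_bot] at hlq
    have h1 := congrArg Nm hlq
    rw [Nm_nat, Nm_zero] at h1
    have h2 : (l : ℤ) = 0 := by simpa using h1
    exact hl.ne_zero (by exact_mod_cast h2)
  have hdvd : NI q ∣ l := by
    rw [← hcard]
    have hinj : Function.Injective (Ideal.quotientMap J (Gn_psi n t) (le_refl (J.comap (Gn_psi n t)))) :=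
      Ideal.quotientMap_injective
    exact AddSubgroup.card_dvd_of_injective
      (Ideal.quotientMap J (Gn_psi n t) (le_refl (J.comap (Gn_psi n t)))).toAddMonoidHom hinj
  have hNI : NI q = l := by
    rcases (Nat.dvd_prime hl).1 hdvd with h | h
    · have h1 : Nat.card (OO n t ⧸ q) = 1 := h
      have h2 : Subsingleton (OO n t ⧸ q) := (Nat.card_eq_one_iff_unique.1 h1).1
      exact absurd (Ideal.Quotient.subsingleton_iff.1 h2) hqp.ne_top
    · exact h
  exact hFr q l Q τ ⟨hqp, hq0, hl, hNI⟩ ((Nat.Prime.coprime_iff_not_dvd hl).2 hlM) ⟨hQ, hQb⟩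
    (fun v hv => (hmem v).1 hv) hlQ hτ hτf

end Pool.Agent.DN.Eb
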