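import Pool.Agent.Lib.DN.E.SpecB

/-!
# Theorem DN, part E, module H2M: the groups `H2 f`, `H2N f N`
-/

set_option autoImplicit false

open scoped Pointwise nonZeroDivisors

noncomputable section

namespace Pool.Agent.DN.Eb

open Pool.Agent.MuZ Pool.Agent.FW NumberField IsDedekindDomain Pool.Agent.DN
open Pool.Agent.DI (io ofC io_inj exists_io io_ofC ofC_io VP MP UP TP ex sqr sqr_sq kap)

variable {n t : ℕ}

private theorem H2M_rpow [SqN n t] (h7 : S_O7) {N : ℕ} (hN : 0 < N) {a b : Ideal (OO n t)}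
    (h : Ray N a b) (j : ℕ) : Ray N (a ^ j) (b ^ j) := by
  induction j with
  | zero => rw [pow_zero, pow_zero]; exact (h7 n t N hN).1 _
  | succ j ih => rw [pow_succ, pow_succ]; exact (h7 n t N hN).2.2.2.1 _ _ _ _ ih h

private theorem H2M_tpow (j : ℕ) : (⊤ : Ideal (OO n t)) ^ j = ⊤ := by
  rw [← Ideal.one_eq_top, one_pow]

private theorem H2M_ctop [SqN n t] (h3 : S_O3) : cjI (⊤ : Ideal (OO n t)) = ⊤ := by
  have h := (h3 n t).2.2.2.1 1
  rw [cjO_one] at h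
  unfold sp at h
  rwa [Ideal.span_singleton_one] at h

private theorem H2M_cpow [SqN n t] (h3 : S_O3) (a : Ideal (OO n t)) (j : ℕ) :
    cjI (a ^ j) = cjI a ^ j := by
  induction j with
  | zero =>
    rw [pow_zero, pow_zero, Ideal.one_eq_top]
    exact H2M_ctop h3
  | succ j ih => rw [pow_succ, pow_succ, (h3 n t).2.1, ih]

private theorem H2M_NI [SqN n t] : NI (⊤ : Ideal (OO n t)) = 1 := by
  unfold NI
  have : Subsingleton (OO n t ⧸ (⊤ : Ideal (OO n t))) := Ideal.Quotient.subsingleton_iff.2 rfl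
  exact Nat.card_unique

private theorem H2M_pm {M x y : ℤ} (hx : M ∣ x - 1 ∨ M ∣ x + 1) (hy : M ∣ y - 1 ∨ M ∣ y + 1) :
    M ∣ x * y - 1 ∨ M ∣ x * y + 1 := by
  rcases hx with hx | hx <;> rcases hy with hy | hy
  · left
    have e : x * y - 1 = (x - 1) * y + (y - 1) := by ring
    rw [e]
    exact dvd_add (hx.mul_right y) hy
  · right
    have e : x * y + 1 = (x - 1) * y + (y + 1) := by ring
    rw [e]
    exact dvd_add (hx.mul_right y) hy
  · right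
    have e : x * y + 1 = (x + 1) * y - (y - 1) := by ring
    rw [e]
    exact dvd_sub (hx.mul_right y) hy
  · left
    have e : x * y - 1 = (x + 1) * y - (y + 1) := by ring
    rw [e]
    exact dvd_sub (hx.mul_right y) hy

private theorem H2M_cg {M x y : ℤ} (hx : M ∣ x - 1 ∨ M ∣ x + 1) (h : M ∣ x - y) :
    M ∣ y - 1 ∨ M ∣ y + 1 := by
  rcases hx with hx | hx
  · left
    have e : y - 1 = (x - 1) - (x - y) := by ring
    rw [e]
    exact dvd_sub hx h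
  · right
    have e : y + 1 = (x + 1) - (x - y) := by ring
    rw [e]
    exact dvd_sub hx h

private theorem H2M_cop {n N : ℕ} (h : (2 : ℤ) ^ N ∣ (n : ℤ) - 1 ∨ (2 : ℤ) ^ N ∣ (n : ℤ) + 1) :
    n.Coprime (2 ^ N) := by
  rw [← Nat.isCoprime_iff_coprime]
  push_cast
  rcases h with ⟨c, hc⟩ | ⟨c, hc⟩
  · exact ⟨1, -c, by linear_combination hc⟩
  · exact ⟨-1, c, by linear_combination -hc⟩

private theorem H2M_A [SqN n t] (h3 : S_O3) (h7 : S_O7) {f : ℕ} (hf : 0 < 2 * f) :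
    HG (2 * f) (H2 (n := n) (t := t) f) where
  top := ⟨0, by rw [pow_zero, pow_one]; exact (h7 n t (2 * f) hf).1 _⟩
  cop := by
    rintro a ⟨j, hj⟩
    obtain ⟨g1, g2⟩ := (h7 n t (2 * f) hf).2.2.2.2.2.1 _ _ hj
    have e : (2 : ℕ) ^ j ≠ 0 := by positivity
    refine ⟨?_, ?_⟩
    · rintro rfl
      refine g1.2 ne_top ?_
      rw [← Ideal.zero_eq_bot]
      exact zero_pow e
    · have g3 := g2.2 (pri_top (2 * f))
      unfold PrI at *
      rw [eq_top_iff, ← g3]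
      exact sup_le_sup_right (Ideal.pow_le_self e) _
  ray := by
    rintro a a' ⟨j, hj⟩ h
    exact ⟨j, (h7 n t (2 * f) hf).2.2.1 _ _ _ ((h7 n t (2 * f) hf).2.1 _ _ (H2M_rpow h7 hf h (2 ^ j))) hj⟩
  mul := by
    rintro a a' ⟨j, hj⟩ ⟨j', hj'⟩
    refine ⟨j + j', ?_⟩
    have e : (a * a') ^ 2 ^ (j + j') = (a ^ 2 ^ j) ^ 2 ^ j' * (a' ^ 2 ^ j') ^ 2 ^ j := by
      rw [mul_pow, ← pow_mul, ← pow_mul, ← pow_add, ← pow_add, add_comm j' j]
    rw [e]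
    have g1 := H2M_rpow h7 hf hj (2 ^ j')
    have g2 := H2M_rpow h7 hf hj' (2 ^ j)
    have g3 := (h7 n t (2 * f) hf).2.2.2.1 _ _ _ _ g1 g2
    rwa [H2M_tpow, H2M_tpow, Ideal.top_mul] at g3
  cj := by
    rintro a ⟨j, hj⟩
    refine ⟨j, ?_⟩
    rw [← H2M_cpow h3]
    have g := (h3 n t).2.2.2.2.2 (2 * f) _ _ hj
    rwa [H2M_ctop h3] at g

/-- **`S_H2M`**, the groups `H2 f`, `H2N f N`. -/
theorem tH2M : S_O2 → S_O3 → S_O6 → S_O7 → S_O9 → S_H2M := by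
  intro h2 h3 h6 h7 h9 n t _ f hf0
  have A : HG (2 * f) (H2 (n := n) (t := t) f) := H2M_A h3 h7 (by omega)
  refine ⟨A, fun N hN1 => ?_⟩
  have hd : 2 * f ∣ f * 2 ^ N := by
    obtain ⟨M, rfl⟩ := Nat.exists_eq_add_of_le' hN1
    exact ⟨2 ^ M, by rw [pow_succ]; ring⟩
  have hN : 0 < f * 2 ^ N := Nat.mul_pos hf0 (by positivity)
  have hC : ∀ a : Ideal (OO n t), H2N f N a → a ≠ ⊥ ∧ PrI a (f * 2 ^ N) := by
    rintro a ⟨g1, g2⟩
    obtain ⟨g3, g4⟩ := A.cop a g1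
    refine ⟨g3, ?_⟩
    rw [(h6 n t).2.1]
    refine ⟨pri_dvd g4 (dvd_mul_left f 2), ?_⟩
    rw [(h6 n t).2.2.1 _ _ (by positivity)]
    exact H2M_cop g2
  refine ⟨⟨A.top, ?_⟩, hC, ?_, ?_, ?_⟩
  · left
    rw [H2M_NI]
    simp
  · rintro a a' h hr
    obtain ⟨g1, g2⟩ := h
    have g3 := (hC a ⟨g1, g2⟩).2
    have g4 := ((h7 n t _ hN).2.2.2.2.2.1 _ _ hr).2.1 g3
    refine ⟨A.ray a a' g1 ((h7 n t _ hN).2.2.2.2.2.2.1 (2 * f) _ _ hd hr), ?_⟩
    refine H2M_cg g2 (dvd_trans ?_ (h9 n t _ hN a a' g3 g4 hr))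
    push_cast
    exact dvd_mul_left _ _
  · rintro a a' ⟨g1, g2⟩ ⟨g3, g4⟩
    refine ⟨A.mul a a' g1 g3, ?_⟩
    rw [(h2 n t).2.2.2.2.1 a a']
    push_cast
    exact H2M_pm g2 g4
  · rintro a ⟨g1, g2⟩
    refine ⟨A.cj a g1, ?_⟩
    rw [((h3 n t).2.2.1 a).2.1]
    exact g2

end Pool.Agent.DN.Eb
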