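import Pool.Agent.Lib.DN.E.SpecB

/-!
# Theorem DN, part E, module HPM: the groups `HP f`, `HPN f N`

Author helper69, after `DK/E/HPM.lean`.
-/

set_option autoImplicit false

open scoped Pointwise nonZeroDivisors

noncomputable section

namespace Pool.Agent.DN.Eb

open Pool.Agent.MuZ Pool.Agent.FW NumberField IsDedekindDomain Pool.Agent.DN
open Pool.Agent.DI (io ofC io_inj exists_io io_ofC ofC_io VP MP UP TP ex sqr sqr_sq kap)

variable {n t : ℕ}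

private theorem HPM_rpow [SqN n t] (h7 : S_O7) {N : ℕ} (hN : 0 < N) {a b : Ideal (OO n t)}
    (h : Ray N a b) (j : ℕ) : Ray N (a ^ j) (b ^ j) := by
  induction j with
  | zero => rw [pow_zero, pow_zero]; exact (h7 n t N hN).1 _
  | succ j ih => rw [pow_succ, pow_succ]; exact (h7 n t N hN).2.2.2.1 _ _ _ _ ih h

private theorem HPM_pm {M x y : ℤ} (hx : M ∣ x - 1 ∨ M ∣ x + 1) (hy : M ∣ y - 1 ∨ M ∣ y + 1) :
    M ∣ x * y - 1 ∨ M ∣ x * y + 1 := by
  rcases hx with hx | hx <;> rcases hy with hy | hy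
  · left
    have e : x * y - 1 = (x - 1) * y + (y - 1) := by ring
    rw [e]
    exact dvd_add (hx.mul_right y) hy
  · right
    have e : x * y + 1 = (x - 1) * y + (y + 1) := by ring
    rw [e]
    exact dvd_add (hx.mul_right y) hy
  · right
    have e : x * y + 1 = (x + 1) * y - (y - 1) := by ring
    rw [e]
    exact dvd_sub (hx.mul_right y) hy
  · left
    have e : x * y - 1 = (x + 1) * y - (y + 1) := by ring
    rw [e]
    exact dvd_sub (hx.mul_right y) hy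

private theorem HPM_cg {M x y : ℤ} (hx : M ∣ x - 1 ∨ M ∣ x + 1) (h : M ∣ y - x) :
    M ∣ y - 1 ∨ M ∣ y + 1 := by
  rcases hx with hx | hx
  · left
    have e : y - 1 = (x - 1) + (y - x) := by ring
    rw [e]
    exact dvd_add hx h
  · right
    have e : y + 1 = (x + 1) + (y - x) := by ring
    rw [e]
    exact dvd_add hx h

/-- The classes of the principal ideals with a generator in a group `V`. -/
private theorem HPM_gen [SqN n t] (h3 : S_O3) (h6 : S_O6) (h7 : S_O7) {M : ℕ} (hM : 0 < M)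
    (V : OO n t → Prop) (v1 : V 1) (vc : ∀ v, V v → Cop v M) (vm : ∀ v u, V v → V u → V (v * u))
    (vj : ∀ v, V v → V (cjO v)) (H : Ideal (OO n t) → Prop)
    (hH : ∀ a, H a ↔ ∃ v : OO n t, v ≠ 0 ∧ V v ∧ Ray M a (sp v)) : HG M H where
  top := by
    refine (hH ⊤).2 ⟨1, one_ne_zero, v1, ?_⟩
    have e : sp (1 : OO n t) = ⊤ := Ideal.span_singleton_one
    rw [e]
    exact (h7 n t M hM).1 _
  cop := by
    intro a ha
    obtain ⟨v, hv, h, hr⟩ := (hH a).1 ha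
    obtain ⟨g1, g2⟩ := (h7 n t M hM).2.2.2.2.2.1 _ _ hr
    exact ⟨g1.2 (ne_sp hv), g2.2 (((h6 n t).2.2.2.1 M v hM).2 (vc v h))⟩
  ray := by
    intro a a' ha h
    obtain ⟨v, hv, g, hr⟩ := (hH a).1 ha
    exact (hH a').2 ⟨v, hv, g, (h7 n t M hM).2.2.1 _ _ _ ((h7 n t M hM).2.1 _ _ h) hr⟩
  mul := by
    intro a a' ha ha'
    obtain ⟨v, hv, g, hr⟩ := (hH a).1 ha
    obtain ⟨u, hu, g', hr'⟩ := (hH a').1 ha'
    refine (hH _).2 ⟨v * u, mul_ne_zero hv hu, vm v u g g', ?_⟩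
    have h := (h7 n t M hM).2.2.2.1 _ _ _ _ hr hr'
    have e : sp v * sp u = sp (v * u) := Ideal.span_singleton_mul_span_singleton v u
    rwa [e] at h
  cj := by
    intro a ha
    obtain ⟨v, hv, g, hr⟩ := (hH a).1 ha
    refine (hH _).2 ⟨cjO v, ?_, vj v g, ?_⟩
    · intro h0
      apply hv
      rw [← cjO_cjO v, h0, cjO_zero]
    · have h := (h3 n t).2.2.2.2.2 M _ _ hr
      rwa [(h3 n t).2.2.2.1 v] at h

private theorem HPM_mono {f j j' : ℕ} {v : OO n t} (h : (f : OO n t) ∣ v ^ 2 ^ j - 1)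
    (hj : j ≤ j') : (f : OO n t) ∣ v ^ 2 ^ j' - 1 := by
  obtain ⟨i, rfl⟩ := Nat.exists_eq_add_of_le hj
  rw [pow_add, pow_mul]
  have h1 := sub_dvd_pow_sub_pow (v ^ 2 ^ j) 1 (2 ^ i)
  rw [one_pow] at h1
  exact h.trans h1

private theorem HPM_f1 (f : ℕ) : Hf f (1 : OO n t) :=
  ⟨cop_one _, 0, by rw [one_pow, sub_self]; exact dvd_zero _⟩

private theorem HPM_fm {f : ℕ} {v u : OO n t} (hv : Hf f v) (hu : Hf f u) : Hf f (v * u) := by
  obtain ⟨h1, j, hj⟩ := hv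
  obtain ⟨h2, i, hi⟩ := hu
  refine ⟨cop_mul h1 h2, max j i, ?_⟩
  have g1 := HPM_mono hj (le_max_left j i)
  have g2 := HPM_mono hi (le_max_right j i)
  have e : (v * u) ^ 2 ^ max j i - 1 =
      (v ^ 2 ^ max j i - 1) * u ^ 2 ^ max j i + (u ^ 2 ^ max j i - 1) := by
    rw [mul_pow]
    ring
  rw [e]
  exact dvd_add (g1.mul_right _) g2

private theorem HPM_fj {f : ℕ} {v : OO n t} (hv : Hf f v) : Hf f (cjO v) := by
  obtain ⟨h1, j, c, hc⟩ := hv
  refine ⟨cop_cj h1, j, cjO c, ?_⟩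
  have h := congrArg (cjE n t) hc
  rw [map_sub, map_pow, map_one, map_mul, map_natCast] at h
  exact h

private theorem HPM_c {f N : ℕ} {v : OO n t} (h : Cop v (2 * f)) : Cop v (f * 2 ^ N) := by
  unfold Cop at *
  push_cast at *
  rw [IsCoprime.mul_right_iff] at *
  exact ⟨h.2, h.1.pow_right⟩

/-- **`S_HPM`**, the groups `HP f`, `HPN f N`. -/
theorem tHPM : S_O2 → S_O3 → S_O6 → S_O7 → S_O9 → S_H2M → S_HPM := by
  intro h2 h3 h6 h7 h9 _ n t _ f hf0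
  have hN : ∀ N : ℕ, 0 < f * 2 ^ N := fun N => Nat.mul_pos hf0 (by positivity)
  have h2f : 0 < 2 * f := by omega
  have hdv : ∀ N : ℕ, 1 ≤ N → 2 * f ∣ f * 2 ^ N := fun N h => by
    rw [mul_comm 2 f]
    exact mul_dvd_mul_left f (dvd_pow_self 2 (by omega))
  have A : HG (2 * f) (HP (n := n) (t := t) f) :=
    HPM_gen h3 h6 h7 h2f (Hf f) (HPM_f1 f) (fun v hv => hv.1) (fun v u => HPM_fm)
      (fun v => HPM_fj) _ (fun a => Iff.rfl)
  have B : ∀ N : ℕ, HG (f * 2 ^ N) (HPN (n := n) (t := t) f N) := by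
    intro N
    refine HPM_gen h3 h6 h7 (hN N) (fun v => HN f N v)
      ⟨HPM_f1 f, Or.inl ?_⟩ (fun v hv => HPM_c hv.1.1) ?_ ?_ _ (fun a => Iff.rfl)
    · rw [Nm_one, sub_self]
      exact dvd_zero _
    · rintro v u ⟨g1, g2⟩ ⟨g4, g5⟩
      refine ⟨HPM_fm g1 g4, ?_⟩
      rw [Nm_mul]
      exact HPM_pm g2 g5
    · rintro v ⟨g1, g2⟩
      refine ⟨HPM_fj g1, ?_⟩
      rw [Nm_cjO]
      exact g2
  have C : ∀ a : Ideal (OO n t), HP f a → H2 f a := by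
    rintro a ⟨v, g1, ⟨g2, j, hj⟩, g3⟩
    refine ⟨j, ?_⟩
    have g4 := HPM_rpow h7 h2f g3 (2 ^ j)
    rw [Ideal.span_singleton_pow] at g4
    refine (h7 n t _ h2f).2.2.1 _ _ _ g4 ?_
    have g5 : Cop (v ^ 2 ^ j) (2 * f) := by
      refine cop_congr (a := 1) ?_ (cop_one _)
      rw [← dvd_neg, neg_sub]
      exact hj
    have g6 := ((h7 n t _ h2f).2.2.2.2.2.2.2.1 (v ^ 2 ^ j) 1 (pow_ne_zero _ g1) one_ne_zero g5
      (cop_one _)).2 ⟨1, Nm_one, by rwa [mul_one]⟩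
    have e : sp (1 : OO n t) = ⊤ := Ideal.span_singleton_one
    rwa [e] at g6
  refine ⟨A, fun N _ => B N, C, ?_⟩
  intro N a hN1 ha
  have hc := ((B N).cop a ha).2
  obtain ⟨v, g1, ⟨g2, g3⟩, g5⟩ := ha
  have g6 : Ray (2 * f) a (sp v) := (h7 n t _ (hN N)).2.2.2.2.2.2.1 (2 * f) _ _ (hdv N hN1) g5
  refine ⟨C a ⟨v, g1, g2, g6⟩, ?_⟩
  have g7 := h9 n t _ (hN N) a (sp v) hc (((h6 n t).2.2.2.1 _ v (hN N)).2 (HPM_c g2.1)) g5
  rw [(h2 n t).2.2.2.1 v] at g7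
  refine HPM_cg g3 (dvd_trans ?_ g7)
  push_cast
  exact dvd_mul_left _ _

end Pool.Agent.DN.Eb
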