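import Pool.Agent.Lib.DN.E.SpecB

/-!
# Theorem DN, part E, module Op: an open subgroup which acts trivially on the `N`-torsion and on `μ_N`
-/

set_option autoImplicit false

open scoped Pointwise nonZeroDivisors

noncomputable section

namespace Pool.Agent.DN.Eb

open Pool.Agent.MuZ Pool.Agent.FW NumberField IsDedekindDomain Pool.Agent.DN

private theorem Op_fin (N : ℕ) (hN : 0 < N) : {ζ : Om | ζ ^ N = 1}.Finite := by
  classical
  refine ((Polynomial.nthRoots N (1 : Om)).toFinset.finite_toSet).subset ?_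
  intro ζ hζ
  rw [Finset.mem_coe, Multiset.mem_toFinset, Polynomial.mem_nthRoots hN]
  exact hζ

/-- **An open subgroup acting trivially on the `N`-torsion and on `μ_N`.** -/
theorem tOp : S_FN → S_Op := by
  intro h n t _ N hN h15
  obtain ⟨A, hA, hd, hx⟩ := h n t N hN h15
  have hfin : Finite ((A ∪ {ζ : Om | ζ ^ N = 1} : Set Om)) := (hA.union (Op_fin N hN)).to_subtype
  have hE : FiniteDimensional ℚ (IntermediateField.adjoin ℚ (A ∪ {ζ : Om | ζ ^ N = 1})) :=
    IntermediateField.finiteDimensional_adjoin fun x _ => Algebra.IsIntegral.isIntegral x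
  refine ⟨⟨(IntermediateField.adjoin ℚ (A ∪ {ζ : Om | ζ ^ N = 1})).fixingSubgroup,
    IntermediateField.fixingSubgroup_isOpen _⟩, ?_⟩
  intro τ hτ
  have hτ' : τ ∈ (IntermediateField.adjoin ℚ (A ∪ {ζ : Om | ζ ^ N = 1})).fixingSubgroup := hτ
  rw [IntermediateField.mem_fixingSubgroup_iff] at hτ'
  have hfix : ∀ x ∈ A ∪ {ζ : Om | ζ ^ N = 1}, τ x = x :=
    fun x hx => hτ' x (IntermediateField.subset_adjoin ℚ _ hx)
  refine ⟨⟨ne_top, pri_top _, fun b hb hc => ?_, fun b hb hc => ?_, fun b hb hc z hz => ?_⟩,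
    fun ζ hζ => hfix ζ (Or.inr hζ)⟩
  · rw [Ideal.top_mul]
    exact hfix _ (Or.inl (hd b ⟨hb, hc⟩).1)
  · rw [Ideal.top_mul]
    exact hfix _ (Or.inl (hd b ⟨hb, hc⟩).2)
  · rw [Ideal.top_mul]
    exact hfix _ (Or.inl (hx b ⟨hb, hc⟩ z hz))

end Pool.Agent.DN.Eb
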