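import Pool.Agent.Lib.DN.IfaceX
import Pool.Agent.Lib.DN.E.SpecB

/-!
# Theorem DN, part E, first half (Galois action): statements of the modules with proofs (author helper39)

Every statement `S_..` of this file is proved in the file `DN/E/<Name>.lean` (first line
`import Pool.Agent.Lib.DN.E.SpecA`, namespace `Pool.Agent.DN`) as `theorem s<Name> (hypotheses) : S_<Name>`: hypotheses
exactly the statements named after (from ..), in that order. `Eb.S_..` are the statements of `DN/E/SpecB.lean`. Read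
`DN/Defs.lean`, `DN/Iface.lean`, `DN/IfaceX.lean` (structure `XOm`: part B over `Om`), `DN/Base.lean` first; the lemmas at the
beginning of `DN/E/SpecB.lean` (`ne_mul`, `ne_sp`, `nat_ne`, `pri_mul`, `pri_dvd`, `pri_15`, `g15_top`, `g15_mul`, `psi_top`, `psi_mul`, `psi_level`,
`psi_pri`, `psi_g15`, namespace `Eb`) are available. Facts on `VP`, `MP`, `UP`, Frobenius, inertia: `DI/Val.lean` (`VP.frob`, `VP.inertia`).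
Some modules are adaptations of `DK/E/<Name>.lean` or `DT/E/<Name>.lean` (same name). An instance `[Ine n t]` gives `[SqN n t]`.
`aO1` .. `aO12`, `aL1` .. `aL7` (all parts of `S_O..`, `S_L..`) are proved in `DN/O/All.lean`, they may be used instead of hypotheses.
-/

set_option autoImplicit false

open scoped Pointwise nonZeroDivisors

noncomputable section

namespace Pool.Agent.DN

open Pool.Agent.MuZ Pool.Agent.FW NumberField IsDedekindDomain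
open Pool.Agent.DI (io ofC io_inj exists_io io_ofC ofC_io VP MP UP TP ex)

/-! ## 1. Finiteness, `S_E2`, existence -/

/-- MODULE `Iso` (100 lines; from `S_B7`; compare `DT/E/Iso.lean` and `Uq_norm` in `DN/E/Uq.lean`). HOMOGENEITY FOR ELEMENTS OF `K`. PROOF. `15 ∣ α β - 1` (`cop_inv`), `c = α β`, `c' = α' β`: `c - 1` is divisible by `3` and by `5`, `c' - 1` by `3`, and `c' - 1` or `c' + 1` by `5`; `c, c' ≠ 0` (`3` does not divide `1`).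
`sp c * (a * b) = sp c' * (a' * b)` is a product of ideals prime to `15`. `S_B7` (third part, for `c` and `a * b`, for `c'` and `a' * b`): `toC c * fr (a * b) = fr (..) = toC c' * fr (a' * b)`, cancel `toC β`; `A1`, `A3` agree; `XC (a * b) (toC c * y) = XC (sp c * (a * b)) y = XC (a' * b) (toC c' * y)`, `y = z / toC c'`,
`toC c / toC c' = toC α / toC α'`; the same for `WC`. Lattices: `lam_sp` for `sp α * (a * b) = sp α' * (a' * b)` at `z / toC α'`. -/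
def S_Iso : Prop :=
  ∀ (n t : ℕ) [SqN n t] (a a' : Ideal (OO n t)) (α α' : OO n t), G15 a → G15 a' → α ≠ 0 → α' ≠ 0 →
    Cop α 15 → Cop α' 15 → (3 : OO n t) ∣ α - α' → ((5 : OO n t) ∣ α - α' ∨ (5 : OO n t) ∣ α + α') →
    sp α * a = sp α' * a' → ∀ b : Ideal (OO n t), G15 b →
      A1 (a' * b) = A1 (a * b) ∧ A3 (a' * b) = A3 (a * b) ∧
      toC α' * fr (a' * b) = toC α * fr (a * b) ∧
      ∀ z : ℂ, XC (a' * b) z = XC (a * b) (toC α / toC α' * z) ∧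
        WC (a' * b) z = WC (a * b) (toC α / toC α' * z) ∧
        (z ∈ Lam (a' * b) ↔ toC α / toC α' * z ∈ Lam (a * b))

/-- MODULE `FN` (130 lines; from `S_O7`, `S_L3`, `S_XOm`, `S_Iso`; adapt `DK/E/FN.lean`). FINITENESS. THEOREM `sFN : .. → Eb.S_FN`. PROOF. `S_O7` for the modulus `15`: a finite set `R` of representatives (`IsRC 15 R`). For `G15 b` there is `b₀ ∈ R` with `Ray 15 b b₀`, so `Ray 15 b₀ b` (`S_O7` (2)): `sp α * b₀ = sp α' * b`, `15 ∣ α - α'`. `S_Iso` (`a = b₀`, `a' = b`, the last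
ideal `⊤`, `Ideal.mul_top`): `A1 b = A1 b₀`, `A3 b = A3 b₀`, `XC b z = XC b₀ (μ z)`, so `a1O b = a1O b₀`, .., `xO b z = xO b₀ (μ z)`, and `N z ∈ Lam b ↔ N (μ z) ∈ Lam b₀` (`S_Iso` for `N z`). For `b₀ ∈ R` the points with `N z ∈ Lam b₀`, that is `z ∈ Lam (sp N * b₀)` (`lam_sp`, `toC_nat`), are in
finitely many classes modulo `Lam b₀` (`S_L3`: a finite system), and `xO b₀` is periodic (`XOm.cng`). -/
abbrev M_FN : Prop := Eb.S_FN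

/-- MODULE `Inc` (10 lines). This is `Pool.Agent.DK.sInc` (`import Pool.Agent.Lib.DK.E.Inc`; see `DT/E/Inc.lean`). DISTINCT ALGEBRAIC NUMBERS ARE INCONGRUENT ALMOST EVERYWHERE. -/
def S_Inc : Prop :=
  ∀ A : Set Om, A.Finite → ∃ B : ℕ, 0 < B ∧ ∀ (Q : Ideal ZZ) (l : ℕ), Npr Q → MP Q (l : Om) → l.Coprime B →
    (∀ x ∈ A, VP Q x) ∧ ∀ x ∈ A, ∀ y ∈ A, MP Q (x - y) → x = y

/-- MODULE `E2` (150 lines; from `S_O6`, `S_R2a`, `S_XOm`, `Eb.S_AbB`, `S_D1`, `S_D3`, `Eb.S_FN`, `S_Inc`; adapt `DK/E/E2.lean` or `DT/E/E2.lean`). THEOREM `sE2 : .. → S_E2`. PROOF. Let `A₀` be the set of `S_FN` for `N`, `A` the finite set of all conjugates of its elements (stable under `Gal(Om/ℚ)`), `B = 30 N B₁ B₂` with `B₁` from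
`S_Inc` for `A`, `B₂` from `S_R2a` (2). Let `Deg1 q l`, `l.Coprime B`, `Npr Q`, `Abv Q q`, `τ ∈ GK`, `Fro Q l τ`. `MP Q l`, and integers prime to `l` are units at `Q` (`S_AbB` (2)), so `GQ n t Q`. `PrI q (15 * N)`: `NI q = l` (`S_O6` (3)). Let `G15 b`. `a1O b ∈ V` (`S_Inc`), `τ (a1O b) ≡ (a1O b) ^ l ≡ a1O (q * b)`
(`VP.frob`, `S_D3`), both in `A`: equal. The same for `a3O`. Let `N z ∈ Lam b`. If `z ∈ Lam b` then `z ∈ Lam (q * b)` (`lam_mono`), `xO b z = -(a1O b ^ 2)/12`, `xO (q * b) z = -(a1O (q * b) ^ 2)/12` (`XOm.lat`). If `z ∉ Lam b`: `¬ IK Q b z`: otherwise `Qp Q b z` (`S_D1` (5)), with `α = N`, `β = 1`, `¬ MP Q N`: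
`z ∈ Lam b`. So `xO (q * b) z ≡ (xO b z) ^ l ≡ τ (xO b z)` (`S_D3`), both in `A`: equal. -/
abbrev M_E2 : Prop := S_E2

/-- MODULE `OpA` (50 lines; adapt `DT/E/OpA.lean`). SUBMONOIDS CONTAINING AN OPEN SUBGROUP OF `GK` ARE SUBGROUPS. PROOF. `Gal(Om/ℚ)` is compact, so the open subgroup `U` has finite index: some power `τ ^ m`, `m > 0`, is in `U` (and in `GK`), so `(τ ^ m)⁻¹ ∈ H` and `τ⁻¹ = τ ^ (m - 1) (τ ^ m)⁻¹ ∈ H`. -/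
def S_OpA : Prop :=
  ∀ (n t : ℕ) [SqN n t] (U : OpenSubgroup Gal(Om/ℚ)) (H : Set Gal(Om/ℚ)), H ⊆ (GK n t : Set Gal(Om/ℚ)) →
    (∀ τ ∈ GK n t, τ ∈ U → τ ∈ H) → (∀ τ ∈ H, ∀ τ' ∈ H, τ * τ' ∈ H) → ∀ τ ∈ H, τ⁻¹ ∈ H

/-- MODULE `Ex` (60 lines; from `Eb.S_Gn`, `Eb.S_Op`, `S_OpA`, `S_E2`; compare `DT/E/Ex.lean`). EXISTENCE. THEOREM `sEx : .. → Eb.S_Ex`. PROOF. `H = {τ ∈ GK n t | ∃ a, Psi τ N a}` is closed under products (`Eb.psi_mul`), contains `GK ⊓ U`, `U` from `S_Op` (`a = ⊤`), so it is a subgroup (`S_OpA`). `S_Gn` with this `U` and `M = B` of `S_E2`: the Frobenius elements are in `H` by `S_E2`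
(`a = q`). So `GK n t ≤ H`. -/
abbrev M_Ex : Prop := Eb.S_Ex

/-! ## 2. Galois theory over `K`, Grunwald - Wang -/

/-- MODULE `MO` (70 lines). ALGEBRAIC INTEGERS IN `K`. PROOF. `x ∈ KQ n t` by Galois theory (`InfiniteGalois`, `GK = (KQ n t).fixingSubgroup`; `IsGalois ℚ Om`: see `Gen_isGalois` in `DK/Gen.lean`), `KQ n t = ℚ(wO)` and `wO` is integral of degree at most `2` (`wO_sq`), so `x = a + b wO` with rational `a, b`: `x = toO v / m`, `m > 0`. `io x = toC v / m` is integral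
over `ℤ`, so `m ∣ v` by `mem_O` (`DN/Ded.lean`). -/
def S_MO : Prop :=
  ∀ (n t : ℕ) [SqN n t] (x : Om), IsIntegral ℤ x → (∀ τ ∈ GK n t, τ x = x) → ∃ v : OO n t, x = toO v

/-- MODULE `Dq` (100 lines). DEGREE ONE PRIMES. PROOF. `O/q` is a domain with `l` elements, `l` prime, so it is isomorphic to `ZMod l` (for instance `ZMod.ringEquivOfPrime`, or: the map `ZMod l → O/q` is injective, so bijective). (1) `(l : O) ∈ q`, `q ∩ ℤ = l ℤ`. (2) `-1` is not a square modulo `l` if `l % 4 = 3` (`ZMod.exists_sq_eq_neg_one_iff`). (3) If `l % 3 = 2` the group of order `l - 1` has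
no element of order `3`. (4) `v ^ l = v` in `ZMod l`. (5) `Nm β = β * cjO β` (`mul_cjO`) and (1). -/
def S_Dq : Prop :=
  ∀ (n t : ℕ) [SqN n t] (q : Ideal (OO n t)) (l : ℕ), Deg1 q l →
    (∀ m : ℤ, (m : OO n t) ∈ q ↔ (l : ℤ) ∣ m) ∧
    (l % 4 = 3 → ∀ x : OO n t, x ^ 2 + 1 ∉ q) ∧
    (l % 3 = 2 → ∀ x : OO n t, x ^ 3 - 1 ∈ q → x - 1 ∈ q) ∧
    (∀ v : OO n t, v ^ l - v ∈ q) ∧ ∀ β : OO n t, ¬ (l : ℤ) ∣ Nm β → β ∉ q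

/-- MODULE `Aux` (150 lines; from `Eb.S_Gn`, `Eb.S_AbB`, `S_MO`). AUXILIARY PRIMES. PROOF. (1) Suppose that all `Deg1 q l` with `l.Coprime M` satisfy `l % 4 ≠ 3`. Let `i ∈ Om`, `i ^ 2 = -1`, `H = {τ | τ i = i}`, `O` the open subgroup fixing `ℚ(i)`. `S_Gn` with the modulus `2 M`: let `Deg1 q l`, `l.Coprime (2 M)`, `Fro Q l τ`; `l % 4 = 1`, so `τ i ≡ i ^ l = i` modulo `Q`. `τ i = ± i`; if
`τ i = - i` then `MP Q (2 i)`, but `2`, `i` are units at `Q` (`S_AbB` (2)). So `τ ∈ H`, `GK ≤ H`, `i = toO v` (`S_MO`), `v ^ 2 = -1`. `v = x + y w`, `t = 1`: `2 x y + y ^ 2 = 0`, `x ^ 2 - n y ^ 2 = -1`: `y = 0` gives `x ^ 2 = -1`, `y = - 2 x` gives `x ^ 2 (4 n - 1) = 1`: both impossible (`n ≥ 1`). (2) The same with a primitive third root of unity `ρ`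
and the modulus `3 M`: if `l % 3 = 1` then `τ ρ ≡ ρ ^ l = ρ`, `τ ρ = ρ` or `ρ ^ 2`, `ρ ^ 2 - ρ` divides `3`, a unit at `Q`. `v ^ 2 + v + 1 = 0`: `y (2 x + y + 1) = 0`, `x ^ 2 + x + 1 = n y ^ 2`: `y ≠ 0`, `y = -(2 x + 1)`, `s = x ^ 2 + x ≥ 0`, `s + 1 = n (4 s + 1)`, so `n = 1`. -/
def S_Aux : Prop :=
  ∀ (n t : ℕ) [Ine n t] (M : ℕ), 0 < M →
    (∃ (q : Ideal (OO n t)) (l : ℕ), Deg1 q l ∧ l.Coprime M ∧ l % 4 = 3) ∧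
    (n ≠ 1 → ∃ (q : Ideal (OO n t)) (l : ℕ), Deg1 q l ∧ l.Coprime M ∧ l % 3 = 2)

/-- MODULE `Gwf` (200 lines; from `Eb.S_AbB`; `import Pool.Agent.Lib.DK.Gen`; see `DN/E/Gn.lean` for the use of `gen_frob`). GRUNWALD - WANG, FROBENIUS ELEMENTS. `p` is a prime, `ζ` a primitive root of unity of order `2 p`, `θ ^ p = g`. PROOF. `M' = IntermediateField.adjoin ℚ {wO n t, ζ}` is a number field, its fixing subgroup is `{τ | τ wO = wO, τ ζ = ζ}`. `H = {τ | τ θ = θ}`, a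
subgroup, `O` the open subgroup which fixes `ℚ(θ)`. Apply `Pool.Agent.DK.gen_frob` for `M'` and the modulus `m = 2 p B |Nm g|`. Let `l, Q, τ` be as in its last hypothesis. (a) As in `DN/E/Gn.lean`: `q = {v | MP Q (toO v)}` satisfies `Deg1 q l` (`NI q` divides the order `l` of `𝓞 M' ⧸ Q`), `Abv Q q`; `l.Coprime B`. So there is `u` with `g - u ^ p ∈ q` or
`g + u ^ p ∈ q`. `ζ ^ p = -1` (it is a square root of `1` and `≠ 1`). So with `u' = toO u` or `u' = ζ toO u`: `MP Q (θ ^ p - u' ^ p)`. (b) `η = ζ ^ 2` is a primitive `p`-th root of unity: `X ^ p - u' ^ p = ∏ (X - η ^ i u')`, so `MP Q (θ - η ^ i u')` for some `i` (`MP.mul_cases`, all factors are integral; for instance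
`IsPrimitiveRoot.pow_sub_pow_eq_prod_sub_mul` with `MP Q` of a product). `x = η ^ i u'` is fixed by `τ` (`τ ∈ GK`: `GK_toO`; `τ ζ = ζ`), and `MP Q (θ - x)` gives `MP Q (τ θ - x)` (`Fro Q l τ`: `y ∈ Q` implies `τ • y ∈ Q`), so `MP Q (τ θ - θ)`. (c) `(τ θ) ^ p = θ ^ p`, `θ ≠ 0`, so `τ θ = ε θ` with `ε ^ p = 1`. If `ε ≠ 1` then `ε` is a
primitive `p`-th root of unity, `p = ∏ (1 - ε ^ i)` (`i = 1 .. p - 1`), `MP Q ((ε - 1) θ)`, so `MP Q p` or `MP Q θ`, and the latter gives `MP Q (toO g)`, `MP Q (Nm g)` (`mul_cjO`). But `p` and `Nm g` are units at `Q` (`S_AbB` (2)). So `ε = 1`, `τ ∈ H`. -/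
def S_Gwf : Prop :=
  ∀ (n t : ℕ) [SqN n t] (p : ℕ) (g : OO n t) (B : ℕ), p.Prime → g ≠ 0 → 0 < B →
    (∀ (q : Ideal (OO n t)) (l : ℕ), Deg1 q l → l.Coprime B →
      ∃ u : OO n t, g - u ^ p ∈ q ∨ g + u ^ p ∈ q) →
    ∀ ζ θ : Om, IsPrimitiveRoot ζ (2 * p) → θ ^ p = toO g → ∀ τ ∈ GK n t, τ ζ = ζ → τ θ = θ

/-- MODULE `Gwc` (150 lines; from `S_MO`, `S_Gwf`). GRUNWALD - WANG. PROOF. Let `θ ^ p = toO g` (`Om` is algebraically closed), `ζ` a primitive root of order `2 p`. `S_Gwf`: all `τ ∈ GK` with `τ ζ = ζ` fix `θ`. `θ` and roots of unity are integral. CASE `p = 2`. `ζ ^ 2 = -1`. If all `τ ∈ GK` fix `θ`: `θ = toO v` (`S_MO`), `v ^ 2 = g` (`toO_inj`). Otherwise `τ₀ θ ≠ θ`,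
so `τ₀ θ = - θ` and `τ₀ ζ ≠ ζ`, `τ₀ ζ = - ζ`. Every `τ ∈ GK` fixes `ζ θ`: if `τ ζ = ζ` clear; if `τ ζ = - ζ` then `τ₀⁻¹ τ` fixes `ζ`, so `θ`, and `τ θ = τ₀ θ = - θ`. So `ζ θ = toO v`, `v ^ 2 = - g`. CASE `p` odd. `η = ζ ^ 2` is a primitive `p`-th root of unity, `ζ = - η ^ ((p + 1) / 2)` (both have the square `η`, and `ζ ≠ η ^ ..` by the order), so
`τ η = η` implies `τ ζ = ζ` and `τ θ = θ`. For `τ ∈ GK`: `τ η = η ^ k`, `τ θ = η ^ c θ`. If all `τ ∈ GK` fix `η`: `θ = toO v`. Otherwise let `τ₀ η = η ^ k`, `k` not `1` modulo `p`, `τ₀ θ = η ^ c θ`; choose `b` with `p ∣ b (k - 1) + c`, `θ' = η ^ b θ`: `τ₀ θ' = θ'`. Let `τ ∈ GK`, `τ θ' = η ^ d θ'`. `(τ₀ τ)⁻¹ (τ τ₀)` is in `GK` and fixes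
`η` (powers commute), so it fixes `θ` and `θ'`: `τ (τ₀ θ') = τ₀ (τ θ')`, `η ^ d θ' = η ^ (k d) θ'`, so `p ∣ (k - 1) d`, `p ∣ d`, `τ θ' = θ'`. So `θ' = toO v`, `v ^ p = g`. -/
def S_Gwc : Prop :=
  ∀ (n t : ℕ) [SqN n t] (p : ℕ) (g : OO n t) (B : ℕ), p.Prime → g ≠ 0 → 0 < B →
    (∀ (q : Ideal (OO n t)) (l : ℕ), Deg1 q l → l.Coprime B →
      ∃ u : OO n t, g - u ^ p ∈ q ∨ g + u ^ p ∈ q) →
    ∃ v : OO n t, v ^ p = g ∨ v ^ p = -g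

/-! ## 3. Inertia at the primes above `2`: affine maps -/

/-- `z ↦ γ z` is an affine map for the coordinate `X` of `ℂ / O` modulo `P`, on the `N`-torsion. -/
structure AfM {n t : ℕ} (P : Ideal ZZ) (N : ℕ) (γ : OO n t) (al r : Om) : Prop where
  cop : Cop γ N
  hal : UP P al
  hr : VP P r
  aff : ∀ z : ℂ, (N : ℂ) * z ∈ Lam (⊤ : Ideal (OO n t)) → z ∉ Lam (⊤ : Ideal (OO n t)) →
    MP P (xO (⊤ : Ideal (OO n t)) (toC γ * z) - (al * xO (⊤ : Ideal (OO n t)) z + r))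

/-- MODULE `Afi` (150 lines; from `S_L5`, `S_O6`, `S_R2a`, `S_D1`). BASIC FACTS. `b = ⊤` (`Eb.g15_top`), `P` is above `2`, `N > 0` odd, so `¬ MP P N` (`MP P 2`, Bezout, `MP.one_not`). `GQ n t P`: `S_R2a`. PROOF. (1) `tor_iff`; `IK P ⊤ z` would give `Qp P ⊤ z` (`S_D1` (5)), with `α = N`, `β = 1`: `z ∈ Lam ⊤`. `VP` by definition of `IK`. (2) `S_D1` (7): `z + z'` or `z - z'` is in the
kernel; it is an `N`-torsion point, so by (1) it is in `Lam ⊤`. (3) `S_L5` for `a = sp γ`, `b = ⊤` (`PrI (sp γ) N`: `S_O6` (4); `γ ≠ 0` because `Cop γ N`, `N ≥ 3`), `lam_sp`. (4) `X(γ γ' z) ≡ al X(γ' z) + r ≡ al (al' X(z) + r') + r` ((3) for `γ'`; `N (toC γ' * z) ∈ Lam ⊤`). (5) `X(γ z) ≡ X(z)`, so by (2), (3) `γ z - z` or `γ z + z` is in `Lam ⊤` for every `z` with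
`N z ∈ Lam ⊤` (clear for `z ∈ Lam ⊤`). One sign for all `z`: copy the private lemma `Uq_cover` of `DN/E/Uq.lean` (`μ = toC γ`, `a = ⊤`): `(γ - e) z ∈ Lam ⊤`. `z = 1/N` (`one_div_lam`): `toC (γ - e) / N ∈ Lam ⊤`, so `N ∣ γ - e` (`lam_top`, `toC_inj`). -/
def S_Afi : Prop :=
  ∀ (n t : ℕ) [Ine n t] (P : Ideal ZZ), Ab2 P → ∀ N : ℕ, Odd N → 3 ≤ N →
    (∀ z : ℂ, (N : ℂ) * z ∈ Lam (⊤ : Ideal (OO n t)) → z ∉ Lam (⊤ : Ideal (OO n t)) →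
      Tor n t z ∧ ¬ IK P (⊤ : Ideal (OO n t)) z ∧ VP P (xO (⊤ : Ideal (OO n t)) z)) ∧
    (∀ z z' : ℂ, (N : ℂ) * z ∈ Lam (⊤ : Ideal (OO n t)) → z ∉ Lam (⊤ : Ideal (OO n t)) →
      (N : ℂ) * z' ∈ Lam (⊤ : Ideal (OO n t)) → z' ∉ Lam (⊤ : Ideal (OO n t)) →
      MP P (xO (⊤ : Ideal (OO n t)) z - xO (⊤ : Ideal (OO n t)) z') →
      z - z' ∈ Lam (⊤ : Ideal (OO n t)) ∨ z + z' ∈ Lam (⊤ : Ideal (OO n t))) ∧
    (∀ (γ : OO n t) (z : ℂ), Cop γ N → (N : ℂ) * z ∈ Lam (⊤ : Ideal (OO n t)) →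
      z ∉ Lam (⊤ : Ideal (OO n t)) → (N : ℂ) * (toC γ * z) ∈ Lam (⊤ : Ideal (OO n t)) ∧
        toC γ * z ∉ Lam (⊤ : Ideal (OO n t))) ∧
    (∀ (γ γ' : OO n t) (al al' r r' : Om), AfM P N γ al r → AfM P N γ' al' r' →
      AfM P N (γ * γ') (al * al') (al * r' + r)) ∧
    ∀ (γ : OO n t) (al r : Om), AfM P N γ al r → MP P (al - 1) → MP P r →
      (N : OO n t) ∣ γ - 1 ∨ (N : OO n t) ∣ γ + 1

/-- MODULE `Afx` (100 lines; from `S_L3`, `S_XOm`, `S_Dq`, `S_Afi`). A FIXED POINT. `X = xO ⊤`. PROOF. (1) `γ z₀ = ± z₀`, `γ (2 z₀) = ± 2 z₀` modulo `Lam ⊤` and `X` is even and periodic (`XOm.cng'`), so `X(z₀) = X(γ z₀) ≡ al X(z₀) + r` and `X(2 z₀) = X(γ (2 z₀)) ≡ al X(2 z₀) + r`. So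
`(al - 1) (X(2 z₀) - X(z₀)) ≡ 0`, and `X(2 z₀) - X(z₀)` is not in `m` (`S_Afi` (2): otherwise `z₀` or `3 z₀ ∈ Lam ⊤`). So `al ≡ 1`, `r ≡ 0`, `S_Afi` (5). (2) `z₀` from `S_L3` for `a = q`, `b = ⊤`: `toC v * z₀ ∈ Lam ⊤ ↔ v ∈ q`. `1, 2, 3 ∉ q` (`S_Dq` (1)), `N ∈ q`, `γ z₀ ∓ z₀ = toC (γ ∓ 1) * z₀ ∈ Lam ⊤`; (1). -/
def S_Afx : Prop :=
  ∀ (n t : ℕ) [Ine n t] (P : Ideal ZZ), Ab2 P → ∀ N : ℕ, Odd N → 3 ≤ N →
    ∀ (γ : OO n t) (al r : Om), AfM P N γ al r →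
      (∀ z₀ : ℂ, (N : ℂ) * z₀ ∈ Lam (⊤ : Ideal (OO n t)) → z₀ ∉ Lam (⊤ : Ideal (OO n t)) →
        2 * z₀ ∉ Lam (⊤ : Ideal (OO n t)) → 3 * z₀ ∉ Lam (⊤ : Ideal (OO n t)) →
        (toC γ * z₀ - z₀ ∈ Lam (⊤ : Ideal (OO n t)) ∨ toC γ * z₀ + z₀ ∈ Lam (⊤ : Ideal (OO n t))) →
        (N : OO n t) ∣ γ - 1 ∨ (N : OO n t) ∣ γ + 1) ∧
      ∀ (q : Ideal (OO n t)) (l : ℕ), Deg1 q l → l ∣ N → l.Coprime 30 → (γ - 1 ∈ q ∨ γ + 1 ∈ q) →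
        (N : OO n t) ∣ γ - 1 ∨ (N : OO n t) ∣ γ + 1

/-- MODULE `Af3` (150 lines; from `S_R2a`, `S_XOm`, `S_D2`, `S_Afi`). AUTOMORPHISMS OF THE SUPERSINGULAR CURVE. `X = xO ⊤`, `a₃ = a3O ⊤`, a unit at `P` (`GQ`). PROOF. (1) DUPLICATION: for `N z ∈ Lam ⊤`, `z ∉ Lam ⊤`: `X(2 z) a₃ ^ 2 ≡ X(z) ^ 4` modulo `m`: `XOm.dup` (`2 z ∉ Lam ⊤` as `N` is odd), `vO ⊤ z ≡ a₃` (`S_D2` (4)), `a1O ⊤ ∈ m` (`S_R2a`), `2 ∈ m`, all numbers in `V`.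
(2) For `y = 2 z`: `a₃ ^ 2 (al X(y) + r) ≡ a₃ ^ 2 X(γ y) ≡ X(γ z) ^ 4 ≡ (al X(z) + r) ^ 4 ≡ al ^ 4 X(z) ^ 4 + r ^ 4 ≡ al ^ 4 a₃ ^ 2 X(y) + r ^ 4` (`2 ∈ m`). `z = 2/3`: `X(4/3) = X(1/3) = 0` (`XOm.x3`, `15 ∣ N`), so `r ^ 4 ≡ a₃ ^ 2 r`. `z = 3/5`: `X(6/5) = X(1/5) = a₃`: `al ^ 4 ≡ al`, so `al ^ 3 ≡ 1`.
(3) `al ≡ 1`: `AfM P N (γ ^ 2) (al ^ 2) (al r + r)` (`S_Afi` (4)), `al ^ 2 ≡ 1`, `al r + r ≡ 2 r ≡ 0`, `S_Afi` (5). (4) `al - 1 ∉ m`: `(al - 1) (al ^ 2 + al + 1) = al ^ 3 - 1 ∈ m`, so `al ^ 2 + al + 1 ∈ m`; `AfM P N (γ ^ 3) (al ^ 3) ((al ^ 2 + al + 1) r)`, `S_Afi` (5). -/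
def S_Af3 : Prop :=
  ∀ (n t : ℕ) [Ine n t] (P : Ideal ZZ), Ab2 P → ∀ N : ℕ, Odd N → 15 ∣ N →
    ∀ (γ : OO n t) (al r : Om), AfM P N γ al r → MP P (al ^ 3 - 1) ∧
      (MP P (al - 1) → (N : OO n t) ∣ γ ^ 2 - 1 ∨ (N : OO n t) ∣ γ ^ 2 + 1) ∧
      (¬ MP P (al - 1) → MP P (al ^ 2 + al + 1) ∧
        ((N : OO n t) ∣ γ ^ 3 - 1 ∨ (N : OO n t) ∣ γ ^ 3 + 1))

/-- MODULE `Aff` (130 lines; from `S_O6`, `S_R1`, `S_XOm`, `S_D2`, `S_Afi`). THE AFFINE MAPS. PROOF. (1) `XOm.hmg` for `α = γ`, `b = ⊤` (`Ideal.mul_top`; `Cop γ 15` from `Psi.cop`, `S_O6` (4)): `rO ⊤ (sp γ) ^ 2 * xO (sp γ) z = toO γ ^ 2 * (X(γ z) - X(γ/3))`, `X = xO ⊤`. `al = (rO ⊤ (sp γ) / toO γ) ^ 2`, `r = X(γ/3) = xO ⊤ (toC γ * (1 / 3))`. `xO (sp γ) z = τ (X(z))` (`Psi.xx`, `b = ⊤`), `≡ X(z)`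
(`VP.inertia`, `S_Afi` (1)). `UP P (toO γ)`: `toO γ * toO (cjO γ) = Nm γ` is odd (`Cop γ 2`). `UP P (rO ⊤ (sp γ))`: `S_D2` (last, `b = ⊤`, `a = sp γ`). `VP P r`: `S_Afi` (1), (3) for `z = 1/3` (`3 ∣ N`). (2) `w = wI 1 t`, `Nm w = n = 1`, so `w` is a unit (`w * cjO w = 1`), `sp w = ⊤`, `rO ⊤ ⊤ = 1` (`S_R1`: `io (rO ⊤ ⊤) = fr ⊤ / fr ⊤`, and `rO ⊤ ⊤ ≠ 0`).
`XOm.hmg` for `α = w`, `b = ⊤`: `X(z) = w ^ 2 (X(w z) - X(w/3))`, exactly. -/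
def S_Aff : Prop :=
  (∀ (n t : ℕ) [Ine n t] (P : Ideal ZZ), Ab2 P → ∀ τ ∈ P.inertia Gal(Om/ℚ), ∀ (N : ℕ) (γ : OO n t),
    Odd N → 15 ∣ N → γ ≠ 0 → Cop γ 2 → Psi τ N (sp γ) → ∃ al r : Om, AfM P N γ al r) ∧
  ∀ (t : ℕ) [Ine 1 t] (P : Ideal ZZ), Ab2 P → ∀ N : ℕ, Odd N → 15 ∣ N →
    ∃ r : Om, AfM P N (wI 1 t) ((toO (wI 1 t) ^ 2)⁻¹) r

/-! ## 4. Inertia at the primes above `2`: the class of `a` is trivial -/

/-- The class of `a` in the class group is trivial. -/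
def Prc {n t : ℕ} (a : Ideal (OO n t)) : Prop := ∃ γ : OO n t, γ ≠ 0 ∧ a = sp γ

theorem sp_mul' {n t : ℕ} (x y : OO n t) : sp (x * y) = sp x * sp y :=
  (Ideal.span_singleton_mul_span_singleton x y).symm

/-- Principal classes. -/
theorem prc_of {n t : ℕ} [SqN n t] {a a' : Ideal (OO n t)} {α α' : OO n t} (hα : α ≠ 0) (hα' : α' ≠ 0)
    (h : sp α * a = sp α' * a') (ha' : Prc a') : Prc a := by
  obtain ⟨γ, hγ, rfl⟩ := ha'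
  have h1 : α' * γ ∈ sp α * a := by
    rw [h, ← sp_mul']
    exact Ideal.mem_span_singleton_self _
  obtain ⟨x, hx, e⟩ := Ideal.mem_span_singleton_mul.1 h1
  refine ⟨x, ?_, ?_⟩
  · rintro rfl
    rw [mul_zero] at e
    exact mul_ne_zero hα' hγ e.symm
  · rw [← sp_mul', ← e, sp_mul'] at h
    exact (Ideal.span_singleton_mul_right_inj hα).1 h

/-- Powers. -/
theorem psi_pow {n t : ℕ} [SqN n t] {τ : Gal(Om/ℚ)} {N : ℕ} {a : Ideal (OO n t)} (h : Psi τ N a) (m : ℕ) :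
    Psi (τ ^ m) N (a ^ m) := by
  induction m with
  | zero =>
    rw [pow_zero, pow_zero, Ideal.one_eq_top]
    exact Eb.psi_top N
  | succ m ih =>
    rw [pow_succ, pow_succ]
    exact Eb.psi_mul ih h

/-- MODULE `Pri` (150 lines; from `S_O6`, `S_O7`, `S_E1`, `S_Dq`, `S_Aux`, `S_Aff`, `S_Af3`, `S_Afx`). PRINCIPAL CLASSES, `n ≠ 1`. PROOF. `S_Aux`: `Deg1 q₁ l₁`, `l₁` prime to `30 N`, `l₁ % 4 = 3`; `Deg1 q₂ l₂`, `l₂` prime to `30 N l₁`, `l₂ % 3 = 2`. `N' = N l₁ l₂` is odd, `15 ∣ N'`. `S_E1` (1): `Psi τ (2 * N') a'`; by `S_E1` (5) `Psi τ N' a'`, `Psi τ N a'`, so `Ray N a' a` (`S_E1` (2)):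
`sp α * a' = sp α' * a`, so `Prc a'` (`prc_of`): `a' = sp γ`. `Cop γ 2` (`Psi.cop` at the level `2 N'`, `S_O6` (2), (4)). `S_Aff`: `AfM P N' γ al r`. If `MP P (al - 1)`: `N'` divides `γ ^ 2 - 1` or `γ ^ 2 + 1` (`S_Af3`), `N' ∈ q₁` (`l₁ ∈ q₁`), the second is impossible (`S_Dq` (2)), so `(γ - 1) (γ + 1) ∈ q₁`, and `S_Afx` (2) for `q₁`. Otherwise
`N'` divides `γ ^ 3 - 1` or `γ ^ 3 + 1 = -((-γ) ^ 3 - 1)`, so `γ - 1 ∈ q₂` or `-γ - 1 ∈ q₂` (`S_Dq` (3)), and `S_Afx` (2) for `q₂`. In both cases `N' ∣ γ - 1` or `N' ∣ γ + 1`, so `N` does, and `Ray N (sp γ) ⊤` (elements `1` and `γ`, or `1` and `- γ`, `Ideal.span_singleton_neg`; `Cop γ N`), `Ray N a ⊤` (`S_O7` (2), (3)). -/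
def S_Pri : Prop :=
  ∀ (n t : ℕ) [Ine n t], n ≠ 1 → ∀ P : Ideal ZZ, Ab2 P → ∀ τ ∈ GK n t, τ ∈ P.inertia Gal(Om/ℚ) →
    ∀ (N : ℕ) (a : Ideal (OO n t)), Odd N → 15 ∣ N → Psi τ N a → Prc a → Ray N a (⊤ : Ideal (OO n t))

/-- MODULE `Eis` (100 lines). `ℤ[w]`, `w ^ 2 = w - 1` (`n = 1`, `t = 1`: `Ine.one`) IS A PRINCIPAL IDEAL DOMAIN. PROOF. Division with remainder: for `x`, `y ≠ 0` in `O` there is `q` with `Nm (x - q y) < Nm y`: `x * cjO y = A + B w`, `m = Nm y > 0`, let `q = p₁ + p₂ w` with `|2 (A - m p₁)| ≤ m`, `|2 (B - m p₂)| ≤ m`; `r = x - q y`, `r * cjO y = (A - m p₁) + (B - m p₂) w`,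
`Nm r * m = Nm (r * cjO y) = u ^ 2 + u v + v ^ 2 ≤ (3/4) m ^ 2`. Then a nonzero element `γ` of `a` of minimal norm generates `a`. -/
def S_Eis : Prop := ∀ (t : ℕ) [Ine 1 t] (a : Ideal (OO 1 t)), a ≠ ⊥ → Prc a

/-- MODULE `Pr3` (150 lines; from `S_O6`, `S_O7`, `S_E1`, `S_Dq`, `S_Aux`, `S_Afi`, `S_Aff`, `S_Af3`, `S_Afx`, `S_Eis`). THE CASE `n = 1`. PROOF. As in `S_Pri` with `q₁` only: `N' = N l₁`, `Psi τ (2 N') a'`, `a' = sp γ` (`S_Eis`), `Ray N a' a`, `AfM P N' γ al r`. Let `w = wI 1 t`, `W = toO w`, `W ^ 2 = W - 1` (`wO_sq`, `t = 1`), `W ^ 3 = -1`, `(W ^ 2)⁻¹ = - W`. `AfM P N' w (-W) r'` (`S_Aff` (2)). CLAIM: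
there is `j ∈ {0, 1, 2}` such that `γ w ^ j` has `AfM P N' (γ w ^ j) al' r''` with `MP P (al' - 1)`. If `MP P (al - 1)`: `j = 0`. Otherwise `al ^ 2 + al + 1 = (al + W) (al - W + 1) ∈ m` (`S_Af3`), so (`MP.mul_cases`) `al ≡ - W` or `al ≡ W ^ 2`. If `al ≡ W ^ 2`: `al (- W) ≡ - W ^ 3 = 1`, `j = 1`. If `al ≡ - W`: `al (- W) (- W) ≡ - W ^ 3 = 1`, `j = 2`
(`S_Afi` (4)). `S_Af3` for `γ w ^ j`: `N' ∣ (γ w ^ j) ^ 2 ∓ 1`, as in `S_Pri` (`S_Dq` (2), `S_Afx` (2) for `q₁`) `N' ∣ γ w ^ j ∓ 1`. `sp (γ * w ^ j) = sp γ` (`w` is a unit: `w * cjO w = Nm w = 1`), so `Ray N (sp γ) ⊤`, `Ray N a ⊤`. -/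
def S_Pr3 : Prop :=
  ∀ (t : ℕ) [Ine 1 t] (P : Ideal ZZ), Ab2 P → ∀ τ ∈ GK 1 t, τ ∈ P.inertia Gal(Om/ℚ) →
    ∀ (N : ℕ) (a : Ideal (OO 1 t)), Odd N → 15 ∣ N → Psi τ N a → Ray N a (⊤ : Ideal (OO 1 t))

/-- MODULE `Gwp` (180 lines; from `S_O3`, `S_O6`, `S_E1`, `S_Dq`, `S_Gwc`, `S_Pri`; `O` is Dedekind: `aO1`). ONE STEP. PROOF. `c = cjI a ≠ ⊥`, `κ = NI a ≠ 0`: `a * c = sp κ` (`S_O3` (3); `a ≠ ⊥`). `a ^ p = sp g₀`, so `c ^ p = cjI (a ^ p) = sp g`, `g = cjO g₀ ≠ 0` (`S_O3` (2), (4)). CLAIM: `g` satisfies the hypothesis of `S_Gwc` with `B = 2 N`. Let `Deg1 q l`, `l.Coprime (2 * N)`: `M = N l`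
is odd, `15 ∣ M`. `S_E1` (1): `Psi τ M a₁`, (5): `Psi τ N a₁`, (2): `Ray N a₁ a`, `sp α * a₁ = sp α' * a`. So `sp α * (a₁ * c) = sp α' * sp κ`, `Prc (a₁ * c)` (`prc_of`): `a₁ * c = sp ρ`; and `sp (α ^ p) * a₁ ^ p = sp (α' ^ p) * a ^ p`, so `Prc (a₁ ^ p)`. `Psi (τ ^ p) M (a₁ ^ p)` (`psi_pow`), `τ ^ p ∈ GK`, in the inertia group, so `Ray M (a₁ ^ p) ⊤` by `S_Pri`:
`sp β * a₁ ^ p = sp β'`, `β ≠ 0`, `Cop β M`, `M ∣ β - β'`. Hence `sp (β * ρ ^ p) = sp β * (a₁ * c) ^ p = sp β' * c ^ p = sp (β' * g)`, so `β ρ ^ p = e β' g` with a unit `e` (`Ideal.span_singleton_eq_span_singleton`), `Nm e = 1` (`unit_iff` in `DN/O/O10.lean`), `e = 1` or `e = -1`: `4 Nm e = (2 x + y) ^ 2 + (4 n - 1) y ^ 2 = 4`, `n ≥ 3` (`n` odd, `n ≠ 1`), so `y = 0`.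
`M ∈ q`, so `β' ≡ β` modulo `q`, `β (ρ ^ p ∓ g) ∈ q`, `β ∉ q` (`S_Dq` (5): `l` does not divide `Nm β`, `Cop β M`), so `g - ρ ^ p ∈ q` or `g + ρ ^ p ∈ q`. `S_Gwc`: `v ^ p = ± g`, so `sp v ^ p = sp g = c ^ p` and `sp v = c` (`O` is a Dedekind domain: `c ^ p ∣ v ^ p` implies `c ∣ v`, for instance `UniqueFactorizationMonoid`/`GCDMonoid.pow_dvd_pow_iff`, or by the
`normalizedFactors`), so `a * sp v = sp κ` and `Prc a` (`prc_of`). -/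
def S_Gwp : Prop :=
  ∀ (n t : ℕ) [Ine n t], n ≠ 1 → ∀ P : Ideal ZZ, Ab2 P → ∀ τ ∈ GK n t, τ ∈ P.inertia Gal(Om/ℚ) →
    ∀ (N : ℕ) (a : Ideal (OO n t)) (p : ℕ), Odd N → 15 ∣ N → Psi τ N a → p.Prime → Prc (a ^ p) → Prc a

/-- MODULE `Gw` (40 lines; from `S_O5`, `S_Gwp`). THE CLASS OF `a` IS TRIVIAL. PROOF. `S_O5`: `a ^ h = sp α`, `h > 0`. Strong induction on `h` for all `τ`, `a`: `h = 1` is clear; for `h > 1` let `p` be a prime divisor, `h = p m`: `(a ^ p) ^ m = sp α`, `Psi (τ ^ p) N (a ^ p)` (`psi_pow`), `τ ^ p ∈ GK` and in the inertia group (subgroups), `m < h`: `Prc (a ^ p)`, and `S_Gwp`. -/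
def S_Gw : Prop :=
  ∀ (n t : ℕ) [Ine n t], n ≠ 1 → ∀ P : Ideal ZZ, Ab2 P → ∀ τ ∈ GK n t, τ ∈ P.inertia Gal(Om/ℚ) →
    ∀ (N : ℕ) (a : Ideal (OO n t)), Odd N → 15 ∣ N → Psi τ N a → Prc a

/-- Inertia above `2` (first half of `S_E4`). -/
def S_E4a : Prop :=
  ∀ (n t : ℕ) [Ine n t] (P : Ideal ZZ), Ab2 P → ∀ τ ∈ GK n t, τ ∈ P.inertia Gal(Om/ℚ) →
    ∀ N : ℕ, Odd N → 15 ∣ N → Psi τ N (⊤ : Ideal (OO n t))

/-- **`S_E4a`** (complete). -/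
theorem sE4a (h1 : S_E1) (h2 : S_Pri) (h3 : S_Pr3) (h4 : S_Gw) : S_E4a := by
  intro n t _ P hP τ hτ hi N hN h15
  obtain ⟨e1, e2, e3, -, -⟩ := h1 n t N hN.pos h15
  obtain ⟨a, ha⟩ := e1 τ hτ
  refine e3 τ a ⊤ ha ?_
  by_cases hn : n = 1
  · subst hn
    exact h3 t P hP τ hτ hi N a hN h15 ha
  · exact h2 n t hn P hP τ hτ hi N a hN h15 ha (h4 n t hn P hP τ hτ hi N a hN h15 ha)

/-- MODULE `UnI` (200 lines; elementary number theory). THE INERTIA FIELD IS UNRAMIFIED. PROOF. Let `L ⊆ Om` be a finite Galois extension of `ℚ` with `x ∈ L` (normal closure of `ℚ(x)`), `G = Gal(L/ℚ)`, `𝔓 = P ∩ 𝓞 L = P.comap (iO L)` (`iO`: `FW/SpecG.lean`), `I ≤ G` its inertia group, `E` the fixed field of `I` in `L`. (1) `x ∈ E`: every `s ∈ I` is the restriction of an element of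
`P.inertia Gal(Om/ℚ)` (`Pool.Agent.FW.tIne` in `FW/G/Ine.lean` with `L = ⊥`, `L' = L`, or `tEIne` in `FW/E/Ine.lean`). (2) `|I| = e(𝔓 | p)` and, for `L/E` with the group `I`, all of whose elements are inertia elements, `|I| = e(𝔓 | 𝔓 ∩ E)` (`card_inertia_eq_ramificationIdxIn` in Mathlib `NumberTheory/RamificationInertia/Galois.lean`; also
`HilbertTheory.lean`). (3) Write `x = y / d`, `y, d ∈ 𝓞 E`, `d ∉ 𝔓` (`VP`, `MP` for `x ∈ E`: `VP.or_inv` in `DI/Val.lean` shows how to localize; `x ∈ E`, `MP P x`), `y ∈ 𝔓 ∩ E`, so `y ∈ 𝔓 ^ e`, `e = |I|`, while the exponent of `𝔓` in `p 𝓞 L` is exactly `e`: so `v_𝔓(x / p) ≥ 0` and `x / p` is in the valuation ring of `𝔓`: `VP P (x / p)`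
(`HeightOneSpectrum.exists_primeCompl_mul_eq_of_integer`, as in `DI/Val.lean`). Any other proof is welcome. -/
def S_UnI : Prop :=
  ∀ (P : Ideal ZZ) (p : ℕ), Npr P → p.Prime → MP P (p : Om) → ∀ x : Om,
    (∀ τ ∈ P.inertia Gal(Om/ℚ), τ x = x) → MP P x → TP P (p : Om) x

/-- `A1` is divisible by `2` (second half of the first part of `S_R2`). -/
def S_R2b : Prop :=
  ∀ (n t : ℕ) [Ine n t] (P : Ideal ZZ), Ab2 P → ∀ b : Ideal (OO n t), G15 b → TP P 2 (a1O b)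

/-- MODULE `R2b` (60 lines; from `S_R2a`, `S_E4a`, `S_UnI`). `A1` IS DIVISIBLE BY `2`. THEOREM `sR2b : S_R2a → S_E4a → S_UnI → S_R2b`. PROOF. `MP P (a1O b)` (`S_R2a`). Every `τ ∈ P.inertia` is in `GK n t`: copy from `DN/E/Tam.lean` (`τ wO` is a root of `X ^ 2 - t X + n`, so `wO` or `t - wO`; the second is impossible modulo `P`). `S_E4a` with `N = 15`: `Psi τ 15 ⊤`, so `τ (a1O b) = a1O (⊤ * b) = a1O b`
(`Ideal.top_mul`). `S_UnI` for `p = 2`. -/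
abbrev M_R2b : Prop := S_R2b

/-! ## 5. Inertia and the torsion prime to `Q`, `Q` not above `2` -/

/-- MODULE `E4b` (150 lines; from `S_O6`, `S_L3`, `S_L5`, `S_B1`, `S_B7`, `S_R1`, `S_Leg`). INERTIA AND THE TORSION PRIME TO `Q`. PROOF. If `z ∈ Lam b`: `toC v * z ∈ Lam b`, both values are `0` (`S_B1` (3)). Let `z ∉ Lam b`. `sp v ≠ ⊥`, prime to `15 N` (`Psi`). `N z ∈ Lam b` (`N ∈ δ`, `lam_prod`, `toC_nat`). `toC v * z ∈ Lam (δ * b)`, `∉ Lam b` (otherwise `z ∈ Lam (sp v * b)`, `lam_sp`, and `S_L5`).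
`S_L3` for `sp 2`, `b`: `T` with `toC u * T ∈ Lam b ↔ u ∈ sp 2`; `T' = toC (wI n t) * T`; `1, wI, 1 - wI ∉ sp 2` (`nat_dvd_iff`), `2 ∈ sp 2`: `T, T', T - T' ∉ Lam b`, `2 T, 2 T' ∈ Lam b`, and `toC v * T - T`, `toC v * T' - T' ∈ Lam b` (`2 ∣ v - 1`). Let `x(y) = leO b T T' y`. (1) `τ (x(z)) = x(toC v * z)`: `x(z) = (xO b z - xO b T)/(xO b T' - xO b T)` (by `io`: `S_R1`;
`wpC b y - wpC b y' = fr b ^ 2 (XC b y - XC b y')`, `fr b ≠ 0`; torsion points), so `τ (x(z)) = (xO c z - xO c T)/(xO c T' - xO c T)`, `c = sp v * b` (`Psi.xx`, `G15 c`; `N T, N T' ∈ Lam b` as `2 ∣ N`), `= ofC ((wpC c z - wpC c T)/(wpC c T' - wpC c T))` (`S_R1` for `c`), and `wpC c y = toC v ^ 2 * wpC b (toC v * y)` (`S_B7`), `wpC b (toC v * T) = wpC b T`, the same for `T'`.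
(2) `S_Leg`: `x(z) ∈ V`, so `MP Q (τ (x(z)) - x(z))` (`VP.inertia`), and `S_Leg` (second part) for `toC v * z`, `z`: `toC v * z - z` or `toC v * z + z` is in `Lam b`; `S_B1` (1), (2). -/
def S_E4b : Prop :=
  ∀ (n t : ℕ) [Ine n t] (Q : Ideal ZZ), Npr Q → ¬ MP Q 2 → ∀ τ ∈ GK n t, τ ∈ Q.inertia Gal(Om/ℚ) →
    ∀ (v : OO n t) (b δ : Ideal (OO n t)) (N : ℕ), 0 < N → 30 ∣ N → G15 b → δ ≠ ⊥ →
      sp (N : OO n t) ≤ δ → ¬ Abv Q δ → (2 : OO n t) ∣ v - 1 → Psi τ N (sp v) →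
      ∀ z ∈ Lam (δ * b), wpC b (toC v * z) = wpC b z

/-! ## 6. `S_E10` -/

/-- MODULE `PsK` (130 lines; from `S_O3`, `S_L5`, `S_L6`, `S_B1`, `S_B13`, `S_R1`, `S_E1`, `S_Iso`). `Psi` IMPLIES `τ ∈ GK`. PROOF. `τ wO` is a root of `X ^ 2 - t X + n` (`wO_sq`), so `wO` or `t - wO` (`mem_GK_iff`). Suppose `τ wO = t - wO`. `c` from `S_R1`, `io (c wO) = conj (wC) = t - wC`, so `σ = c * τ ∈ GK`. `S_E1` (1): `Psi σ N a'`. `σ (xO ⊤ z) = c (xO a z) = xO (cjI a) (conj z)` for `N z ∈ Lam ⊤` (`S_R1`; `a * ⊤ = a`;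
`G15 a`), so (i) `xO a' z = xO (cjI a) (conj z)`, and `a1O a' = a1O (cjI a)`, `a3O a' = a3O (cjI a)`. Let `A = cjI a` (`≠ ⊥`, prime to `15 N`: `S_O3`; `Eb.ne_cj`). `S_B13` (through `io`) for `A`, `a'`: `α, α'` with `sp α * A = sp α' * a'`; `μ = toC α / toC α'`; `S_Iso` (last ideal `⊤`): `XC a' z = XC A (μ z)`, `z ∈ Lam a' ↔ μ z ∈ Lam A`. So `XC A (conj z) = XC A (μ z)` if `N z ∈ Lam ⊤`
(`io`, `S_R1`; `conj z` is torsion). If moreover `z ∉ Lam ⊤` then `conj z ∉ Lam ⊤`, `conj z ∉ Lam A` (`S_L5`), `z ∉ Lam a'` (`S_L5`), `μ z ∉ Lam A`, so by `S_B1` (4): (ii) `conj z - μ z ∈ Lam A` or `conj z + μ z ∈ Lam A`. `z = 1/N`: `(1 - e μ)/N ∈ Lam A`, `e = ± 1`, so for `u ∈ O`: `toC u / N - e μ toC u / N ∈ Lam A`. `z = toC (wI)/N` (`∉ Lam ⊤`: `S_L6`), `t = 1`, `conj wC = 1 - wC`: by (ii)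
`toC (1 - w)/N - e' μ toC w / N ∈ Lam A`, so `toC (1 - w)/N - e'' toC w / N ∈ Lam A` with `e'' = e e' = ± 1`, and `N ∣ 1 - w - e'' w` (`S_L6` (1) for `A`, prime to `N`): `N ∣ 1` or `N ∣ 1 - 2 w`: impossible (`nat_dvd_iff`, `N ≥ 15`). -/
def S_PsK : Prop :=
  ∀ (n t : ℕ) [Ine n t] (τ : Gal(Om/ℚ)) (N : ℕ) (a : Ideal (OO n t)), 0 < N → 15 ∣ N →
    Psi τ N a → τ ∈ GK n t

/-- MODULE `SyA` (80 lines; from `S_O6`, `S_L5`; adapt `DK/E/SyA.lean`). SYSTEMS AND HALF SYSTEMS FOR `a b`. PROOF. `NI c ∣ N` and `PrI a N` give `a ⊔ c = ⊤` (`NI c ∈ c`). For `z ∈ Lam (c (a b))`: `1 = v + v'`, `v ∈ a`, `v' ∈ c`: `z = toC v z + toC v' z`, `toC v z ∈ Lam (c b)`, `toC v' z ∈ Lam (a b)`; if `u ∈ Lam (c b) ∩ Lam (a b)` then `u ∈ Lam b`. Also `NI c * u ∈ Lam b` for `u ∈ Lam (c b)`. -/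
def S_SyA : Prop :=
  ∀ (n t : ℕ) [SqN n t] (a b c : Ideal (OO n t)) (N : ℕ), a ≠ ⊥ → b ≠ ⊥ → c ≠ ⊥ → 0 < N → PrI a N →
    NI c ∣ N → a ⊔ c = ⊤ ∧ (∀ u ∈ Lam (c * b), (N : ℂ) * u ∈ Lam b) ∧
    (∀ R : Finset ℂ, IsSys c b R → IsSys c (a * b) R) ∧ ∀ S : Finset ℂ, IsHalf c b S → IsHalf c (a * b) S

/-- MODULE `HsA` (80 lines; adapt the first claim of `S_HsP` in `DT/D/HsP.lean` or `DK/D/HsP.lean`). SUMS OVER HALF SYSTEMS. PROOF. For `u ∈ S` there is a unique `u' ∈ S'` with `u - u' ∈ Lam b` or `u + u' ∈ Lam b`; this is a bijection `S → S'`, and `F u = F u'`. -/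
def S_HsA : Prop :=
  ∀ (n t : ℕ) [SqN n t] (m b : Ideal (OO n t)) (S S' : Finset ℂ), IsHalf m b S → IsHalf m b S' →
    ∀ F : ℂ → Om, (∀ z ∈ Lam (m * b), F (-z) = F z ∧ ∀ l ∈ Lam b, F (z + l) = F z) →
      ∑ u ∈ S, F u = ∑ u ∈ S', F u

/-- MODULE `E10v` (120 lines; from `S_L5`, `S_L6`, `S_O6`, `S_XOm`). THE FUNCTION `vO`. PROOF. (1) `1/3 ∉ Lam b` (`S_L6`, `PrI b 3`), a torsion point. First claims: `XOm.lat`; `XOm.cng` and `XOm.v3`; `z - (-1/3) ∈ Lam b`: `XOm.cng`, `XOm.neg`, `XOm.v3`; the last: `XOm.ksb` with `z' = 1/3`, `XOm.x3`, `XOm.v3`. (2) The four cases are the same for `b` and `a * b`: for `N y ∈ Lam b`: `y ∈ Lam b ↔ y ∈ Lam (a * b)`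
(`S_L5`, `lam_mono`; `PrI a N`: `Eb.psi_pri`); `N (z ± 1/3) ∈ Lam b` as `3 ∣ N`. Apply `τ` (`Psi.a3`, `Psi.xx`); in the last case divide by `a3O (a * b) ≠ 0` (`XOm.a3`, `G15 (a * b)`: `Eb.g15_mul`, `Eb.psi_g15`). -/
def S_E10v : Prop :=
  (∀ (n t : ℕ) [Ine n t] (b : Ideal (OO n t)), G15 b → ∀ z : ℂ, Tor n t z →
    (z ∈ Lam b → vO b z = 0) ∧ (z - 1 / 3 ∈ Lam b → vO b z = a3O b) ∧
    (z + 1 / 3 ∈ Lam b → vO b z = -a3O b) ∧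
    (z ∉ Lam b → z - 1 / 3 ∉ Lam b → z + 1 / 3 ∉ Lam b →
      vO b z * a3O b = -((xO b (z + 1 / 3) - xO b (z - 1 / 3)) * xO b z ^ 2))) ∧
  ∀ (n t : ℕ) [Ine n t] (τ : Gal(Om/ℚ)) (N : ℕ) (a : Ideal (OO n t)), 0 < N → 15 ∣ N → Psi τ N a →
    ∀ b : Ideal (OO n t), G15 b → ∀ z : ℂ, (N : ℂ) * z ∈ Lam b → τ (vO b z) = vO (a * b) z

/-- MODULE `Efr` (40 lines; from `S_Iso`). THE QUOTIENT OF THE FRAMINGS DEPENDS ONLY ON THE RAY CLASS. PROOF. `Ray N a a'`: `sp α * a = sp α' * a'`, `N ∣ α - α'`, `15 ∣ N`. `S_Iso`: `toC α' * fr (a' * b) = toC α * fr (a * b)`, for `b` and for `c`. So `fr (a * c)/fr (a * b) = fr (a' * c)/fr (a' * b)` (`toC α, toC α' ≠ 0`), and `rO` is `ofC` of it. -/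
def S_Efr : Prop :=
  ∀ (n t : ℕ) [SqN n t] (N : ℕ) (a a' : Ideal (OO n t)), 15 ∣ N → G15 a → G15 a' → Ray N a a' →
    ∀ b c : Ideal (OO n t), G15 b → G15 c → rO (a * b) (a * c) = rO (a' * b) (a' * c)

/-- MODULE `Ero` (150 lines; from `S_L3`, `S_L6`, `S_O6`, `S_B1`, `S_B9`, `S_R1`, `S_SyA`, `S_E10v`; compare `DK/E/Ero.lean`). THE QUOTIENT OF THE FRAMINGS, LARGE LEVEL. PROOF. (1) `c * b` is prime to `15`, `1/3, 1/5 ∉ Lam (c * b)` (`S_L6`). `S_B9` for `a = c`: `wdC (c * b) (1/3) = ∑ wdC b (1/3 + u) = fr b ^ 3 * ∑ WC b (1/3 + u)` and `wpC (c * b) (1/5) - wpC (c * b) (1/3) = ∑ (wpC b (1/5 + u) - wpC b (1/3 + u)) =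
fr b ^ 2 * ∑ (XC b (1/5 + u) - XC b (1/3 + u))`; `fr (c * b)` is the quotient (definition) and it is `≠ 0` (`S_B1`), so both sums are `≠ 0`. `io (rO b (c * b)) = fr (c * b) / fr b` (`S_R1`), `io (xO ..) = XC ..` for the torsion points `1/3 + u`, `1/5 + u`. (2) Choose `R` (`S_L3`), apply `τ` to (1): `N (1/3 + u), N (1/5 + u) ∈ Lam b` (`NI c ∣ N`: `S_SyA`; `15 ∣ N`), `Psi.xx`, `S_E10v` (2); `R` is a
system for `(c, a * b)` (`S_SyA`), (1) for `a * b`, `c`; `a * (c * b) = c * (a * b)`. -/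
def S_Ero : Prop :=
  (∀ (n t : ℕ) [Ine n t] (b c : Ideal (OO n t)), G15 b → G15 c → ∀ R : Finset ℂ, IsSys c b R →
    rO b (c * b) * ∑ u ∈ R, (xO b (1 / 5 + u) - xO b (1 / 3 + u)) = ∑ u ∈ R, vO b (1 / 3 + u) ∧
      ∑ u ∈ R, (xO b (1 / 5 + u) - xO b (1 / 3 + u)) ≠ 0) ∧
  ∀ (n t : ℕ) [Ine n t] (τ : Gal(Om/ℚ)) (N : ℕ) (a : Ideal (OO n t)), 0 < N → 15 ∣ N → Psi τ N a →
    ∀ b c : Ideal (OO n t), G15 b → G15 c → NI c ∣ N → τ (rO b (c * b)) = rO (a * b) (a * (c * b))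

/-- MODULE `E10r` (80 lines; from `S_O2`, `S_O7`, `S_R1`, `S_E1`, `S_PsK`, `S_Efr`, `S_Ero`; adapt `DK/E/E10r.lean`). THE QUOTIENT OF THE FRAMINGS. PROOF. `τ ∈ GK` (`S_PsK`). `M = N NI b NI c > 0`; `S_E1`: `Psi τ M a₁`, `Psi τ N a₁` (level), so `Ray N a₁ a`. `rO b c = rO b (c * b) / rO c (b * c)` (`io`, `S_R1`; `c * b = b * c`), so by `S_Ero` `τ (rO b c) = rO (a₁ * b) (a₁ * c)` (the same formula for `a₁ * b`, `a₁ * c`), and `S_Efr`. -/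
def S_E10r : Prop :=
  ∀ (n t : ℕ) [Ine n t] (τ : Gal(Om/ℚ)) (N : ℕ) (a : Ideal (OO n t)), 0 < N → 15 ∣ N → Psi τ N a →
    ∀ b c : Ideal (OO n t), G15 b → G15 c → τ (rO b c) = rO (a * b) (a * c)

/-- MODULE `E10g` (120 lines; from `S_O6`, `S_L5`, `S_B11`, `S_B14`, `S_R1`, `S_XOm`, `S_SyA`, `S_HsA`, `S_E10v`; compare `DT/E/E10g.lean`). THE FUNCTION `gO`. PROOF. (1) `io` of both sides: `S_R1` (`io (gO m b z) = gC m b z`), `S_B11`; the `u ∈ hs m b` are torsion points (`S_B14`: `u ∈ Lam (m * b)`). (2) Apply `τ`: `N u ∈ Lam b` (`S_SyA` for `c = m`), `S_E10v` (2), `Psi.xx`: the sum `∑ u ∈ hs m b, vO (a * b) z * (xO (a * b) z - xO (a * b) u)⁻¹`.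
`hs m b` is a half system for `(m, a * b)` (`S_SyA`), and so is `hs m (a * b)` (`S_B14`); the summand is even and periodic in `u` (`XOm.neg`, `XOm.per`), so (`S_HsA`) the sum is the one over `hs m (a * b)`, which is `gO m (a * b) z` by (1): `z ∉ Lam (m * (a * b))`, because `N z ∈ Lam (m * b)` and `z ∈ Lam (a * (m * b))` would give `z ∈ Lam (m * b)` (`S_L5`). -/
def S_E10g : Prop :=
  (∀ (n t : ℕ) [Ine n t] (m b : Ideal (OO n t)), m ≠ ⊥ → G15 b → PrI m 2 → PrI m 15 →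
    ∀ z : ℂ, Tor n t z → z ∉ Lam (m * b) →
      gO m b z = ∑ u ∈ hs m b, vO b z * (xO b z - xO b u)⁻¹) ∧
  ∀ (n t : ℕ) [Ine n t] (τ : Gal(Om/ℚ)) (N : ℕ) (a : Ideal (OO n t)), 0 < N → 15 ∣ N → Psi τ N a →
    ∀ m b : Ideal (OO n t), m ≠ ⊥ → G15 b → PrI m 2 → PrI m 15 → NI m ∣ N →
      ∀ z : ℂ, (N : ℂ) * z ∈ Lam b → z ∉ Lam (m * b) → τ (gO m b z) = gO m (a * b) z

/-- MODULE `E10T` (70 lines; from `S_B14`, `S_D8`, `S_SyA`; compare `DK/E/E10T.lean`, `DT/E/E10T.lean`). `Theta`. PROOF. `Theta m b z = ∏ u ∈ hs m b, (W2 b u * ((xO b z - xO b u) ^ 3)⁻¹) ^ 3`, `W2 b u = 4 * xO b u ^ 3 + (a1O b * xO b u + a3O b) ^ 2`. `N u ∈ Lam b` (`S_B14`, `S_SyA` for `c = m`). Apply `τ` (`Psi`): the same product for `a * b` over `hs m b`, a half system for `(m, a * b)` (`S_SyA`), and `S_D8` (1) for `a * b`. -/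
def S_E10T : Prop :=
  ∀ (n t : ℕ) [Ine n t] (τ : Gal(Om/ℚ)) (N : ℕ) (a : Ideal (OO n t)), 0 < N → 15 ∣ N → Psi τ N a →
    ∀ m b : Ideal (OO n t), m ≠ ⊥ → G15 b → PrI m 2 → PrI m 15 → NI m ∣ N →
      ∀ z : ℂ, (N : ℂ) * z ∈ Lam b → τ (Theta m b z) = Theta m (a * b) z

/-- **`S_E10`** (complete). -/
theorem sE10 (h1 : S_E10v) (h2 : S_E10r) (h3 : S_E10g) (h4 : S_E10T) : S_E10 := by
  intro n t _ τ N a hN h15 h
  refine ⟨fun b hb => ⟨fun z hz => h1.2 n t τ N a hN h15 h b hb z hz,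
    fun c hc => h2 n t τ N a hN h15 h b c hb hc⟩, fun m b hm hb h2' h15' hmN z hz => ⟨fun hz' => ?_, ?_⟩⟩
  · exact h3.2 n t τ N a hN h15 h m b hm hb h2' h15' hmN z hz hz'
  · exact h4 n t τ N a hN h15 h m b hm hb h2' h15' hmN z hz

end Pool.Agent.DN
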