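import Pool.Agent.Lib.DN.E.SpecA

set_option autoImplicit false

/-!
# Theorem DN, part E, module Tam: tame ramification at `2`
-/

open scoped Pointwise nonZeroDivisors

noncomputable section

namespace Pool.Agent.DN.Eb

open Pool.Agent.MuZ Pool.Agent.FW NumberField IsDedekindDomain Pool.Agent.DN
open Pool.Agent.DI (io ofC io_inj exists_io io_ofC ofC_io VP MP UP TP ex sqr sqr_sq kap)

private theorem Tam_GK {n t : ℕ} [Ine n t] {P : Ideal ZZ} (hP : Npr P) (h2 : MP P 2)
    {τ : Gal(Om/ℚ)} (hτ : τ ∈ P.inertia Gal(Om/ℚ)) : τ ∈ GK n t := by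
  have : P.IsPrime := hP.1
  rw [mem_GK_iff]
  have hv : VP P (wO n t) := by
    have h := toO_VP (P := P) (wI n t)
    rwa [toO_wI] at h
  have h := DI.VP.inertia hτ hv
  have hsq := wO_sq (n := n) (t := t)
  have h3 : (τ (wO n t) - wO n t) * (τ (wO n t) - (t - wO n t)) = 0 := by
    have h4 := congrArg τ hsq
    simp only [map_sub, map_mul, map_pow, map_natCast] at h4
    linear_combination h4 - hsq
  rcases mul_eq_zero.1 h3 with h5 | h5
  · exact sub_eq_zero.1 h5
  · exfalso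
    have h6 : τ (wO n t) = t - wO n t := sub_eq_zero.1 h5
    have ht : (t : Om) = 1 := by
      rw [Ine.one (n := n) (t := t)]
      exact Nat.cast_one
    rw [h6] at h
    have h7 : MP P ((t : Om) - wO n t - wO n t + 2 * wO n t) := DI.MP.add h (DI.MP.mul_right h2 hv)
    have h8 : (t : Om) - wO n t - wO n t + 2 * wO n t = 1 := by
      linear_combination ht
    rw [h8] at h7
    exact DI.MP.one_not h7

theorem tTam : S_E1 → S_E4a → S_O4 → S_O6 → S_HPM → S_Tam := by
  intro h1 h4 hO4 hO6 hPM n t _ f hf h15 P hP τ hτ x hx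
  have hf0 : 0 < f := hf.pos
  have h2f : 0 < 2 * f := Nat.mul_pos two_pos hf0
  have h15' : 15 ∣ 2 * f := h15.mul_left 2
  have hG : τ ∈ GK n t := Tam_GK hP.1 hP.2 hτ
  have hPf : Psi τ f (⊤ : Ideal (OO n t)) := h4 n t P hP τ hG hτ f hf h15
  obtain ⟨a, ha⟩ := (h1 n t (2 * f) h2f h15').1 τ hG
  have haf : Psi τ f a := psi_level ha (dvd_mul_left f 2)
  obtain ⟨α, α', hα0, hα'0, hcα, -, hd, he⟩ := (h1 n t f hf0 h15).2.1 τ a ⊤ haf hPf
  rw [Ideal.mul_top] at he
  have hm : α' ∈ sp α * a := by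
    rw [he]
    exact Ideal.mem_span_singleton_self α'
  obtain ⟨y, -, hy⟩ := Ideal.mem_span_singleton_mul.1 hm
  have hay : a = sp y := by
    rw [← hy] at he
    have h5 : sp α * a = sp α * sp y := by
      rw [he]
      exact (Ideal.span_singleton_mul_span_singleton α y).symm
    exact (Ideal.span_singleton_mul_right_inj hα0).1 h5
  have hy0 : y ≠ 0 := by
    rintro rfl
    exact hα'0 (by rw [← hy, mul_zero])
  have hfy : (f : OO n t) ∣ y - 1 := by
    obtain ⟨β, -, hβ⟩ := cop_inv hcα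
    have h6 : y - 1 = -β * (α - α') - (α * β - 1) * (y - 1) := by
      rw [← hy]
      ring
    rw [h6]
    exact dvd_sub (hd.mul_left _) (hβ.mul_right _)
  have hfy3 : (f : OO n t) ∣ y ^ 3 - 1 := by
    have h7 : y ^ 3 - 1 = (y - 1) * (y ^ 2 + y + 1) := by ring
    rw [h7]
    exact hfy.mul_right _
  have hcy : Cop y 2 := by
    refine ((hO6 n t).2.2.2.1 2 y two_pos).1 ?_
    rw [← hay]
    exact pri_dvd (psi_pri ha) (dvd_mul_right 2 f)
  have h2y3 : (2 : OO n t) ∣ y ^ 3 - 1 := (hO4 n t).2.2.2.2.2.1 y hcy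
  have hcop : IsCoprime (2 : OO n t) (f : OO n t) := by
    obtain ⟨j, hj⟩ := hf
    refine ⟨-(j : OO n t), 1, ?_⟩
    rw [hj]
    push_cast
    ring
  have h2fy : ((2 * f : ℕ) : OO n t) ∣ y ^ 3 - 1 := by
    push_cast
    exact hcop.mul_dvd h2y3 hfy3
  have hray : Ray (2 * f) (a * (a * a)) (⊤ : Ideal (OO n t)) := by
    have h8 : ((2 * f : ℕ) : OO n t) ∣ 1 - y ^ 3 := by
      rw [← neg_sub]
      exact (dvd_neg).2 h2fy
    refine ⟨1, y ^ 3, one_ne_zero, pow_ne_zero 3 hy0, cop_one _, cop_congr h8 (cop_one _), h8, ?_⟩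
    rw [Ideal.mul_top, hay, Ideal.span_singleton_mul_span_singleton,
      Ideal.span_singleton_mul_span_singleton, Ideal.span_singleton_mul_span_singleton]
    congr 2
    ring
  have hpsi := (h1 n t (2 * f) h2f h15').2.2.1 (τ * (τ * τ)) _ ⊤ (psi_mul ha (psi_mul ha ha)) hray
  have hgk : τ * (τ * τ) ∈ GK n t := mul_mem hG (mul_mem hG hG)
  have h9 := hx (τ * (τ * τ)) hgk ⊤ hpsi (hPM n t f hf0).1.top
  rwa [AlgEquiv.mul_apply, AlgEquiv.mul_apply] at h9

end Pool.Agent.DN.Eb
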