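import Pool.Agent.Lib.DN.B.All
import Pool.Agent.Lib.DN.O.All
import Pool.Agent.Lib.DN.E.Ab
import Pool.Agent.Lib.DN.E.AbB
import Pool.Agent.Lib.DN.E.Cj
import Pool.Agent.Lib.DN.E.Cyc
import Pool.Agent.Lib.DN.E.F0
import Pool.Agent.Lib.DN.E.Fix
import Pool.Agent.Lib.DN.E.Fr
import Pool.Agent.Lib.DN.E.Gn
import Pool.Agent.Lib.DN.E.H2M
import Pool.Agent.Lib.DN.E.HPM
import Pool.Agent.Lib.DN.E.Op
import Pool.Agent.Lib.DN.E.Ray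
import Pool.Agent.Lib.DN.E.SpecA
import Pool.Agent.Lib.DN.E.Srj
import Pool.Agent.Lib.DN.E.Tam
import Pool.Agent.Lib.DN.E.Uq

/-!
# Theorem DN, part E, second half: assembly (author helper28)

The statements without hypotheses `aF0`, `aAbB`, `aFr`, `aGn`, `aH2M`, `aHPM`; `S_E1`, `S_E6`, `S_E7`, `S_E8`,
`S_E9` from the statements `S_B1`, `S_B7`, `S_B13`, `S_R1`, `S_Ex`, `S_FN`, `S_E2`, `S_E4a`.
-/

set_option autoImplicit false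

noncomputable section

namespace Pool.Agent.DN.Eb

open Pool.Agent.DN

theorem aF0 : S_F0 := tF0
theorem aAbB : S_AbB := tAbB
theorem aFr : S_Fr := tFr aF0 aAbB
theorem aGn : S_Gn := tGn
theorem aH2M : S_H2M := tH2M aO2 aO3 aO6 aO7 aO9
theorem aHPM : S_HPM := tHPM aO2 aO3 aO6 aO7 aO9 aH2M

/-- `S_E1`. -/
theorem bE1 (hB1 : S_B1) (hB7 : S_B7) (hB13 : S_B13) (hR1 : S_R1) (hEx : S_Ex) : S_E1 :=
  sE1 hEx (tUq hB1 hB7 hB13 aL5 aO6 hR1) (tRay hB1 hB7 aO7)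

/-- `S_E1` from `S_R1` and `S_Ex`. -/
theorem cE1 (hR1 : S_R1) (hEx : S_Ex) : S_E1 := bE1 aB1 aB7 aB13 hR1 hEx

theorem bOp (hFN : S_FN) : S_Op := tOp hFN

/-- `S_E6`. -/
theorem bE6 (hE1 : S_E1) (hE2 : S_E2) (hFN : S_FN) : S_E6 :=
  sE6 hE1 hE2 aO2 aO9 (bOp hFN) aGn

/-- `S_E7`. -/
theorem bE7 (hE1 : S_E1) (hE2 : S_E2) : S_E7 := sE7 hE1 hE2 aO7 aO8 aFr

/-- `S_E8`. -/
theorem bE8 (hE1 : S_E1) (hFN : S_FN) : S_E8 := sE8 hE1 aO7 (bOp hFN)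

theorem bAb (hE1 : S_E1) : S_Ab := tAb hE1 aO7

theorem bCj (hE1 : S_E1) (hR1 : S_R1) : S_Cj := tCj (bAb hE1) aL2 aO3 hR1

theorem bTam (hE1 : S_E1) (hE4a : S_E4a) : S_Tam := tTam hE1 hE4a aO4 aO6 aHPM

/-- `S_E9`. -/
theorem bE9 (hE1 : S_E1) (hE4a : S_E4a) (hR1 : S_R1) : S_E9 :=
  sE9 (bCj hE1 hR1) aH2M aHPM (bTam hE1 hE4a)

end Pool.Agent.DN.Eb
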