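import Pool.Agent.Lib.DN.E.SpecA

/-!
# Theorem DN, part E: sums over half systems (module `HsA`; author helper9, adapted from `DT/D/HsP.lean`)
-/

set_option autoImplicit false

open scoped Pointwise

noncomputable section

namespace Pool.Agent.DN

open Pool.Agent.MuZ Pool.Agent.FW NumberField

variable {n t : ℕ}

/-- congruence modulo sign and lattice -/
private def HsA_eq (b : Ideal (OO n t)) (z z' : ℂ) : Prop := z - z' ∈ Lam b ∨ z + z' ∈ Lam b

private theorem HsA_symm {b : Ideal (OO n t)} {z z' : ℂ} (h : HsA_eq b z z') : HsA_eq b z' z := by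
  rcases h with h | h
  · left
    rw [← neg_sub]
    exact lam_neg h
  · right
    rwa [add_comm]

private theorem HsA_trans {b : Ideal (OO n t)} {z z' z'' : ℂ} (h : HsA_eq b z z')
    (h' : HsA_eq b z' z'') : HsA_eq b z z'' := by
  rcases h with h | h <;> rcases h' with h' | h'
  · left
    have e : z - z'' = (z - z') + (z' - z'') := by ring
    rw [e]
    exact lam_add h h'
  · right
    have e : z + z'' = (z - z') + (z' + z'') := by ring
    rw [e]
    exact lam_add h h'
  · right
    have e : z + z'' = (z + z') - (z' - z'') := by ring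
    rw [e]
    exact lam_sub h h'
  · left
    have e : z - z'' = (z + z') - (z' + z'') := by ring
    rw [e]
    exact lam_sub h h'

/-- Sums (and products) over half systems do not depend on the half system. -/
theorem HsA_both (m b : Ideal (OO n t)) (S S' : Finset ℂ) (hS : IsHalf m b S)
    (hS' : IsHalf m b S') (F : ℂ → Om)
    (hF : ∀ z ∈ Lam (m * b), F (-z) = F z ∧ ∀ l ∈ Lam b, F (z + l) = F z) :
    ∏ u ∈ S, F u = ∏ u ∈ S', F u ∧ ∑ u ∈ S, F u = ∑ u ∈ S', F u := by
  classical
  have hex : ∀ u ∈ S, ∃ u' ∈ S', HsA_eq b u u' := fun u hu =>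
    hS'.ex u (hS.mem u hu).1 (hS.mem u hu).2
  choose! e he1 he2 using hex
  have h1 : ∀ u (_ : u ∈ S) u' (_ : u' ∈ S), e u = e u' → u = u' := by
    intro u hu u' hu' h
    apply hS.uni u hu u' hu'
    have h1 := he2 u hu
    have h2 := he2 u' hu'
    rw [← h] at h2
    exact HsA_trans h1 (HsA_symm h2)
  have h2 : ∀ u' ∈ S', ∃ u, ∃ _ : u ∈ S, e u = u' := by
    intro u' hu'
    obtain ⟨u, hu, h⟩ := hS.ex u' (hS'.mem u' hu').1 (hS'.mem u' hu').2
    refine ⟨u, hu, ?_⟩
    apply hS'.uni (e u) (he1 u hu) u' hu'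
    exact HsA_symm (HsA_trans h (he2 u hu))
  have h3 : ∀ u ∈ S, F u = F (e u) := by
    intro u hu
    have hm := (hS'.mem (e u) (he1 u hu)).1
    rcases he2 u hu with h | h
    · have h1 := (hF (e u) hm).2 _ h
      rwa [add_sub_cancel] at h1
    · have h1 := (hF (-e u) (lam_neg hm)).2 _ h
      have e1 : -e u + (u + e u) = u := by ring
      rw [e1] at h1
      rw [h1]
      exact (hF (e u) hm).1
  exact ⟨Finset.prod_bij (fun u _ => e u) he1 h1 h2 h3, Finset.sum_bij (fun u _ => e u) he1 h1 h2 h3⟩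

/-- **Sums over half systems.** -/
theorem sHsA : S_HsA := fun _ _ _ m b S S' hS hS' F hF => (HsA_both m b S S' hS hS' F hF).2

end Pool.Agent.DN
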