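import Pool.Agent.Lib.DN.E.SpecA
import Pool.Agent.Lib.DN.Ded

/-!
# Theorem DN, module SyA: systems and half systems for `a b`
-/

set_option autoImplicit false

open scoped Pointwise nonZeroDivisors

noncomputable section

namespace Pool.Agent.DN

open Pool.Agent.MuZ Pool.Agent.FW NumberField IsDedekindDomain

variable {n t : ℕ}

/-- The norm of an ideal is in the ideal. -/
private theorem SyA_mem [SqN n t] (c : Ideal (OO n t)) : ((NI c : ℕ) : OO n t) ∈ c := Ideal.absNorm_mem c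

private theorem SyA_up [SqN n t] {a b c : Ideal (OO n t)} {u : ℂ} (hu : u ∈ Lam (c * b)) :
    u ∈ Lam (c * (a * b)) :=
  lam_prod.2 fun w hw => lam_mono (lam_prod.1 hu w hw)

/-- The decomposition `z = v z + v' z`. -/
private theorem SyA_dec [SqN n t] {a b c : Ideal (OO n t)} (h : a ⊔ c = ⊤) :
    (∀ z ∈ Lam (c * (a * b)), ∃ z0 ∈ Lam (c * b), z - z0 ∈ Lam (a * b)) ∧
      ∀ u ∈ Lam (c * b), u ∈ Lam (a * b) → u ∈ Lam b := by
  have h1 : (1 : OO n t) ∈ a ⊔ c := by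
    rw [h]
    exact Submodule.mem_top
  obtain ⟨v, hv, v', hv', hvv⟩ := Submodule.mem_sup.1 h1
  have h2 : ∀ z : ℂ, z = toC v * z + toC v' * z := by
    intro z
    rw [← add_mul, ← toC_add, hvv, toC_one, one_mul]
  refine ⟨fun z hz => ⟨toC v * z, lam_prod.2 fun w hw => ?_, ?_⟩, fun u hu1 hu2 => ?_⟩
  · have h3 := lam_prod.1 (lam_prod.1 hz w hw) v hv
    rw [show toC w * (toC v * z) = toC v * (toC w * z) by ring]
    exact h3
  · have h3 : z - toC v * z = toC v' * z := by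
      nth_rewrite 1 [h2 z]
      ring
    rw [h3]
    exact lam_prod.1 hz v' hv'
  · rw [h2 u]
    exact lam_add (lam_prod.1 hu2 v hv) (lam_prod.1 hu1 v' hv')

theorem sSyA (_h6 : S_O6) (_h5 : S_L5) : S_SyA := by
  intro n t _ a b c N _ _ _ _ haN hcN
  have hN : ((N : ℕ) : OO n t) ∈ c := by
    obtain ⟨m, hm⟩ := hcN
    rw [hm, Nat.cast_mul]
    exact c.mul_mem_right _ (SyA_mem c)
  have hac : a ⊔ c = ⊤ := by
    have h1 : a ⊔ Ideal.span {(N : OO n t)} = ⊤ := haN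
    have h2 : a ⊔ Ideal.span {(N : OO n t)} ≤ a ⊔ c :=
      sup_le_sup_left ((Ideal.span_singleton_le_iff_mem c).2 hN) a
    rw [h1] at h2
    exact top_le_iff.1 h2
  obtain ⟨hd1, hd2⟩ := SyA_dec (b := b) hac
  refine ⟨hac, fun u hu => ?_, fun R hR => ⟨?_, ?_, ?_⟩, fun S hS => ⟨?_, ?_, ?_⟩⟩
  · have := lam_prod.1 hu _ hN
    rwa [toC_nat] at this
  · intro u hu
    exact SyA_up (hR.mem u hu)
  · intro z hz
    obtain ⟨z0, hz0, hz1⟩ := hd1 z hz
    obtain ⟨u, hu, hu1⟩ := hR.ex z0 hz0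
    refine ⟨u, hu, ?_⟩
    rw [show z - u = (z - z0) + (z0 - u) by ring]
    exact lam_add hz1 (lam_mono hu1)
  · intro u hu u' hu' h
    exact hR.uni u hu u' hu' (hd2 _ (lam_sub (hR.mem u hu) (hR.mem u' hu')) h)
  · intro u hu
    obtain ⟨h1, h2⟩ := hS.mem u hu
    exact ⟨SyA_up h1, fun h => h2 (hd2 u h1 h)⟩
  · intro z hz hz'
    obtain ⟨z0, hz0, hz1⟩ := hd1 z hz
    have hz2 : z0 ∉ Lam b := by
      intro h
      apply hz'
      rw [show z = (z - z0) + z0 by ring]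
      exact lam_add hz1 (lam_mono h)
    obtain ⟨u, hu, hu1⟩ := hS.ex z0 hz0 hz2
    refine ⟨u, hu, ?_⟩
    rcases hu1 with hu1 | hu1
    · left
      rw [show z - u = (z - z0) + (z0 - u) by ring]
      exact lam_add hz1 (lam_mono hu1)
    · right
      rw [show z + u = (z - z0) + (z0 + u) by ring]
      exact lam_add hz1 (lam_mono hu1)
  · intro u hu u' hu' h
    refine hS.uni u hu u' hu' ?_
    rcases h with h | h
    · exact Or.inl (hd2 _ (lam_sub (hS.mem u hu).1 (hS.mem u' hu').1) h)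
    · exact Or.inr (hd2 _ (lam_add (hS.mem u hu).1 (hS.mem u' hu').1) h)

end Pool.Agent.DN
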