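import Pool.Agent.Lib.DN.E.SpecA

/-!
# Theorem DN, part E: module `Dq` (degree one primes)

`O / q` is isomorphic to `ZMod l`; the five statements follow by computations in `ZMod l`. No hypotheses.
-/

set_option autoImplicit false

noncomputable section

namespace Pool.Agent.DN

open Pool.Agent.MuZ Pool.Agent.FW NumberField

/-- The residue map `O → ZMod l` with kernel `q`. -/
private theorem Dq_map {n t : ℕ} (q : Ideal (OO n t)) (l : ℕ) (h : Deg1 q l) :
    ∃ f : OO n t →+* ZMod l, ∀ v : OO n t, v ∈ q ↔ f v = 0 := by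
  obtain ⟨-, -, hl, hN⟩ := h
  have hc : Nat.card (OO n t ⧸ q) = l := hN
  have hfin : Finite (OO n t ⧸ q) := Nat.finite_of_card_ne_zero (by rw [hc]; exact hl.ne_zero)
  have hft : Fintype (OO n t ⧸ q) := Fintype.ofFinite _
  have hF : Fintype.card (OO n t ⧸ q) = l := by rw [← Nat.card_eq_fintype_card, hc]
  let e : ZMod l ≃+* (OO n t ⧸ q) := ZMod.ringEquivOfPrime (OO n t ⧸ q) hl hF
  refine ⟨(e.symm : (OO n t ⧸ q) →+* ZMod l).comp (Ideal.Quotient.mk q), fun v => ?_⟩
  rw [← Ideal.Quotient.eq_zero_iff_mem]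
  change _ ↔ e.symm (Ideal.Quotient.mk q v) = 0
  exact (map_eq_zero_iff e.symm e.symm.injective).symm

theorem sDq : S_Dq := by
  intro n t _ q l hd
  obtain ⟨f, hf⟩ := Dq_map q l hd
  obtain ⟨hq, -, hl, -⟩ := hd
  have hlf : Fact l.Prime := ⟨hl⟩
  have h1 : ∀ m : ℤ, (m : OO n t) ∈ q ↔ (l : ℤ) ∣ m := by
    intro m
    rw [hf, map_intCast]
    exact ZMod.intCast_zmod_eq_zero_iff_dvd m l
  refine ⟨h1, ?_, ?_, ?_, ?_⟩
  · intro h4 x hx
    rw [hf, map_add, map_pow, map_one] at hx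
    have h2 : f x ^ 2 = -1 := eq_neg_of_add_eq_zero_left hx
    exact ZMod.mod_four_ne_three_of_sq_eq_neg_one h2 h4
  · intro h3 x hx
    rw [hf, map_sub, map_pow, map_one] at hx
    rw [hf, map_sub, map_one]
    have h2 : f x ^ 3 = 1 := sub_eq_zero.1 hx
    have h0 : f x ≠ 0 := by
      intro h
      rw [h] at h2
      simp at h2
    have h5 : f x ^ (l - 1) = 1 := ZMod.pow_card_sub_one_eq_one h0
    have h6 : l - 1 = 3 * (l / 3) + 1 := by omega
    rw [h6, pow_add, pow_mul, h2, one_pow, one_mul, pow_one] at h5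
    rw [h5, sub_self]
  · intro v
    rw [hf, map_sub, map_pow, ZMod.pow_card, sub_self]
  · intro β hβ hm
    apply hβ
    rw [← h1, ← mul_cjO]
    exact Ideal.mul_mem_right _ _ hm

end Pool.Agent.DN
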