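import Pool.Agent.Lib.DN.E.SpecA

/-!
# Theorem DN, part E, module `E10g`: the Galois action on the smoothed function `gO`

Author helper27.
-/

set_option autoImplicit false

open scoped Pointwise nonZeroDivisors

noncomputable section

namespace Pool.Agent.DN

open Pool.Agent.MuZ Pool.Agent.FW NumberField IsDedekindDomain
open Pool.Agent.DI (io ofC io_inj exists_io io_ofC ofC_io VP MP UP TP ex)

private theorem E10g_sum (hB11 : S_B11) (hB14 : S_B14) (hR1 : S_R1) {n t : ℕ} [Ine n t]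
    {m b : Ideal (OO n t)} (hm : m ≠ ⊥) (hb : G15 b) (hm2 : PrI m 2) (hm15 : PrI m 15) {z : ℂ}
    (hT : Tor n t z) (hz : z ∉ Lam (m * b)) :
    gO m b z = ∑ u ∈ hs m b, vO b z * (xO b z - xO b u)⁻¹ := by
  obtain ⟨r1, r2⟩ := hR1.1 n t
  obtain ⟨-, -, r3, -⟩ := r1 b hb
  have hh := (hB14 n t m b hm hb.ne hm2).1
  have hmb : m * b ≠ ⊥ := mul_ne_zero hm hb.ne
  apply io_inj
  rw [r2 m b hm hb hm2 hm15 z hT hz, hB11 n t m b hm hb hm2 hm15 z hz, map_sum]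
  refine Finset.sum_congr rfl fun u hu => ?_
  have hu1 : Tor n t u := tor_lam hmb (hh.mem u hu).1
  rw [map_mul, map_inv₀, map_sub, (r3 z hT).1, (r3 z hT).2, (r3 u hu1).1, div_eq_mul_inv]

/-- The Galois action on `gO`. -/
theorem sE10g (hO6 : S_O6) (hL5 : S_L5) (hB11 : S_B11) (hB14 : S_B14) (hR1 : S_R1)
    (hXOm : S_XOm) (hSyA : S_SyA) (hHsA : S_HsA) (hE10v : S_E10v) : S_E10g := by
  refine ⟨fun n t _ m b hm hb hm2 hm15 z hT hz => E10g_sum hB11 hB14 hR1 hm hb hm2 hm15 hT hz, ?_⟩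
  intro n t _ τ N a hN h15 hP m b hm hb hm2 hm15 hmN z hz hzm
  have haN : PrI a N := Eb.psi_pri hP
  have hab : G15 (a * b) := Eb.g15_mul (Eb.psi_g15 hP) hb
  have hmb : m * b ≠ ⊥ := mul_ne_zero hm hb.ne
  have hT : Tor n t z := (tor_iff hb.ne).2 ⟨N, hN, hz⟩
  obtain ⟨-, hNu, -, hHalf⟩ := hSyA n t a b m N hP.ne hb.ne hm hN haN hmN
  have hh := (hB14 n t m b hm hb.ne hm2).1
  have hh' := (hB14 n t m (a * b) hm hab.ne hm2).1
  have hzm' : z ∉ Lam (m * (a * b)) := by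
    intro h
    refine hzm ((hL5 n t a (m * b) N hP.ne hmb hN haN).1 z (lam_mono hz) ?_)
    rw [mul_left_comm]
    exact h
  rw [E10g_sum hB11 hB14 hR1 hm hb hm2 hm15 hT hzm,
    E10g_sum hB11 hB14 hR1 hm hab hm2 hm15 hT hzm', map_sum]
  have hv : τ (vO b z) = vO (a * b) z := hE10v.2 n t τ N a hN h15 hP b hb z hz
  have hz1 : τ (xO b z) = xO (a * b) z := hP.xx b hb.ne hb.cop z hz
  have e1 : ∑ u ∈ hs m b, τ (vO b z * (xO b z - xO b u)⁻¹) =
      ∑ u ∈ hs m b, vO (a * b) z * (xO (a * b) z - xO (a * b) u)⁻¹ := by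
    refine Finset.sum_congr rfl fun u hu => ?_
    have hu1 : τ (xO b u) = xO (a * b) u := hP.xx b hb.ne hb.cop u (hNu u (hh.mem u hu).1)
    rw [map_mul, map_inv₀, map_sub, hu1, hz1, hv]
  rw [e1]
  have hX := hXOm n t (a * b) hab
  refine hHsA n t m (a * b) (hs m b) (hs m (a * b)) (hHalf _ hh) hh'
    (fun u => vO (a * b) z * (xO (a * b) z - xO (a * b) u)⁻¹) ?_
  intro y hy
  have hTy : Tor n t y := tor_lam (mul_ne_zero hm hab.ne) hy
  refine ⟨?_, fun l hl => ?_⟩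
  · simp only [(hX.neg y hTy).1]
  · simp only [(hX.per y l hl).1]

end Pool.Agent.DN
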