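import Pool.Agent.Lib.DN.E.SpecA

/-!
# Theorem DN, part E, module `E10r`: the Galois action on the quotient of the framings
-/

set_option autoImplicit false

open scoped Pointwise nonZeroDivisors

noncomputable section

namespace Pool.Agent.DN

open Pool.Agent.MuZ Pool.Agent.FW NumberField IsDedekindDomain
open Pool.Agent.DI (io ofC io_inj exists_io io_ofC ofC_io VP MP UP TP ex)

private theorem E10r_quot (hR1 : S_R1) {n t : ℕ} [Ine n t] {b c d : Ideal (OO n t)} (hb : G15 b)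
    (hc : G15 c) (hd : G15 d) : rO b c = rO b d / rO c d := by
  obtain ⟨r1, -⟩ := hR1.1 n t
  obtain ⟨-, -, -, r4⟩ := r1 b hb
  obtain ⟨-, -, -, r4'⟩ := r1 c hc
  obtain ⟨h1, h2⟩ := r4 c hc
  obtain ⟨h3, h4⟩ := r4 d hd
  obtain ⟨h5, h6⟩ := r4' d hd
  have hne : ∀ x y : Ideal (OO n t), io (rO x y) = fr y / fr x → rO x y ≠ 0 → fr x ≠ 0 ∧ fr y ≠ 0 := by
    intro x y h h'
    have h0 : io (rO x y) ≠ 0 := (map_ne_zero io).2 h'
    rw [h] at h0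
    exact ⟨fun h7 => h0 (by rw [h7, div_zero]), fun h7 => h0 (by rw [h7, zero_div])⟩
  obtain ⟨hfb, hfc⟩ := hne b c h1 h2
  obtain ⟨-, hfd⟩ := hne b d h3 h4
  apply io_inj
  rw [map_div₀, h1, h3, h5]
  field_simp

/-- The Galois action on the quotient of the framings. -/
theorem sE10r (hO2 : S_O2) (_hO7 : S_O7) (hR1 : S_R1) (hE1 : S_E1) (hPsK : S_PsK)
    (hEfr : S_Efr) (hEro : S_Ero) : S_E10r := by
  intro n t _ τ N a hN h15 hP b c hb hc
  obtain ⟨-, -, -, -, -, n6, -⟩ := hO2 n t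
  have hNb : 0 < NI b := Nat.pos_of_ne_zero fun h => hb.ne ((n6 b).1 h)
  have hNc : 0 < NI c := Nat.pos_of_ne_zero fun h => hc.ne ((n6 c).1 h)
  have hM : 0 < N * NI b * NI c := Nat.mul_pos (Nat.mul_pos hN hNb) hNc
  have hNM : N ∣ N * NI b * NI c := ⟨NI b * NI c, by ring⟩
  have hbM : NI b ∣ N * NI b * NI c := ⟨N * NI c, by ring⟩
  have hcM : NI c ∣ N * NI b * NI c := ⟨N * NI b, by ring⟩
  have hM15 : 15 ∣ N * NI b * NI c := h15.trans hNM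
  have hτ : τ ∈ GK n t := hPsK n t τ N a hN h15 hP
  obtain ⟨e1, -⟩ := hE1 n t (N * NI b * NI c) hM hM15
  obtain ⟨a₁, ha₁⟩ := e1 τ hτ
  have ha₁N : Psi τ N a₁ := Eb.psi_level ha₁ hNM
  obtain ⟨-, e2, -⟩ := hE1 n t N hN h15
  have hray : Ray N a₁ a := e2 τ a₁ a ha₁N hP
  have ga : G15 a := Eb.psi_g15 hP
  have ga₁ : G15 a₁ := Eb.psi_g15 ha₁
  have gcb : G15 (c * b) := Eb.g15_mul hc hb
  have t1 := hEro.2 n t τ (N * NI b * NI c) a₁ hM hM15 ha₁ b c hb hc hcM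
  have t2 := hEro.2 n t τ (N * NI b * NI c) a₁ hM hM15 ha₁ c b hc hb hbM
  rw [mul_comm b c] at t2
  rw [E10r_quot hR1 hb hc gcb, map_div₀, t1, t2,
    ← E10r_quot hR1 (Eb.g15_mul ga₁ hb) (Eb.g15_mul ga₁ hc) (Eb.g15_mul ga₁ gcb)]
  exact hEfr n t N a₁ a h15 ga₁ ga hray b c hb hc

end Pool.Agent.DN
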