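import Pool.Agent.Lib.DN.E.SpecA

/-!
# Theorem DN, part E, first half: inertia and the torsion prime to `Q` (Legendre coordinate) (author helper9)
-/

set_option autoImplicit false

open scoped Pointwise nonZeroDivisors

noncomputable section

namespace Pool.Agent.DN

open Pool.Agent.MuZ Pool.Agent.FW NumberField IsDedekindDomain
open Pool.Agent.DI (io ofC io_inj exists_io io_ofC ofC_io VP MP UP TP ex)

variable {n t : ℕ}

/-- The Legendre coordinate by the numbers `xO`. -/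
private theorem E4b_leg [Ine n t] (b1 : S_B1) (r1 : S_R1) {b : Ideal (OO n t)} (hb : G15 b) {T T' z : ℂ}
    (hz : Tor n t z) (hT : Tor n t T) (hT' : Tor n t T') :
    leO b T T' z = (xO b z - xO b T) / (xO b T' - xO b T) := by
  have hfr : fr b ≠ 0 := ((b1 n t b hb.ne).2.2.2.2.2 hb.cop).1
  have hx : ∀ y : ℂ, Tor n t y → io (xO b y) = (wpC b y - wpC b (1 / 3)) / fr b ^ 2 := fun y hy =>
    (((r1.1 n t).1 b hb).2.2.1 y hy).1
  have h : (wpC b z - wpC b T) / (wpC b T' - wpC b T) =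
      io ((xO b z - xO b T) / (xO b T' - xO b T)) := by
    rw [map_div₀, map_sub, map_sub, hx z hz, hx T hT, hx T' hT', ← sub_div, ← sub_div,
      div_div_div_cancel_right₀ (pow_ne_zero 2 hfr)]
    congr 1 <;> ring
  unfold leO
  rw [h, ofC_io]

theorem sE4b (_o6 : S_O6) (l3 : S_L3) (l5 : S_L5) (b1 : S_B1) (b7 : S_B7) (r1 : S_R1) (lg : S_Leg) :
    S_E4b := by
  intro n t _ Q hQ hQ2 τ _ hi v b δ N hN h30 hb hδ hNδ hQδ hv2 hΨ z hz
  haveI := hQ.1
  have hcv : PrI (sp v) N := Eb.psi_pri hΨ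
  have hv0 : v ≠ 0 := by
    intro h
    apply hΨ.ne
    rw [h]
    exact Ideal.span_singleton_eq_bot.2 rfl
  have hvC : toC v ≠ 0 := toC_ne hv0
  obtain ⟨hper, hev, hlat, -, -, -⟩ := b1 n t b hb.ne
  by_cases hzb : z ∈ Lam b
  · rw [(hlat z hzb).1, (hlat _ (lam_mul v hzb)).1]
  have hNz : (N : ℂ) * z ∈ Lam b := by
    have h := lam_prod.1 hz (N : OO n t) (hNδ (Ideal.mem_span_singleton_self _))
    rwa [toC_nat] at h
  have hvz : toC v * z ∈ Lam (δ * b) := lam_mul v hz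
  have hvzb : toC v * z ∉ Lam b := fun h =>
    hzb ((l5 n t (sp v) b N hΨ.ne hb.ne hN hcv).1 z hNz (lam_sp.2 h))
  -- the points of order two
  have h20 : (2 : OO n t) ≠ 0 := by
    have := Eb.nat_ne (n := n) (t := t) (N := 2) (by norm_num)
    exact_mod_cast this
  obtain ⟨⟨T, hT1, hT2⟩, hgen, -⟩ := l3 n t (sp (2 : OO n t)) b (Eb.ne_sp h20) hb.ne
  have hTm : ∀ u : OO n t, toC u * T ∈ Lam b ↔ (2 : ℤ) ∣ u.re ∧ (2 : ℤ) ∣ u.im := by
    intro u
    rw [(hgen T hT1 hT2).1 u, Ideal.mem_span_singleton]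
    have := nat_dvd_iff 2 u
    exact_mod_cast this
  have h2T : 2 * T ∈ Lam b := by
    have h := (hTm 2).2 (by
      have h2 := nat_dvd_iff 2 (2 : OO n t)
      exact_mod_cast h2.1 (by norm_num))
    rwa [toC_two] at h
  have hTn : T ∉ Lam b := by
    intro h
    have h' := (hTm 1).1 (by rwa [toC_one, one_mul])
    rw [re_one] at h'
    omega
  have hT'n : toC (wI n t) * T ∉ Lam b := by
    intro h
    have h' := ((hTm (wI n t)).1 h).2
    simp [wI] at h'
  have h2T' : 2 * (toC (wI n t) * T) ∈ Lam b := by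
    have h := lam_mul (wI n t) h2T
    have e : 2 * (toC (wI n t) * T) = toC (wI n t) * (2 * T) := by ring
    rwa [e]
  have hTT' : T - toC (wI n t) * T ∉ Lam b := by
    intro h
    have h' := ((hTm (1 - wI n t)).1 (by
      rw [toC_sub, toC_one]
      have e : (1 - toC (wI n t)) * T = T - toC (wI n t) * T := by ring
      rwa [e])).2
    rw [QuadraticAlgebra.im_sub, im_one] at h'
    simp [wI] at h'
  have hvT : toC v * T - T ∈ Lam b := by
    have h2 := nat_dvd_iff 2 (v - 1)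
    have h := (hTm (v - 1)).2 (by exact_mod_cast h2.1 (by exact_mod_cast hv2))
    rw [toC_sub, toC_one] at h
    have e : toC v * T - T = (toC v - 1) * T := by ring
    rwa [e]
  set T' : ℂ := toC (wI n t) * T with hT'def
  have hvT' : toC v * T' - T' ∈ Lam b := by
    have h := lam_mul (wI n t) hvT
    have e : toC v * T' - T' = toC (wI n t) * (toC v * T - T) := by
      rw [hT'def]
      ring
    rwa [e]
  have hN2 : ∀ y : ℂ, 2 * y ∈ Lam b → (N : ℂ) * y ∈ Lam b := by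
    intro y hy
    obtain ⟨m, hm⟩ := (dvd_trans (by norm_num : (2 : ℕ) ∣ 30) h30)
    have h := lam_nat m hy
    have e : (N : ℂ) * y = (m : ℂ) * (2 * y) := by
      rw [hm]
      push_cast
      ring
    rwa [e]
  have hNT := hN2 T h2T
  have hNT' := hN2 T' h2T'
  have htz : Tor n t z := (tor_iff hb.ne).2 ⟨N, hN, hNz⟩
  have htT : Tor n t T := (tor_iff hb.ne).2 ⟨N, hN, hNT⟩
  have htT' : Tor n t T' := (tor_iff hb.ne).2 ⟨N, hN, hNT'⟩
  have hc : G15 (sp v * b) := Eb.g15_mul (Eb.psi_g15 hΨ) hb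
  have hwp : ∀ y y' : ℂ, y - y' ∈ Lam b → wpC b y = wpC b y' := by
    intro y y' h
    have h' := (hper y' (y - y') h).1
    rwa [add_sub_cancel] at h'
  -- the Galois action
  have hga : τ (leO b T T' z) = leO b T T' (toC v * z) := by
    rw [E4b_leg b1 r1 hb htz htT htT', map_div₀, map_sub, map_sub, hΨ.xx b hb.ne hb.cop z hNz,
      hΨ.xx b hb.ne hb.cop T hNT, hΨ.xx b hb.ne hb.cop T' hNT', ← E4b_leg b1 r1 hc htz htT htT']
    unfold leO
    have h7 : ∀ y : ℂ, wpC (sp v * b) y = toC v ^ 2 * wpC b (toC v * y) := fun y =>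
      (((b7 n t b hb.ne).1 v hv0).1 y).1
    rw [h7 z, h7 T, h7 T', ← mul_sub, ← mul_sub, mul_div_mul_left _ _ (pow_ne_zero 2 hvC),
      hwp _ _ hvT, hwp _ _ hvT']
  -- the reduction
  obtain ⟨hvp, -⟩ := lg n t Q hQ hQ2 b hb.ne T T' h2T hTn h2T' hT'n hTT' δ hδ hQδ z z hz hz hzb hzb
  obtain ⟨-, hin⟩ := lg n t Q hQ hQ2 b hb.ne T T' h2T hTn h2T' hT'n hTT' δ hδ hQδ (toC v * z) z hvz hz
    hvzb hzb
  have hm := VP.inertia hi hvp
  rw [hga] at hm
  rcases hin hm with h | h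
  · exact hwp _ _ h
  · rw [← (hev z).1]
    refine hwp _ _ ?_
    rwa [sub_neg_eq_add]

end Pool.Agent.DN
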