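import Pool.Agent.Lib.DN.E.SpecA

/-!
# Theorem DN, part E, module Efr: the quotient of the framings depends only on the ray class
-/

set_option autoImplicit false

open scoped Pointwise nonZeroDivisors

noncomputable section

namespace Pool.Agent.DN

open Pool.Agent.MuZ Pool.Agent.FW NumberField IsDedekindDomain
open Pool.Agent.DI (io ofC io_inj exists_io io_ofC ofC_io VP MP UP TP ex)

theorem sEfr (h : S_Iso) : S_Efr := by
  intro n t _ N a a' h15 ha ha' hray b c hb hc
  obtain ⟨α, α', hα, hα', cα, cα', hd, he⟩ := hray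
  obtain ⟨m, hm⟩ := h15
  have h3 : (3 : OO n t) ∣ α - α' := by
    refine dvd_trans ?_ hd
    rw [hm]
    exact ⟨5 * (m : OO n t), by push_cast; ring⟩
  have h5 : (5 : OO n t) ∣ α - α' := by
    refine dvd_trans ?_ hd
    rw [hm]
    exact ⟨3 * (m : OO n t), by push_cast; ring⟩
  have key : ∀ b : Ideal (OO n t), G15 b → toC α' * fr (a' * b) = toC α * fr (a * b) := fun b hb =>
    (h n t a a' α α' ha ha' hα hα' (cop_dvd cα ⟨m, hm⟩) (cop_dvd cα' ⟨m, hm⟩) h3 (Or.inl h5) he b hb).2.2.1
  have h1 := key b hb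
  have h2 := key c hc
  unfold rO
  rw [← mul_div_mul_left (fr (a * c)) (fr (a * b)) (toC_ne hα), ← h1, ← h2,
    mul_div_mul_left _ _ (toC_ne hα')]

end Pool.Agent.DN
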