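import Pool.Agent.Lib.DN.E.SpecA

/-!
# Theorem DN, part E: module `Ero` (Galois action on the quotient of the framings, large level)
-/

set_option autoImplicit false

noncomputable section

namespace Pool.Agent.DN

open Pool.Agent.MuZ Pool.Agent.FW NumberField
open Pool.Agent.DI (io ofC io_inj exists_io io_ofC ofC_io)

/-- The point `1/j` is not in the lattice, `j ∈ {3, 5}`. -/
private theorem Ero_not (hL6 : S_L6) {n t : ℕ} [SqN n t] {b : Ideal (OO n t)} (hb : G15 b) (j : ℕ)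
    (hj : j ∣ 15) (hj1 : 1 < j) : (1 / j : ℂ) ∉ Lam b := by
  intro h
  have h0 : 0 < j := by omega
  have h1 := (hL6.1 n t b j hb.ne h0 (Eb.pri_dvd hb.cop hj) 1).1 (by rw [toC_one]; exact h)
  rw [nat_dvd_iff, re_one] at h1
  have h2 : (j : ℤ) ≤ 1 := Int.le_of_dvd one_pos h1.1
  omega

private theorem Ero_alg {g G S V d D : ℂ} (hg : g ≠ 0) (hS : S ≠ 0) (h1 : G = d / D)
    (h2 : d = g ^ 3 * V) (h3 : D = g ^ 2 * S) : G / g * S = V := by
  rw [h1, h2, h3]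
  field_simp

/-- Formula (1). -/
private theorem Ero_one (hL6 : S_L6) (hB1 : S_B1) (hB9 : S_B9) (hR1 : S_R1) (n t : ℕ) [Ine n t]
    (b c : Ideal (OO n t)) (hb : G15 b) (hc : G15 c) (R : Finset ℂ) (hR : IsSys c b R) :
    rO b (c * b) * ∑ u ∈ R, (xO b (1 / 5 + u) - xO b (1 / 3 + u)) = ∑ u ∈ R, vO b (1 / 3 + u) ∧
      ∑ u ∈ R, (xO b (1 / 5 + u) - xO b (1 / 3 + u)) ≠ 0 := by
  have hcb : G15 (c * b) := Eb.g15_mul hc hb
  have h3 : (1 / 3 : ℂ) ∉ Lam (c * b) := by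
    have := Ero_not hL6 hcb 3 (by norm_num) (by norm_num)
    exact_mod_cast this
  have h5 : (1 / 5 : ℂ) ∉ Lam (c * b) := by
    have := Ero_not hL6 hcb 5 (by norm_num) (by norm_num)
    exact_mod_cast this
  have hg : fr b ≠ 0 := ((hB1 n t b hb.ne).2.2.2.2.2 hb.cop).1
  have hG : fr (c * b) ≠ 0 := ((hB1 n t (c * b) hcb.ne).2.2.2.2.2 hcb.cop).1
  obtain ⟨e1, e2, -⟩ := hB9 n t c b hc.ne hb.ne R hR
  have hd := e2 (1 / 3) h3
  have hp := e1 (1 / 5) (1 / 3) h5 h3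
  have hd' : wdC (c * b) (1 / 3) = fr b ^ 3 * ∑ u ∈ R, WC b (1 / 3 + u) := by
    rw [hd, Finset.mul_sum]
    refine Finset.sum_congr rfl fun u _ => ?_
    unfold WC
    field_simp
  have hp' : wpC (c * b) (1 / 5) - wpC (c * b) (1 / 3) =
      fr b ^ 2 * ∑ u ∈ R, (XC b (1 / 5 + u) - XC b (1 / 3 + u)) := by
    rw [hp, Finset.mul_sum]
    refine Finset.sum_congr rfl fun u _ => ?_
    unfold XC
    field_simp
    ring
  have hfr : fr (c * b) = wdC (c * b) (1 / 3) / (wpC (c * b) (1 / 5) - wpC (c * b) (1 / 3)) := by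
    rw [fr, if_pos ⟨hcb.ne, hcb.cop⟩]
  have hD : wpC (c * b) (1 / 5) - wpC (c * b) (1 / 3) ≠ 0 := by
    intro h
    rw [h, div_zero] at hfr
    exact hG hfr
  have hS : ∑ u ∈ R, (XC b (1 / 5 + u) - XC b (1 / 3 + u)) ≠ 0 := by
    intro h
    rw [h, mul_zero] at hp'
    exact hD hp'
  have hkey : fr (c * b) / fr b * ∑ u ∈ R, (XC b (1 / 5 + u) - XC b (1 / 3 + u)) =
      ∑ u ∈ R, WC b (1 / 3 + u) := Ero_alg hg hS hfr hd' hp'
  -- transport to `Om`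
  have t3 : Tor n t (1 / 3 : ℂ) := ⟨1, 3, by norm_num, by rw [toC_one]; norm_num⟩
  have t5 : Tor n t (1 / 5 : ℂ) := ⟨1, 5, by norm_num, by rw [toC_one]; norm_num⟩
  obtain ⟨-, -, hx, hr⟩ := (hR1.1 n t).1 b hb
  have hT : ∀ u ∈ R, Tor n t u := fun u hu => tor_lam hcb.ne (hR.mem u hu)
  have i1 : io (∑ u ∈ R, (xO b (1 / 5 + u) - xO b (1 / 3 + u))) =
      ∑ u ∈ R, (XC b (1 / 5 + u) - XC b (1 / 3 + u)) := by
    rw [map_sum]
    refine Finset.sum_congr rfl fun u hu => ?_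
    rw [map_sub, (hx _ (tor_add t5 (hT u hu))).1, (hx _ (tor_add t3 (hT u hu))).1]
  have i2 : io (∑ u ∈ R, vO b (1 / 3 + u)) = ∑ u ∈ R, WC b (1 / 3 + u) := by
    rw [map_sum]
    exact Finset.sum_congr rfl fun u hu => (hx _ (tor_add t3 (hT u hu))).2
  refine ⟨io_inj ?_, ?_⟩
  · rw [map_mul, i1, i2, (hr (c * b) hcb).1]
    exact hkey
  · intro h
    rw [h, map_zero] at i1
    exact hS i1.symm

theorem sEro (hL3 : S_L3) (hL6 : S_L6) (_hO6 : S_O6) (hB1 : S_B1) (hB9 : S_B9) (hR1 : S_R1)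
    (hSyA : S_SyA) (hE10v : S_E10v) : S_Ero := by
  refine ⟨fun n t _ b c hb hc R hR => Ero_one hL6 hB1 hB9 hR1 n t b c hb hc R hR, ?_⟩
  intro n t _ τ N a hN h15 hPsi b c hb hc hcN
  have ha : G15 a := Eb.psi_g15 hPsi
  have hab : G15 (a * b) := Eb.g15_mul ha hb
  obtain ⟨R, hR, -⟩ := (hL3 n t c b hc.ne hb.ne).2.2
  obtain ⟨-, hu, hSys, -⟩ := hSyA n t a b c N ha.ne hb.ne hc.ne hN (Eb.psi_pri hPsi) hcN
  obtain ⟨E1, -⟩ := Ero_one hL6 hB1 hB9 hR1 n t b c hb hc R hR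
  obtain ⟨E2, E3⟩ := Ero_one hL6 hB1 hB9 hR1 n t (a * b) c hab hc R (hSys R hR)
  have hj : ∀ j : ℕ, 0 < j → j ∣ N → (N : ℂ) * (1 / j) ∈ Lam b := by
    rintro j hj0 ⟨m, rfl⟩
    have h1 : ((j * m : ℕ) : ℂ) * (1 / j) = (m : ℂ) * ((j : ℂ) * (1 / j)) := by
      push_cast
      ring
    rw [h1]
    exact lam_nat m (one_div_lam b hj0)
  have h3 : ∀ u ∈ R, (N : ℂ) * (1 / 3 + u) ∈ Lam b := by
    intro u hu'
    rw [mul_add]
    refine lam_add ?_ (hu u (hR.mem u hu'))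
    have := hj 3 (by norm_num) (Dvd.dvd.trans (by norm_num) h15)
    exact_mod_cast this
  have h5 : ∀ u ∈ R, (N : ℂ) * (1 / 5 + u) ∈ Lam b := by
    intro u hu'
    rw [mul_add]
    refine lam_add ?_ (hu u (hR.mem u hu'))
    have := hj 5 (by norm_num) (Dvd.dvd.trans (by norm_num) h15)
    exact_mod_cast this
  have i1 : τ (∑ u ∈ R, (xO b (1 / 5 + u) - xO b (1 / 3 + u))) =
      ∑ u ∈ R, (xO (a * b) (1 / 5 + u) - xO (a * b) (1 / 3 + u)) := by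
    rw [map_sum]
    refine Finset.sum_congr rfl fun u hu' => ?_
    rw [map_sub, hPsi.xx b hb.ne hb.cop _ (h5 u hu'), hPsi.xx b hb.ne hb.cop _ (h3 u hu')]
  have i2 : τ (∑ u ∈ R, vO b (1 / 3 + u)) = ∑ u ∈ R, vO (a * b) (1 / 3 + u) := by
    rw [map_sum]
    exact Finset.sum_congr rfl fun u hu' => hE10v.2 n t τ N a hN h15 hPsi b hb _ (h3 u hu')
  have E4 := congrArg τ E1
  rw [map_mul, i1, i2, ← E2] at E4
  have E5 := mul_right_cancel₀ E3 E4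
  rw [E5, mul_left_comm c a b]

end Pool.Agent.DN
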