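import Pool.Agent.Lib.DN.E.SpecA

/-! # Theorem DN, part E, module FN: finiteness of the set of values (port of `DK/E/FN.lean`) -/

set_option autoImplicit false

open scoped Pointwise nonZeroDivisors

noncomputable section

namespace Pool.Agent.DN

open Pool.Agent.MuZ Pool.Agent.FW NumberField IsDedekindDomain
open Pool.Agent.DI (io ofC io_inj exists_io io_ofC ofC_io VP MP UP TP ex)

/-- Finiteness of the set of values. -/
theorem sFN (hO7 : S_O7) (hL3 : S_L3) (hX : S_XOm) (hI : S_Iso) : Eb.S_FN := by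
  intro n t _ N hN _
  obtain ⟨R0, hR⟩ := (hO7 n t 15 (by norm_num)).2.2.2.2.2.2.2.2.2.2
  have hsys : ∀ b : Ideal (OO n t), ∃ R : Finset ℂ, b ≠ ⊥ → IsSys (sp (N : OO n t)) b R := by
    intro b
    by_cases hb : b = ⊥
    · exact ⟨∅, fun h => absurd hb h⟩
    · obtain ⟨_, _, R, h1, _⟩ := hL3 n t (sp (N : OO n t)) b (Eb.ne_sp (Eb.nat_ne hN)) hb
      exact ⟨R, fun _ => h1⟩
  choose S hS using hsys
  have key : ∀ b : Ideal (OO n t), G15 b → ∃ b0 ∈ R0, a1O b = a1O b0 ∧ a3O b = a3O b0 ∧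
      ∀ z : ℂ, (N : ℂ) * z ∈ Lam b → ∃ y : ℂ, (N : ℂ) * y ∈ Lam b0 ∧ xO b z = xO b0 y := by
    intro b hb
    obtain ⟨b0, hb0, α, α', hα, hα', hc, hc', hd, hm⟩ := hR.ex b hb.ne hb.cop
    have hb0' : G15 b0 := ⟨(hR.mem b0 hb0).1, (hR.mem b0 hb0).2⟩
    have h15 : (15 : OO n t) ∣ α' - α := by
      have h := dvd_neg.2 hd
      rw [neg_sub] at h
      exact_mod_cast h
    have h3 : (3 : OO n t) ∣ α' - α := Dvd.dvd.trans ⟨5, by norm_num⟩ h15
    have h5 : (5 : OO n t) ∣ α' - α := Dvd.dvd.trans ⟨3, by norm_num⟩ h15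
    have h1 := hI n t b0 b α' α hb0' hb hα' hα hc' hc h3 (Or.inl h5) hm.symm ⊤ Eb.g15_top
    rw [Ideal.mul_top, Ideal.mul_top] at h1
    obtain ⟨h2, h2', _, h4⟩ := h1
    refine ⟨b0, hb0, congrArg ofC h2, congrArg ofC h2', fun z hz =>
      ⟨toC α' / toC α * z, ?_, congrArg ofC (h4 z).1⟩⟩
    have h6 := (h4 ((N : ℂ) * z)).2.2.mp hz
    have h7 : toC α' / toC α * ((N : ℂ) * z) = (N : ℂ) * (toC α' / toC α * z) := by ring
    rwa [h7] at h6
  refine ⟨(a1O '' (R0 : Set (Ideal (OO n t)))) ∪ ((a3O '' (R0 : Set (Ideal (OO n t)))) ∪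
    ⋃ b ∈ (R0 : Set (Ideal (OO n t))), xO b '' (S b : Set ℂ)), ?_, ?_, ?_⟩
  · refine Set.Finite.union (R0.finite_toSet.image _) (Set.Finite.union (R0.finite_toSet.image _) ?_)
    refine Set.Finite.biUnion R0.finite_toSet ?_
    intro b _
    exact (S b).finite_toSet.image _
  · intro b hb
    obtain ⟨b0, h0, h1, h2, _⟩ := key b hb
    exact ⟨Or.inl ⟨b0, h0, h1.symm⟩, Or.inr (Or.inl ⟨b0, h0, h2.symm⟩)⟩
  · intro b hb z hz
    obtain ⟨b0, h0, _, _, h2⟩ := key b hb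
    obtain ⟨y, hy, h3⟩ := h2 z hz
    have hb0 : G15 b0 := ⟨(hR.mem b0 h0).1, (hR.mem b0 h0).2⟩
    have h4 : y ∈ Lam (sp (N : OO n t) * b0) := by
      rw [lam_sp, toC_nat]
      exact hy
    obtain ⟨u, hu, hu'⟩ := (hS b0 hb0.ne).ex y h4
    have h5 : xO b0 y = xO b0 u := ((hX n t b0 hb0).cng y u hu').1
    refine Or.inr (Or.inr ?_)
    rw [Set.mem_iUnion₂]
    exact ⟨b0, h0, u, hu, by rw [h3, h5]⟩

end Pool.Agent.DN
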