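import Pool.Agent.Lib.DN.E.SpecA

/-!
# Theorem DN, part E: inertia: the class of `a` is trivial
-/

set_option autoImplicit false

noncomputable section

namespace Pool.Agent.DN

open Pool.Agent.MuZ Pool.Agent.FW NumberField IsDedekindDomain
open Pool.Agent.DI (io ofC io_inj exists_io io_ofC ofC_io VP MP UP TP ex)

private theorem Gw_aux (hGwp : S_Gwp) (n t : ℕ) [Ine n t] (hn : n ≠ 1) (P : Ideal ZZ) (hP : Ab2 P)
    (N : ℕ) (hN : Odd N) (h15 : 15 ∣ N) (h : ℕ) :
    ∀ τ ∈ GK n t, τ ∈ P.inertia Gal(Om/ℚ) → ∀ a : Ideal (OO n t), Psi τ N a → 0 < h →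
      Prc (a ^ h) → Prc a := by
  induction h using Nat.strong_induction_on with
  | _ h ih =>
    intro τ hτ hi a hψ hh hah
    by_cases h1 : h = 1
    · rwa [h1, pow_one] at hah
    · obtain ⟨p, hp, m, rfl⟩ := Nat.exists_prime_and_dvd h1
      have hm : 0 < m := Nat.pos_of_mul_pos_left hh
      have hlt : m < p * m := by
        have h2 := hp.two_le
        nlinarith
      refine hGwp n t hn P hP τ hτ hi N a p hN h15 hψ hp ?_
      exact ih m hlt (τ ^ p) (pow_mem hτ p) (pow_mem hi p) (a ^ p) (psi_pow hψ p) hm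
        (by rw [← pow_mul]; exact hah)

theorem sGw (hO5 : S_O5) (hGwp : S_Gwp) : S_Gw := by
  intro n t _ hn P hP τ hτ hi N a hN h15 hψ
  obtain ⟨h, α, hh, hα, hah⟩ := hO5 n t a hψ.ne
  exact Gw_aux hGwp n t hn P hP N hN h15 h τ hτ hi a hψ hh ⟨α, hα, hah⟩

end Pool.Agent.DN
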