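import Pool.Agent.Lib.DN.E.SpecA

/-!
# Theorem DN, part E, module Gwc: Grunwald - Wang, descent from `K(ζ)` to `K` (`S_Gwc`)
-/

set_option autoImplicit false

open scoped Pointwise nonZeroDivisors

noncomputable section

namespace Pool.Agent.DN

open Pool.Agent.MuZ Pool.Agent.FW NumberField IsDedekindDomain
open Pool.Agent.DI (io ofC io_inj exists_io io_ofC ofC_io VP MP UP TP ex)

/-- A primitive root of unity of order `m > 0`. -/
private theorem Gwc_root {m : ℕ} (hm : 0 < m) : ∃ ζ : Om, IsPrimitiveRoot ζ m := by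
  have : NeZero (m : Om) := ⟨by exact_mod_cast hm.ne'⟩
  exact HasEnoughRootsOfUnity.exists_primitiveRoot Om m

/-- The square root of `1` given by a primitive root of even order. -/
private theorem Gwc_neg {p : ℕ} (hp : p.Prime) {ζ : Om} (hζ : IsPrimitiveRoot ζ (2 * p)) :
    ζ ^ p = -1 := by
  have h1 : (ζ ^ p) ^ 2 = 1 := by
    rw [← pow_mul, mul_comm]
    exact hζ.pow_eq_one
  rcases sq_eq_one_iff.1 h1 with h | h
  · exfalso
    have h2 := hζ.dvd_of_pow_eq_one p h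
    have := Nat.le_of_dvd hp.pos h2
    have := hp.pos
    omega
  · exact h

/-- If `σ₁ η = σ₂ η` and `σ₁⁻¹ σ₂` fixes `θ` then `σ₂ θ = σ₁ θ`. -/
private theorem Gwc_comm {σ₁ σ₂ : Gal(Om/ℚ)} {η θ : Om}
    (h : (σ₁⁻¹ * σ₂) η = η → (σ₁⁻¹ * σ₂) θ = θ) (he : σ₁ η = σ₂ η) : σ₂ θ = σ₁ θ := by
  have h1 : (σ₁⁻¹ * σ₂) η = η := by
    show σ₁.symm (σ₂ η) = η
    rw [← he, AlgEquiv.symm_apply_apply]
  have h2 : σ₁.symm (σ₂ θ) = θ := h h1
  rw [← h2, AlgEquiv.apply_symm_apply, h2]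

/-- The case `p = 2`. -/
private theorem Gwc_two {n t : ℕ} [SqN n t] (hMO : S_MO) {g : OO n t} (hg : g ≠ 0) {ζ θ : Om}
    (hζ : ζ ^ 2 = -1) (hθ : θ ^ 2 = toO g)
    (hfix : ∀ τ ∈ GK n t, τ ζ = ζ → τ θ = θ) :
    ∃ v : OO n t, v ^ 2 = g ∨ v ^ 2 = -g := by
  have hθi : IsIntegral ℤ θ := IsIntegral.of_pow (n := 2) two_pos (by rw [hθ]; exact toO_integral g)
  have hζi : IsIntegral ℤ ζ := IsIntegral.of_pow (n := 2) two_pos (by
    rw [hζ]
    exact isIntegral_one.neg)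
  have hg0 : toO g ≠ 0 := toO_ne hg
  have hθ0 : θ ≠ 0 := by
    rintro rfl
    apply hg0
    rw [← hθ]
    simp
  have hcθ : ∀ τ ∈ GK n t, τ θ = θ ∨ τ θ = -θ := by
    intro τ hτ
    apply sq_eq_sq_iff_eq_or_eq_neg.1
    rw [← map_pow, hθ, GK_toO hτ]
  have hcζ : ∀ τ : Gal(Om/ℚ), τ ζ = ζ ∨ τ ζ = -ζ := by
    intro τ
    apply sq_eq_sq_iff_eq_or_eq_neg.1
    rw [← map_pow, hζ, map_neg, map_one]
  by_cases hall : ∀ τ ∈ GK n t, τ θ = θ
  · obtain ⟨v, hv⟩ := hMO n t θ hθi hall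
    refine ⟨v, Or.inl (toO_inj ?_)⟩
    rw [toO_pow, ← hv, hθ]
  · push Not at hall
    obtain ⟨τ₀, hτ₀, hne⟩ := hall
    have h0 : τ₀ ζ = -ζ := by
      rcases hcζ τ₀ with h | h
      · exact absurd (hfix τ₀ hτ₀ h) hne
      · exact h
    have hinv : ∀ τ ∈ GK n t, τ (ζ * θ) = ζ * θ := by
      intro τ hτ
      rcases hcζ τ with h | h
      · rw [map_mul, h, hfix τ hτ h]
      · have h1 : (τ₀ * τ) ζ = ζ := by
          show τ₀ (τ ζ) = ζ
          rw [h, map_neg, h0, neg_neg]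
        have h2 : τ₀ (τ θ) = θ := hfix (τ₀ * τ) (mul_mem hτ₀ hτ) h1
        rcases hcθ τ hτ with h3 | h3
        · rw [h3] at h2
          exact absurd h2 hne
        · rw [map_mul, h, h3]
          ring
    obtain ⟨v, hv⟩ := hMO n t (ζ * θ) (hζi.mul hθi) hinv
    refine ⟨v, Or.inr (toO_inj ?_)⟩
    rw [toO_pow, ← hv, mul_pow, hζ, hθ, toO_neg]
    ring

/-- The case `p` odd; `η` is a primitive `p`-th root of unity. -/
private theorem Gwc_odd {n t : ℕ} [SqN n t] (hMO : S_MO) {p : ℕ} (hp : p.Prime) {g : OO n t}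
    (hg : g ≠ 0) {η θ : Om} (hη : IsPrimitiveRoot η p) (hθ : θ ^ p = toO g)
    (hfix : ∀ θ : Om, θ ^ p = toO g → ∀ τ ∈ GK n t, τ η = η → τ θ = θ) :
    ∃ v : OO n t, v ^ p = g := by
  have hint : ∀ θ : Om, θ ^ p = toO g → IsIntegral ℤ θ := fun θ hθ =>
    IsIntegral.of_pow (n := p) hp.pos (by rw [hθ]; exact toO_integral g)
  have hg0 : toO g ≠ 0 := toO_ne hg
  have hne : ∀ θ : Om, θ ^ p = toO g → θ ≠ 0 := by
    rintro θ hθ rfl
    apply hg0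
    rw [← hθ, zero_pow hp.ne_zero]
  have hη0 : η ≠ 0 := hη.ne_zero hp.ne_zero
  have : NeZero p := ⟨hp.ne_zero⟩
  -- `τ η` is a power of `η`, `τ θ` is a power of `η` times `θ`
  have hcη : ∀ τ : Gal(Om/ℚ), ∃ k : ℕ, τ η = η ^ k := by
    intro τ
    obtain ⟨k, -, hk⟩ := hη.eq_pow_of_pow_eq_one (ξ := τ η) (by
      rw [← map_pow, hη.pow_eq_one, map_one])
    exact ⟨k, hk.symm⟩
  have hcθ : ∀ θ : Om, θ ^ p = toO g → ∀ τ ∈ GK n t, ∃ c : ℕ, τ θ = η ^ c * θ := by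
    intro θ hθ τ hτ
    have h0 := hne θ hθ
    obtain ⟨c, -, hc⟩ := hη.eq_pow_of_pow_eq_one (ξ := τ θ / θ) (by
      rw [div_pow, ← map_pow, hθ, GK_toO hτ]
      exact div_self hg0)
    exact ⟨c, by rw [hc, div_mul_cancel₀ _ h0]⟩
  by_cases hall : ∀ τ ∈ GK n t, τ η = η
  · obtain ⟨v, hv⟩ := hMO n t θ (hint θ hθ) fun τ hτ => hfix θ hθ τ hτ (hall τ hτ)
    refine ⟨v, toO_inj ?_⟩
    rw [toO_pow, ← hv, hθ]
  · push Not at hall
    obtain ⟨τ₀, hτ₀, hτη⟩ := hall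
    obtain ⟨ε, hε⟩ : ∃ ε : Om, τ₀ η = η * ε := ⟨τ₀ η / η, by field_simp⟩
    have hε1 : ε ≠ 1 := by
      rintro rfl
      exact hτη (by rw [hε, mul_one])
    have hεp : ε ^ p = 1 := by
      have h1 : (τ₀ η) ^ p = 1 := by rw [← map_pow, hη.pow_eq_one, map_one]
      rw [hε, mul_pow, hη.pow_eq_one, one_mul] at h1
      exact h1
    have hεprim : IsPrimitiveRoot ε p := by
      have : orderOf ε = p := by
        have : Fact p.Prime := ⟨hp⟩
        exact orderOf_eq_prime hεp hε1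
      rw [← this]
      exact IsPrimitiveRoot.orderOf ε
    obtain ⟨c, hc⟩ := hcθ θ hθ τ₀ hτ₀
    obtain ⟨b, -, hb⟩ := hεprim.eq_pow_of_pow_eq_one (ξ := (η ^ c)⁻¹) (by
      rw [inv_pow, ← pow_mul, mul_comm, pow_mul, hη.pow_eq_one, one_pow, inv_one])
    have hηc : η ^ c ≠ 0 := pow_ne_zero _ hη0
    -- `θ' = η ^ b θ`
    have hθ' : (η ^ b * θ) ^ p = toO g := by
      rw [mul_pow, hθ, ← pow_mul, mul_comm b p, pow_mul, hη.pow_eq_one, one_pow, one_mul]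
    have hτθ' : τ₀ (η ^ b * θ) = η ^ b * θ := by
      rw [map_mul, map_pow, hε, hc, mul_pow, hb]
      field_simp
    have hinv : ∀ τ ∈ GK n t, τ (η ^ b * θ) = η ^ b * θ := by
      intro τ hτ
      obtain ⟨d, hd⟩ := hcθ _ hθ' τ hτ
      obtain ⟨k, hk⟩ := hcη τ
      obtain ⟨k₀, hk₀⟩ := hcη τ₀
      have hcomm : τ (τ₀ (η ^ b * θ)) = τ₀ (τ (η ^ b * θ)) := by
        refine Gwc_comm (σ₁ := τ₀ * τ) (σ₂ := τ * τ₀) (η := η)
          (fun h => hfix _ hθ' _ (mul_mem (inv_mem (mul_mem hτ₀ hτ)) (mul_mem hτ hτ₀)) h) ?_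
        show τ₀ (τ η) = τ (τ₀ η)
        rw [hk, hk₀, map_pow, map_pow, hk, hk₀, ← pow_mul, ← pow_mul, mul_comm]
      rw [hτθ', hd, map_mul, map_pow, hτθ', hε, mul_pow] at hcomm
      have h0 := hne _ hθ'
      have h1 := mul_right_cancel₀ h0 hcomm
      have h2 : ε ^ d = 1 := by
        have h3 : η ^ d ≠ 0 := pow_ne_zero _ hη0
        exact (mul_left_cancel₀ h3 (by rw [mul_one]; exact h1)).symm
      obtain ⟨e, rfl⟩ := hεprim.dvd_of_pow_eq_one d h2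
      rw [hd, pow_mul, hη.pow_eq_one, one_pow, one_mul]
    obtain ⟨v, hv⟩ := hMO n t (η ^ b * θ) (hint _ hθ') hinv
    refine ⟨v, toO_inj ?_⟩
    rw [toO_pow, ← hv, hθ']

/-- **Grunwald - Wang.** -/
theorem sGwc : S_MO → S_Gwf → S_Gwc := by
  intro hMO hGwf n t _ p g B hp hg hB hyp
  have h2p : 0 < 2 * p := by
    have := hp.pos
    omega
  obtain ⟨ζ, hζ⟩ := Gwc_root h2p
  obtain ⟨θ, hθ⟩ := IsAlgClosed.exists_pow_nat_eq (toO g) hp.pos
  have hfix := hGwf n t p g B hp hg hB hyp ζ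
  have hζp := Gwc_neg hp hζ
  rcases hp.eq_two_or_odd' with rfl | hodd
  · exact Gwc_two hMO hg hζp hθ fun τ hτ h => hfix θ hζ hθ τ hτ h
  · have hη : IsPrimitiveRoot (ζ ^ 2) p := hζ.pow h2p rfl
    obtain ⟨k, hk⟩ := hodd
    have hζη : -ζ = (ζ ^ 2) ^ (k + 1) := by
      rw [← pow_mul, show 2 * (k + 1) = p + 1 by omega, pow_succ, hζp]
      ring
    obtain ⟨v, hv⟩ := Gwc_odd hMO hp hg hη hθ fun θ hθ τ hτ h => by
      refine hfix θ hζ hθ τ hτ ?_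
      have h1 : τ (-ζ) = -ζ := by
        conv_lhs => rw [hζη]
        rw [map_pow, h, ← hζη]
      rw [map_neg] at h1
      exact neg_injective h1
    exact ⟨v, Or.inl hv⟩

end Pool.Agent.DN
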