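import Pool.Agent.Lib.DN.E.SpecA
import Pool.Agent.Lib.DK.Gen

/-!
# Theorem DN, part E, module Gwf: Grunwald - Wang, Frobenius elements
-/

set_option autoImplicit false

open scoped Pointwise nonZeroDivisors

noncomputable section

namespace Pool.Agent.DN

open Pool.Agent.MuZ Pool.Agent.FW NumberField IsDedekindDomain
open Pool.Agent.DI (io ofC io_inj exists_io io_ofC ofC_io VP MP UP TP ex)

variable {n t : ℕ}

private theorem Gwf_fix {S : Set Om} {τ : Gal(Om/ℚ)} (h : ∀ y ∈ S, τ y = y) :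
    τ ∈ (IntermediateField.adjoin ℚ S).fixingSubgroup := by
  rw [IntermediateField.mem_fixingSubgroup_iff]
  intro x hx
  exact IntermediateField.adjoin_induction (F := ℚ) (E := Om)
      (p := fun x _ => τ x = x) h (fun r => τ.commutes r)
      (fun x y _ _ h1 h2 => by rw [map_add, h1, h2]) (fun x _ h1 => by rw [map_inv₀, h1])
      (fun x y _ _ h1 h2 => by rw [map_mul, h1, h2]) hx

/-- A factor of a product in the maximal ideal is in the maximal ideal. -/
private theorem Gwf_prod {Q : Ideal ZZ} [Q.IsPrime] {ι : Type} (s : Finset ι) (f : ι → Om)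
    (hf : ∀ i ∈ s, VP Q (f i)) (h : MP Q (∏ i ∈ s, f i)) : ∃ i ∈ s, MP Q (f i) := by
  classical
  induction s using Finset.induction_on with
  | empty =>
    rw [Finset.prod_empty] at h
    exact absurd h DI.MP.one_not
  | insert a s ha ih =>
    rw [Finset.prod_insert ha] at h
    have hfs : ∀ i ∈ s, VP Q (f i) := fun i hi => hf i (Finset.mem_insert_of_mem hi)
    rcases DI.MP.mul_cases (hf a (Finset.mem_insert_self a s)) (DI.VP.prod s f hfs) h with h1 | h1
    · exact ⟨a, Finset.mem_insert_self a s, h1⟩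
    · obtain ⟨i, hi, h2⟩ := ih hfs h1
      exact ⟨i, Finset.mem_insert_of_mem hi, h2⟩

/-- A `p`-th root of unity congruent to `1` is `1` if `p` is a unit. -/
private theorem Gwf_eps {Q : Ideal ZZ} [Q.IsPrime] {p : ℕ} (hp : 0 < p) (hpQ : ¬ MP Q (p : Om))
    {ε : Om} (hε : ε ^ p = 1) (h1 : MP Q (ε - 1)) : ε = 1 := by
  by_contra hne
  have hi : IsIntegral ℤ ε := IsIntegral.of_pow hp (by rw [hε]; exact isIntegral_one)
  have hv : VP Q ε := DI.VP.integral hi
  have hpow : ∀ i : ℕ, MP Q (ε ^ i - 1) := by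
    intro i
    rw [← geom_sum_mul]
    exact DI.MP.mul_left (DI.VP.sum _ _ fun j _ => DI.VP.pow hv j) h1
  have hsum : ∑ j ∈ Finset.range p, ε ^ j = 0 := by
    have h2 := geom_sum_mul ε p
    rw [hε, sub_self] at h2
    exact (mul_eq_zero.1 h2).resolve_right (sub_ne_zero.2 hne)
  apply hpQ
  have e : (p : Om) = -∑ j ∈ Finset.range p, (ε ^ j - 1) := by
    rw [Finset.sum_sub_distrib, hsum]
    simp
  rw [e]
  exact DI.MP.neg (DI.MP.sum _ _ fun j _ => hpow j)

section psi

variable (M : IntermediateField ℚ Om) (hM : wO n t ∈ M)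

include hM in
private theorem Gwf_mem (v : OO n t) : toO v ∈ M := by
  rw [toO_apply]
  exact add_mem (intCast_mem _ _) (mul_mem (intCast_mem _ _) hM)

private theorem Gwf_int [SqN n t] (v : OO n t) : IsIntegral ℤ (⟨toO v, Gwf_mem M hM v⟩ : M) := by
  have h1 : Function.Injective (algebraMap M Om) := (algebraMap M Om).injective
  rw [← isIntegral_algebraMap_iff (R := ℤ) h1]
  exact toO_integral v

/-- The inclusion of `O` in the ring of integers. -/
private def Gwf_psi [SqN n t] : OO n t →+* 𝓞 M where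
  toFun v := ⟨⟨toO v, Gwf_mem M hM v⟩, Gwf_int M hM v⟩
  map_one' := by
    apply Subtype.ext
    apply Subtype.ext
    exact toO_one
  map_mul' u v := by
    apply Subtype.ext
    apply Subtype.ext
    exact toO_mul u v
  map_zero' := by
    apply Subtype.ext
    apply Subtype.ext
    exact toO_zero
  map_add' u v := by
    apply Subtype.ext
    apply Subtype.ext
    exact toO_add u v

include hM in
/-- The prime of `O` under `Q` has degree one. -/
private theorem Gwf_q [SqN n t] [NumberField M] {Q : Ideal ZZ} [Q.IsPrime] {l : ℕ} (hl : l.Prime)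
    (hlQ : (l : ZZ) ∈ Q) (hcard : Nat.card (𝓞 M ⧸ Q.comap (iO M)) = l) :
    ∃ q : Ideal (OO n t), Deg1 q l ∧ Abv Q q := by
  obtain ⟨J, hJ⟩ : ∃ J : Ideal (𝓞 M), J = Q.comap (iO M) := ⟨_, rfl⟩
  obtain ⟨q, hq⟩ : ∃ q : Ideal (OO n t), q = J.comap (Gwf_psi M hM) := ⟨_, rfl⟩
  have hmem : ∀ v : OO n t, v ∈ q ↔ MP Q (toO v) := by
    intro v
    rw [hq, hJ]
    have h1 : MP Q ((iO M (Gwf_psi M hM v) : ZZ) : Om) ↔ iO M (Gwf_psi M hM v) ∈ Q :=
      DI.MP.coe_iff (P := Q) _
    exact h1.symm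
  have hqp : q.IsPrime := by
    have h1 : J.IsPrime := by
      rw [hJ]
      exact Ideal.IsPrime.comap (iO M)
    rw [hq]
    exact Ideal.IsPrime.comap (Gwf_psi M hM)
  have hlq : (l : OO n t) ∈ q := by
    rw [hmem, toO_nat]
    exact (DI.MP.nat_iff l).2 hlQ
  have hq0 : q ≠ ⊥ := by
    intro h
    rw [h, Submodule.mem_bot] at hlq
    have h1 := congrArg Nm hlq
    rw [Nm_nat, Nm_zero] at h1
    have h2 : (l : ℤ) = 0 := by simpa using h1
    exact hl.ne_zero (by exact_mod_cast h2)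
  have hdvd : NI q ∣ l := by
    rw [← hcard, ← hJ, hq]
    have hinj : Function.Injective
        (Ideal.quotientMap J (Gwf_psi M hM) (le_refl (J.comap (Gwf_psi M hM)))) :=
      Ideal.quotientMap_injective
    exact AddSubgroup.card_dvd_of_injective
      (Ideal.quotientMap J (Gwf_psi M hM) (le_refl (J.comap (Gwf_psi M hM)))).toAddMonoidHom hinj
  have hNI : NI q = l := by
    rcases (Nat.dvd_prime hl).1 hdvd with h | h
    · have h1 : Nat.card (OO n t ⧸ q) = 1 := h
      have h2 : Subsingleton (OO n t ⧸ q) := (Nat.card_eq_one_iff_unique.1 h1).1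
      exact absurd (Ideal.Quotient.subsingleton_iff.1 h2) hqp.ne_top
    · exact h
  exact ⟨q, ⟨hqp, hq0, hl, hNI⟩, fun v hv => (hmem v).1 hv⟩

end psi

theorem sGwf (hAb : Eb.S_AbB) : S_Gwf := by
  intro n t _ p g B hp hg hB hloc ζ θ hζ hθ τ0 hτ0 hτζ
  have hp0 : 0 < p := hp.pos
  obtain ⟨M, hM⟩ : ∃ M : IntermediateField ℚ Om, M = IntermediateField.adjoin ℚ {wO n t, ζ} :=
    ⟨_, rfl⟩
  have hwM : wO n t ∈ M := by
    rw [hM]
    exact IntermediateField.subset_adjoin ℚ _ (by simp)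
  have hζM : ζ ∈ M := by
    rw [hM]
    exact IntermediateField.subset_adjoin ℚ _ (by simp)
  have hfin : FiniteDimensional ℚ M := by
    rw [hM]
    exact IntermediateField.finiteDimensional_adjoin_pair
      (Algebra.IsIntegral.isIntegral _) (Algebra.IsIntegral.isIntegral _)
  have hNF : NumberField M := ⟨⟩
  have hfinθ : FiniteDimensional ℚ (IntermediateField.adjoin ℚ {θ}) :=
    IntermediateField.adjoin.finiteDimensional (Algebra.IsIntegral.isIntegral θ)
  obtain ⟨H, hH⟩ : ∃ H : Subgroup Gal(Om/ℚ), H = (IntermediateField.adjoin ℚ {θ}).fixingSubgroup :=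
    ⟨_, rfl⟩
  have hHθ : ∀ τ : Gal(Om/ℚ), τ ∈ H ↔ τ θ = θ := by
    intro τ
    rw [hH]
    constructor
    · intro h
      exact h ⟨θ, IntermediateField.mem_adjoin_simple_self ℚ θ⟩
    · intro h
      exact Gwf_fix (by rintro y rfl; exact h)
  -- the roots of unity
  have hζ2 : IsPrimitiveRoot (ζ ^ 2) p := hζ.pow (by omega) rfl
  have hζp : ζ ^ p = -1 := (hζ.pow (by omega) (mul_comm 2 p)).eq_neg_one_of_two_right
  have hζi : IsIntegral ℤ ζ := by
    refine IsIntegral.of_pow (show 0 < 2 * p by omega) ?_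
    rw [hζ.pow_eq_one]
    exact isIntegral_one
  have hgO : toO g ≠ 0 := toO_ne hg
  have hθ0 : θ ≠ 0 := by
    rintro rfl
    rw [zero_pow hp.ne_zero] at hθ
    exact hgO hθ.symm
  have hNg : 0 < Nm g := Nm_pos hg
  have key : M.fixingSubgroup ≤ H := by
    refine Pool.Agent.DK.gen_frob M H ⟨H, ?_⟩ (2 * p * B * (Nm g).natAbs) inf_le_right ?_ ?_
    · rw [hH]
      exact IntermediateField.fixingSubgroup_isOpen _
    · have h1 : 0 < (Nm g).natAbs := Int.natAbs_pos.2 hNg.ne'
      positivity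
    · intro l Q τ hl hlM hQ hQb hlQ hcard hτ hτf
      obtain ⟨q, hq1, hqa⟩ := Gwf_q M hwM hl hlQ hcard
      have hlB : l.Coprime B := by
        refine (Nat.Prime.coprime_iff_not_dvd hl).2 fun h => hlM ?_
        exact Dvd.dvd.mul_right (Dvd.dvd.mul_left h _) _
      have hlp : ¬ (l : ℤ) ∣ (p : ℤ) := by
        intro h
        apply hlM
        have h1 : l ∣ p := by exact_mod_cast h
        exact Dvd.dvd.mul_right (Dvd.dvd.mul_right (Dvd.dvd.mul_left h1 _) _) _
      have hlg : ¬ (l : ℤ) ∣ Nm g := by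
        intro h
        apply hlM
        have h1 : l ∣ (Nm g).natAbs := Int.natCast_dvd.1 h
        exact Dvd.dvd.mul_left h1 _
      obtain ⟨-, hunit⟩ := (hAb n t).2 Q q l ⟨hQ, hQb⟩ hq1 hqa
      have hpU : ¬ MP Q (p : Om) := by
        have h1 := (hunit p hlp).2
        simpa using h1
      have hgU : UP Q (toO g) := by
        refine ⟨toO_VP g, fun h => ?_⟩
        have h1 := (hunit _ hlg).2
        apply h1
        rw [← toO_int (n := n) (t := t), ← mul_cjO, toO_mul]
        exact DI.MP.mul_right h (toO_VP _)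
      have hθU : UP Q θ := by
        apply DI.UP.of_pow hp0
        rw [hθ]
        exact hgU
      have hτw : τ (wO n t) = wO n t := hτ ⟨wO n t, hwM⟩
      have hτζ : τ ζ = ζ := hτ ⟨ζ, hζM⟩
      have hτG : τ ∈ GK n t := mem_GK_iff.2 hτw
      have hζV : VP Q ζ := DI.VP.integral hζi
      -- the approximate root
      obtain ⟨u', hu'V, hu'τ, hu'⟩ : ∃ u' : Om, VP Q u' ∧ τ u' = u' ∧ MP Q (θ ^ p - u' ^ p) := by
        obtain ⟨u, hu | hu⟩ := hloc q l hq1 hlB
        · refine ⟨toO u, toO_VP u, GK_toO hτG u, ?_⟩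
          have h1 := hqa _ hu
          rwa [toO_sub, toO_pow, ← hθ] at h1
        · refine ⟨ζ * toO u, DI.VP.mul hζV (toO_VP u), ?_, ?_⟩
          · rw [map_mul, hτζ, GK_toO hτG u]
          · have h1 := hqa _ hu
            rw [toO_add, toO_pow, ← hθ] at h1
            have e : θ ^ p - (ζ * toO u) ^ p = θ ^ p + toO u ^ p := by
              rw [mul_pow, hζp]
              ring
            rwa [e]
      rw [hζ2.pow_sub_pow_eq_prod_sub_mul _ _ hp0] at hu'
      have hμV : ∀ μ : Om, μ ^ p = 1 → VP Q μ := by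
        intro μ hμ
        exact DI.VP.integral (IsIntegral.of_pow hp0 (by rw [hμ]; exact isIntegral_one))
      obtain ⟨μ, hμ, hμQ⟩ := Gwf_prod _ _ (by
        intro μ hμ
        have h1 : μ ^ p = 1 := (Polynomial.mem_nthRootsFinset hp0 1).1 hμ
        exact DI.VP.sub hθU.1 (DI.VP.mul (hμV μ h1) hu'V)) hu'
      have hμ1 : μ ^ p = 1 := (Polynomial.mem_nthRootsFinset hp0 1).1 hμ
      have hμτ : τ μ = μ := by
        have hne : NeZero p := ⟨hp.ne_zero⟩
        obtain ⟨i, -, hi⟩ := hζ2.eq_pow_of_pow_eq_one hμ1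
        rw [← hi, map_pow, map_pow, hτζ]
      -- the Frobenius element
      have h1 := DI.VP.frob hτf hμQ.vp
      have h2 : MP Q ((θ - μ * u') ^ l) := by
        obtain ⟨m, rfl⟩ : ∃ m, l = m + 1 := ⟨l - 1, by have := hl.pos; omega⟩
        rw [pow_succ]
        exact DI.MP.mul_left (DI.VP.pow hμQ.vp m) hμQ
      have h3 := DI.MP.add h1 h2
      rw [sub_add_cancel, map_sub, map_mul, hμτ, hu'τ] at h3
      have h4 := DI.MP.sub h3 hμQ
      have e4 : τ θ - μ * u' - (θ - μ * u') = τ θ - θ := by ring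
      rw [e4] at h4
      have h5 := DI.MP.mul_right h4 (DI.UP.inv hθU).1
      have e5 : (τ θ - θ) * θ⁻¹ = τ θ / θ - 1 := by
        field_simp
      rw [e5] at h5
      have h6 : (τ θ / θ) ^ p = 1 := by
        rw [div_pow, ← map_pow, hθ, GK_toO hτG g, div_self hgO]
      have h7 := Gwf_eps hp0 hpU h6 h5
      rw [hHθ]
      exact (div_eq_one_iff_eq hθ0).1 h7
  refine (hHθ τ0).1 (key ?_)
  rw [hM]
  refine Gwf_fix ?_
  rintro y (rfl | rfl)
  · exact mem_GK_iff.1 hτ0
  · exact hτζ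

end Pool.Agent.DN
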