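import Pool.Agent.Lib.DN.E.SpecA
import Pool.Agent.Lib.DK.E.Inc

/-!
# Theorem DN, part E: distinct algebraic numbers are incongruent almost everywhere (module `Inc`)
-/

set_option autoImplicit false

noncomputable section

namespace Pool.Agent.DN

open Pool.Agent.MuZ Pool.Agent.FW NumberField
open Pool.Agent.DI (io ofC io_inj exists_io io_ofC ofC_io VP MP UP TP ex)

/-- **Distinct algebraic numbers are incongruent almost everywhere.** -/
theorem sInc : S_Inc := Pool.Agent.DK.sInc

end Pool.Agent.DN
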