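import Pool.Agent.Lib.DN.E.SpecA

/-!
# Theorem DN, part E, module Iso: homogeneity for elements of `K`
-/

set_option autoImplicit false

open scoped Pointwise nonZeroDivisors

noncomputable section

namespace Pool.Agent.DN

variable {n t : ℕ}

private theorem Iso_sp (x y : OO n t) : sp (x * y) = sp x * sp y :=
  (Ideal.span_singleton_mul_span_singleton x y).symm

/-- Normalised elements (adapted from `Uq_norm` in `DN/E/Uq.lean`). -/
private theorem Iso_norm [SqN n t] {α α' : OO n t} (hα : Cop α 15)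
    (h3 : (3 : OO n t) ∣ α - α')
    (h5 : (5 : OO n t) ∣ α - α' ∨ (5 : OO n t) ∣ α + α') :
    ∃ β : OO n t, α * β ≠ 0 ∧ α' * β ≠ 0 ∧ (3 : OO n t) ∣ α * β - 1 ∧
      (5 : OO n t) ∣ α * β - 1 ∧ (3 : OO n t) ∣ α' * β - 1 ∧
      ((5 : OO n t) ∣ α' * β - 1 ∨ (5 : OO n t) ∣ α' * β + 1) := by
  obtain ⟨β, -, hβ⟩ := cop_inv hα
  have d3 : (3 : OO n t) ∣ α * β - 1 := by
    refine dvd_trans ?_ hβ
    exact ⟨5, by push_cast; norm_num⟩
  have d5 : (5 : OO n t) ∣ α * β - 1 := by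
    refine dvd_trans ?_ hβ
    exact ⟨3, by push_cast; norm_num⟩
  have d3' : (3 : OO n t) ∣ α' * β - 1 := by
    have e : α' * β - 1 = (α * β - 1) - (α - α') * β := by ring
    rw [e]
    exact dvd_sub d3 (h3.mul_right β)
  have d5' : (5 : OO n t) ∣ α' * β - 1 ∨ (5 : OO n t) ∣ α' * β + 1 := by
    rcases h5 with h5 | h5
    · left
      have e : α' * β - 1 = (α * β - 1) - (α - α') * β := by ring
      rw [e]
      exact dvd_sub d5 (h5.mul_right β)
    · right
      have e : α' * β + 1 = (α + α') * β - (α * β - 1) := by ring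
      rw [e]
      exact dvd_sub (h5.mul_right β) d5
  have h30 : ¬ (3 : OO n t) ∣ 0 - 1 := by
    intro h0
    have h1 : ((3 : ℕ) : OO n t) ∣ 0 - 1 := by exact_mod_cast h0
    have h2 := ((nat_dvd_iff 3 _).1 h1).1
    rw [zero_sub, QuadraticAlgebra.re_neg, re_one] at h2
    omega
  refine ⟨β, ?_, ?_, d3, d5, d3', d5'⟩
  · intro h0
    rw [h0] at d3
    exact h30 d3
  · intro h0
    rw [h0] at d3'
    exact h30 d3'

/-- **Homogeneity for elements of `K`.** -/
theorem sIso (hB7 : S_B7) : S_Iso := by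
  intro n t _ a a' α α' ha ha' hα hα' cα _ h3 h5 he b hb
  have gX : G15 (a * b) := Eb.g15_mul ha hb
  have gX' : G15 (a' * b) := Eb.g15_mul ha' hb
  have e : sp α * (a * b) = sp α' * (a' * b) := by
    rw [← mul_assoc, ← mul_assoc, he]
  obtain ⟨β, hc, hc', d3, d5, d3', d5'⟩ := Iso_norm cα h3 h5
  have eb : sp (α * β) * (a * b) = sp (α' * β) * (a' * b) := by
    calc sp (α * β) * (a * b) = sp β * (sp α * (a * b)) := by rw [Iso_sp]; ring
      _ = sp β * (sp α' * (a' * b)) := by rw [e]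
      _ = sp (α' * β) * (a' * b) := by rw [Iso_sp]; ring
  obtain ⟨f1, a1, c1, x1⟩ := ((hB7 n t (a * b) gX.ne).2.2 gX.cop).1 (α * β) hc d3 (Or.inl d5)
  obtain ⟨f2, a2, c2, x2⟩ := ((hB7 n t (a' * b) gX'.ne).2.2 gX'.cop).1 (α' * β) hc' d3' d5'
  rw [eb] at f1 a1 c1
  have hβ : β ≠ 0 := fun h0 => hc (by rw [h0, mul_zero])
  have cβ : toC β ≠ 0 := toC_ne hβ
  have cα' : toC α' ≠ 0 := toC_ne hα'
  have cc' : toC (α' * β) ≠ 0 := toC_ne hc'
  refine ⟨a2.symm.trans a1, c2.symm.trans c1, ?_, fun z => ?_⟩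
  · have h1 : toC (α' * β) * fr (a' * b) = toC (α * β) * fr (a * b) := f2.symm.trans f1
    rw [toC_mul, toC_mul] at h1
    refine mul_left_cancel₀ cβ ?_
    linear_combination h1
  · have ez : toC (α' * β) * (z / toC (α' * β)) = z := by field_simp
    have eμ : toC (α * β) * (z / toC (α' * β)) = toC α / toC α' * z := by
      rw [toC_mul, toC_mul]
      field_simp
    have ez' : toC α' * (z / toC α') = z := by field_simp
    have eμ' : toC α / toC α' * z = toC α * (z / toC α') := by ring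
    obtain ⟨u1, v1⟩ := x1 (z / toC (α' * β))
    obtain ⟨u2, v2⟩ := x2 (z / toC (α' * β))
    rw [eb, eμ] at u1 v1
    rw [ez] at u2 v2
    refine ⟨u2.symm.trans u1, v2.symm.trans v1, ?_⟩
    rw [eμ', ← lam_sp, e, lam_sp, ez']

end Pool.Agent.DN
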