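import Pool.Agent.Lib.DN.E.SpecA
import Pool.Agent.Lib.DN.Ded

/-!
# Theorem DN, part E: algebraic integers in `K`
-/

set_option autoImplicit false

noncomputable section

namespace Pool.Agent.DN

open Pool.Agent.MuZ Pool.Agent.FW NumberField
open Pool.Agent.DI (io ofC io_inj exists_io io_ofC ofC_io VP MP UP TP ex)

private theorem MO_isGalois : IsGalois ℚ Om := by
  have h : @IsGalois ℚ _ Om _ (AlgebraicClosure.instAlgebra ℚ) :=
    @IsAlgClosure.isGalois ℚ Om _ _ (AlgebraicClosure.instAlgebra ℚ) _ _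
  have hA : (DivisionRing.toRatAlgebra : Algebra ℚ Om) = AlgebraicClosure.instAlgebra ℚ :=
    Subsingleton.elim _ _
  rw [hA]
  exact h

/-- The elements of `K`. -/
private theorem MO_KQ (n t : ℕ) [SqN n t] (x : Om) (hx : x ∈ KQ n t) :
    ∃ (v : OO n t) (m : ℕ), 0 < m ∧ x = toO v / m := by
  have hx' : x ∈ IntermediateField.adjoin ℚ {wO n t} := hx
  refine IntermediateField.adjoin_induction (F := ℚ) (E := Om)
    (p := fun x _ => ∃ (v : OO n t) (m : ℕ), 0 < m ∧ x = toO v / m) ?_ ?_ ?_ ?_ ?_ hx'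
  · rintro y rfl
    exact ⟨wI n t, 1, one_pos, by rw [toO_wI]; simp⟩
  · intro r
    refine ⟨(r.num : OO n t), r.den, r.den_pos, ?_⟩
    rw [toO_int, eq_ratCast]
    conv_lhs => rw [← Rat.num_div_den r]
    push_cast
    rfl
  · rintro x y - - ⟨v, m, hm, rfl⟩ ⟨u, k, hk, rfl⟩
    refine ⟨v * k + u * m, m * k, Nat.mul_pos hm hk, ?_⟩
    have h1 : (m : Om) ≠ 0 := by exact_mod_cast hm.ne'
    have h2 : (k : Om) ≠ 0 := by exact_mod_cast hk.ne'
    rw [toO_add, toO_mul, toO_mul, toO_nat, toO_nat]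
    push_cast
    field_simp
  · rintro x - ⟨v, m, hm, rfl⟩
    by_cases hv : v = 0
    · refine ⟨0, 1, one_pos, ?_⟩
      rw [hv, toO_zero]
      simp
    · have hN := Nm_pos hv
      have hN1 : ((Nm v).toNat : ℤ) = Nm v := Int.toNat_of_nonneg (Nm_nonneg v)
      refine ⟨m * cjO v, (Nm v).toNat, by omega, ?_⟩
      have h2 : (((Nm v).toNat : ℕ) : Om) = toO v * toO (cjO v) := by
        rw [← toO_mul, mul_cjO, toO_int, ← hN1, Int.cast_natCast, Int.toNat_natCast]
      have h1 : (m : Om) ≠ 0 := by exact_mod_cast hm.ne'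
      have h3 : toO v ≠ 0 := toO_ne hv
      have h4 : toO (cjO v) ≠ 0 := by
        intro h0
        rw [h0, mul_zero] at h2
        have h5 : (Nm v).toNat = 0 := by exact_mod_cast h2
        omega
      rw [h2, toO_mul, toO_nat]
      field_simp
  · rintro x y - - ⟨v, m, hm, rfl⟩ ⟨u, k, hk, rfl⟩
    refine ⟨v * u, m * k, Nat.mul_pos hm hk, ?_⟩
    rw [toO_mul]
    push_cast
    rw [div_mul_div_comm]

theorem sMO : S_MO := by
  intro n t _ x hx hfix
  have hG : IsGalois ℚ Om := MO_isGalois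
  have h1 : x ∈ KQ n t := by
    have h2 := InfiniteGalois.fixedField_fixingSubgroup (k := ℚ) (K := Om) (KQ n t)
    rw [← h2, IntermediateField.mem_fixedField_iff]
    exact fun τ hτ => hfix τ hτ
  obtain ⟨v, m, hm, rfl⟩ := MO_KQ n t x h1
  have h3 : IsIntegral ℤ (toC v / m : ℂ) := by
    have h4 := map_isIntegral_int io hx
    rwa [map_div₀, io_toO, map_natCast] at h4
  obtain ⟨u, hu⟩ := mem_O v m hm h3
  refine ⟨u, ?_⟩
  have h5 : (m : Om) ≠ 0 := by exact_mod_cast hm.ne'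
  rw [hu, toO_mul, toO_nat]
  field_simp

end Pool.Agent.DN
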