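import Pool.Agent.Lib.DN.E.SpecA

/-!
# Theorem DN, part E, module OpA: submonoids containing an open subgroup are subgroups
-/

set_option autoImplicit false

open scoped Pointwise

noncomputable section

namespace Pool.Agent.DN

open Pool.Agent.MuZ Pool.Agent.FW NumberField

private lemma OpA_gal : IsGalois ℚ Om := by
  have h1 : Algebra.IsAlgebraic ℚ Om := by
    have h : @Algebra.IsAlgebraic ℚ Om _ _ (AlgebraicClosure.instAlgebra ℚ) :=
      AlgebraicClosure.isAlgebraic ℚ
    have e : (AlgebraicClosure.instAlgebra ℚ : Algebra ℚ Om) = DivisionRing.toRatAlgebra :=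
      Subsingleton.elim _ _
    rw [e] at h
    exact h
  have : IsAlgClosure ℚ Om := ⟨inferInstance, h1⟩
  infer_instance

/-- **Submonoids containing an open subgroup are subgroups.** -/
theorem sOpA : S_OpA := by
  intro n t _ U H hH hU hmul τ hτ
  have hgal := OpA_gal
  have hfin : Finite (Gal(Om/ℚ) ⧸ (U : Subgroup Gal(Om/ℚ))) :=
    Subgroup.quotient_finite_of_isOpen _ U.isOpen
  have hidx : (U : Subgroup Gal(Om/ℚ)).index ≠ 0 := Subgroup.index_ne_zero_of_finite
  obtain ⟨k, hk, -, hkU⟩ := Subgroup.exists_pow_mem_of_index_ne_zero hidx τ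
  have hpow : ∀ m : ℕ, τ ^ (m + 1) ∈ H := by
    intro m
    induction m with
    | zero => rwa [zero_add, pow_one]
    | succ m ih =>
      rw [pow_succ]
      exact hmul _ ih _ hτ
  have h1 : (τ ^ k)⁻¹ ∈ H := by
    refine hU _ ?_ ?_
    · exact (GK n t).inv_mem ((GK n t).pow_mem (hH hτ) k)
    · exact inv_mem hkU
  rcases k with _ | _ | k
  · exact absurd hk (lt_irrefl 0)
  · rwa [zero_add, pow_one] at h1
  · have e : τ⁻¹ = τ ^ (k + 1) * (τ ^ (k + 1 + 1))⁻¹ := by
      rw [pow_succ' τ (k + 1), mul_inv_rev, mul_inv_cancel_left]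
    rw [e]
    exact hmul _ (hpow k) _ h1

end Pool.Agent.DN
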