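import Pool.Agent.Lib.DN.E.SpecA

/-!
# Theorem DN, part E: inertia above `2`, the case `n = 1`
-/

set_option autoImplicit false

noncomputable section

namespace Pool.Agent.DN

open Pool.Agent.MuZ Pool.Agent.FW NumberField IsDedekindDomain
open Pool.Agent.DI (io ofC io_inj exists_io io_ofC ofC_io VP MP UP TP ex)

/-- The ideal of an element congruent to `± 1`. -/
private theorem Pr3_ray {n t : ℕ} [SqN n t] {N : ℕ} {γ : OO n t} (hγ : γ ≠ 0)
    (h : (N : OO n t) ∣ γ - 1 ∨ (N : OO n t) ∣ γ + 1) : Ray N (sp γ) (⊤ : Ideal (OO n t)) := by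
  rcases h with h | h
  · have h1 : (N : OO n t) ∣ 1 - γ := by
      have h2 := h.neg_right
      rwa [neg_sub] at h2
    refine ⟨1, γ, one_ne_zero, hγ, cop_one N, cop_congr h1 (cop_one N), h1, ?_⟩
    rw [Ideal.mul_top, ← sp_mul', one_mul]
  · have h1 : (N : OO n t) ∣ 1 - -γ := by
      have e : 1 - -γ = γ + 1 := by ring
      rwa [e]
    refine ⟨1, -γ, one_ne_zero, neg_ne_zero.2 hγ, cop_one N, cop_congr h1 (cop_one N), h1, ?_⟩
    rw [Ideal.mul_top, ← sp_mul', one_mul]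
    exact (Ideal.span_singleton_neg γ).symm

/-- The unit `w`. -/
private theorem Pr3_unit {t : ℕ} : IsUnit (wI 1 t) := by
  have h1 : Nm (wI 1 t) = 1 := by
    simp [Nm, wI]
  have h2 := mul_cjO (wI 1 t)
  rw [h1, Int.cast_one] at h2
  exact IsUnit.of_mul_eq_one _ h2

/-- Multiplication by a power of `w`. -/
private theorem Pr3_adj (hAfi : S_Afi) (hAff : S_Aff) (hAf3 : S_Af3) (t : ℕ) [Ine 1 t]
    (P : Ideal ZZ) (hP : Ab2 P) (N : ℕ) (hN : Odd N) (h15 : 15 ∣ N) (γ : OO 1 t) (al r : Om)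
    (h : AfM P N γ al r) :
    ∃ (γ' : OO 1 t) (al' r' : Om), sp γ' = sp γ ∧ AfM P N γ' al' r' ∧ MP P (al' - 1) := by
  have : P.IsPrime := hP.1.1
  by_cases h1 : MP P (al - 1)
  · exact ⟨γ, al, r, rfl, h, h1⟩
  · have h3 : 3 ≤ N := by
      have := Nat.le_of_dvd hN.pos h15
      omega
    obtain ⟨-, -, -, hmul, -⟩ := hAfi 1 t P hP N hN h3
    obtain ⟨r', hw⟩ := hAff.2 t P hP N hN h15
    have hW2 : toO (wI 1 t) ^ 2 = toO (wI 1 t) - 1 := by
      have ht : (t : Om) = 1 := by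
        rw [Ine.one (n := 1) (t := t)]
        exact Nat.cast_one
      rw [toO_wI, wO_sq, ht, Nat.cast_one, one_mul]
    have hinv : (toO (wI 1 t) ^ 2)⁻¹ = -toO (wI 1 t) := by
      refine inv_eq_of_mul_eq_one_right ?_
      linear_combination (-toO (wI 1 t) - 1) * hW2
    rw [hinv] at hw
    have hVW : VP P (toO (wI 1 t)) := toO_VP _
    have h2 := ((hAf3 1 t P hP N hN h15 γ al r h).2.2 h1).1
    have h4 : MP P ((al + toO (wI 1 t)) * (al - toO (wI 1 t) + 1)) := by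
      have e : (al + toO (wI 1 t)) * (al - toO (wI 1 t) + 1) = al ^ 2 + al + 1 := by
        linear_combination (-1 : Om) * hW2
      rwa [e]
    have hval : VP P al := h.hal.1
    have h5 := hmul _ _ _ _ _ _ h hw
    rcases DI.MP.mul_cases (hval.add hVW) ((hval.sub hVW).add DI.VP.one) h4 with h6 | h6
    · have h7 := hmul _ _ _ _ _ _ h5 hw
      refine ⟨γ * wI 1 t * wI 1 t, _, _, ?_, h7, ?_⟩
      · unfold sp
        rw [Ideal.span_singleton_mul_right_unit Pr3_unit, Ideal.span_singleton_mul_right_unit Pr3_unit]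
      · have e : al * -toO (wI 1 t) * -toO (wI 1 t) - 1 = (al + toO (wI 1 t)) * toO (wI 1 t) ^ 2 := by
          linear_combination (-toO (wI 1 t) - 1) * hW2
        rw [e]
        exact DI.MP.mul_right h6 (hVW.pow 2)
    · refine ⟨γ * wI 1 t, _, _, ?_, h5, ?_⟩
      · unfold sp
        rw [Ideal.span_singleton_mul_right_unit Pr3_unit]
      · have e : al * -toO (wI 1 t) - 1 = (al - toO (wI 1 t) + 1) * -toO (wI 1 t) := by
          linear_combination (-1 : Om) * hW2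
        rw [e]
        exact DI.MP.mul_right h6 hVW.neg

theorem sPr3 (hO6 : S_O6) (hO7 : S_O7) (hE1 : S_E1) (hDq : S_Dq) (hAux : S_Aux) (hAfi : S_Afi)
    (hAff : S_Aff) (hAf3 : S_Af3) (hAfx : S_Afx) (hEis : S_Eis) : S_Pr3 := by
  intro t _ P hP τ hτ hi N a hN h15 hψ
  obtain ⟨⟨q, l, hq, hl, hl4⟩, -⟩ := hAux 1 t (30 * N) (Nat.mul_pos (by norm_num) hN.pos)
  have hl30 : l.Coprime 30 := hl.coprime_mul_right_right
  have hlo : Odd l := by
    have h1 : l.Coprime 2 := Nat.Coprime.coprime_dvd_right (by norm_num) hl30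
    exact Nat.Coprime.odd_of_right h1
  have hN'o : Odd (N * l) := hN.mul hlo
  have hN'15 : 15 ∣ N * l := h15.mul_right l
  have hN'p : 0 < N * l := hN'o.pos
  obtain ⟨a', ha'⟩ := (hE1 1 t (2 * (N * l)) (by omega) (hN'15.mul_left 2)).1 τ hτ
  have haN' : Psi τ (N * l) a' := Eb.psi_level ha' (dvd_mul_left _ _)
  have haN : Psi τ N a' := Eb.psi_level haN' (dvd_mul_right _ _)
  have hR : Ray N a' a := (hE1 1 t N hN.pos h15).2.1 τ a' a haN hψ
  obtain ⟨γ, hγ, rfl⟩ := hEis t a' ha'.ne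
  have hc2 : Cop γ 2 := by
    refine ((hO6 1 t).2.2.2.1 2 γ two_pos).1 ?_
    exact Eb.pri_dvd ha'.cop ⟨15 * (N * l), by ring⟩
  obtain ⟨al, r, hA⟩ := hAff.1 1 t P hP τ hi (N * l) γ hN'o hN'15 hγ hc2 haN'
  obtain ⟨γ', al', r', hsp, hA', hal'⟩ := Pr3_adj hAfi hAff hAf3 t P hP (N * l) hN'o hN'15 γ al r hA
  have hγ' : γ' ≠ 0 := by
    rintro rfl
    apply hγ
    rw [← Ideal.span_singleton_eq_bot]
    change sp γ = ⊥
    rw [← hsp]
    exact Ideal.span_singleton_eq_bot.2 rfl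
  obtain ⟨d1, d2, -, -, -⟩ := hDq 1 t q l hq
  have hN'q : ∀ x : OO 1 t, ((N * l : ℕ) : OO 1 t) ∣ x → x ∈ q := by
    rintro x ⟨y, rfl⟩
    refine Ideal.mul_mem_right _ _ ?_
    have h1 := (d1 ((N * l : ℕ) : ℤ)).2 ⟨N, by push_cast; ring⟩
    rwa [Int.cast_natCast] at h1
  have h3 : 3 ≤ N * l := by
    have := Nat.le_of_dvd hN'p hN'15
    omega
  have hpm : γ' - 1 ∈ q ∨ γ' + 1 ∈ q := by
    rcases (hAf3 1 t P hP (N * l) hN'o hN'15 γ' al' r' hA').2.1 hal' with h | h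
    · have h1 := hN'q _ h
      have e : γ' ^ 2 - 1 = (γ' - 1) * (γ' + 1) := by ring
      rw [e] at h1
      exact hq.1.mem_or_mem h1
    · exact (d2 hl4 γ' (hN'q _ h)).elim
  have hfin := (hAfx 1 t P hP (N * l) hN'o h3 γ' al' r' hA').2 q l hq (dvd_mul_left _ _) hl30 hpm
  have hNN : (N : OO 1 t) ∣ ((N * l : ℕ) : OO 1 t) := ⟨(l : OO 1 t), by push_cast; ring⟩
  have hfin' : (N : OO 1 t) ∣ γ' - 1 ∨ (N : OO 1 t) ∣ γ' + 1 :=
    hfin.imp hNN.trans hNN.trans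
  have hR' : Ray N (sp γ) (⊤ : Ideal (OO 1 t)) := by
    rw [← hsp]
    exact Pr3_ray hγ' hfin'
  obtain ⟨-, o2, o3, -⟩ := hO7 1 t N hN.pos
  exact o3 _ _ _ (o2 _ _ hR) hR'

end Pool.Agent.DN
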