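import Pool.Agent.Lib.DN.E.SpecA

/-!
# Theorem DN, part E, module Pri: inertia, principal classes, `n ≠ 1`
-/

set_option autoImplicit false

open scoped Pointwise nonZeroDivisors

noncomputable section

namespace Pool.Agent.DN

open Pool.Agent.MuZ Pool.Agent.FW NumberField IsDedekindDomain
open Pool.Agent.DI (io ofC io_inj exists_io io_ofC ofC_io VP MP UP TP ex)

/-- Multiples of `N` are in `q`. -/
private theorem Pri_mem (dq : S_Dq) {n t : ℕ} [SqN n t] {q : Ideal (OO n t)} {l N : ℕ} (hq : Deg1 q l)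
    (hl : l ∣ N) {x : OO n t} (h : (N : OO n t) ∣ x) : x ∈ q := by
  have h1 : ((N : ℤ) : OO n t) ∈ q := ((dq n t q l hq).1 (N : ℤ)).2 (by exact_mod_cast hl)
  obtain ⟨c, rfl⟩ := h
  rw [Int.cast_natCast] at h1
  exact q.mul_mem_right c h1

/-- **PRINCIPAL CLASSES**, `n ≠ 1`. -/
theorem sPri (o6 : S_O6) (o7 : S_O7) (e1 : S_E1) (dq : S_Dq) (aux : S_Aux) (aff : S_Aff) (af3 : S_Af3)
    (afx : S_Afx) : S_Pri := by
  intro n t _ hn1 P hP τ hτ hin N a hNo h15 hPsi hPr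
  have hN0 : 0 < N := hNo.pos
  obtain ⟨⟨q₁, l₁, hq₁, hl₁, h43⟩, -⟩ := aux n t (30 * N) (by positivity)
  have hl₁0 : 0 < l₁ := by omega
  obtain ⟨q₂, l₂, hq₂, hl₂, h32⟩ := (aux n t (30 * N * l₁) (by positivity)).2 hn1
  have hl₂0 : 0 < l₂ := by omega
  -- the level `N'`
  obtain ⟨N', hN'⟩ : ∃ N', N' = N * l₁ * l₂ := ⟨_, rfl⟩
  have hNN' : N ∣ N' := ⟨l₁ * l₂, by rw [hN']; ring⟩
  have hl₁N' : l₁ ∣ N' := ⟨N * l₂, by rw [hN']; ring⟩
  have hl₂N' : l₂ ∣ N' := ⟨N * l₁, by rw [hN']; ring⟩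
  have hl₁30 : l₁.Coprime 30 := Nat.Coprime.coprime_dvd_right ⟨N, rfl⟩ hl₁
  have hl₂30 : l₂.Coprime 30 := Nat.Coprime.coprime_dvd_right ⟨N * l₁, by ring⟩ hl₂
  have hodd₁ : Odd l₁ := (Nat.coprime_two_right.1 (Nat.Coprime.coprime_dvd_right (by norm_num) hl₁30))
  have hodd₂ : Odd l₂ := (Nat.coprime_two_right.1 (Nat.Coprime.coprime_dvd_right (by norm_num) hl₂30))
  have hN'o : Odd N' := by
    rw [hN']
    exact (hNo.mul hodd₁).mul hodd₂
  have hN'0 : 0 < N' := hN'o.pos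
  have h15' : 15 ∣ N' := h15.trans hNN'
  -- the ideal `a' = sp γ` at the level `2 N'`
  obtain ⟨f1, -, -, -, f5⟩ := e1 n t (2 * N') (by positivity) (h15'.mul_left 2)
  obtain ⟨a', ha'⟩ := f1 τ hτ
  have hpN' : Psi τ N' a' := f5 τ N' a' ha' ⟨2, by ring⟩ h15'
  have hpN : Psi τ N a' := f5 τ N a' ha' (hNN'.mul_left 2) h15
  have hray : Ray N a' a := (e1 n t N hN0 h15).2.1 τ a' a hpN hPsi
  obtain ⟨γ, hγ, rfl⟩ : Prc a' := by
    obtain ⟨α, α', hα, hα', -, -, -, h⟩ := hray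
    exact prc_of hα hα' h hPr
  have hγ2 : Cop γ 2 := by
    refine ((o6 n t).2.2.2.1 2 γ (by norm_num)).1 (Eb.pri_dvd ha'.cop ⟨15 * N', by ring⟩)
  obtain ⟨al, r, hA⟩ := aff.1 n t P hP τ hin N' γ hN'o h15' hγ hγ2 hpN'
  obtain ⟨-, g2, g3⟩ := af3 n t P hP N' hN'o h15' γ al r hA
  have h3N' : 3 ≤ N' := by
    have := Nat.le_of_dvd hN'0 h15'
    omega
  obtain ⟨-, k2⟩ := afx n t P hP N' hN'o h3N' γ al r hA
  -- the claim for `N'`
  have hmain : (N' : OO n t) ∣ γ - 1 ∨ (N' : OO n t) ∣ γ + 1 := by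
    by_cases hal : MP P (al - 1)
    · refine k2 q₁ l₁ hq₁ hl₁N' hl₁30 ?_
      rcases g2 hal with h | h
      · have h1 : (γ - 1) * (γ + 1) ∈ q₁ := by
          have e : (γ - 1) * (γ + 1) = γ ^ 2 - 1 := by ring
          rw [e]
          exact Pri_mem dq hq₁ hl₁N' h
        exact hq₁.1.mem_or_mem h1
      · exact absurd (Pri_mem dq hq₁ hl₁N' h) ((dq n t q₁ l₁ hq₁).2.1 h43 γ)
    · refine k2 q₂ l₂ hq₂ hl₂N' hl₂30 ?_
      rcases (g3 hal).2 with h | h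
      · exact Or.inl ((dq n t q₂ l₂ hq₂).2.2.1 h32 γ (Pri_mem dq hq₂ hl₂N' h))
      · right
        have h1 : (-γ) ^ 3 - 1 ∈ q₂ := by
          have e : (-γ) ^ 3 - 1 = -(γ ^ 3 + 1) := by ring
          rw [e]
          exact q₂.neg_mem (Pri_mem dq hq₂ hl₂N' h)
        have h2 := q₂.neg_mem ((dq n t q₂ l₂ hq₂).2.2.1 h32 (-γ) h1)
        have e : -(-γ - 1) = γ + 1 := by ring
        rwa [e] at h2
  -- the ray class of `sp γ`
  have hNO : (N : OO n t) ∣ (N' : OO n t) := Nat.cast_dvd_cast hNN'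
  have hcop : Cop γ N := by
    have h1 := hA.cop
    unfold Cop at h1 ⊢
    exact h1.of_isCoprime_of_dvd_right (by exact_mod_cast hNN')
  obtain ⟨-, r2, r3, -, -, -, -, r8, -⟩ := o7 n t N hN0
  have htop : sp (1 : OO n t) = (⊤ : Ideal (OO n t)) := Ideal.span_singleton_one
  have hγray : Ray N (sp γ) (⊤ : Ideal (OO n t)) := by
    rw [← htop]
    refine (r8 γ 1 hγ one_ne_zero hcop (cop_one N)).2 ?_
    rcases hmain with h | h
    · exact ⟨1, Nm_one, by rw [mul_one]; exact hNO.trans h⟩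
    · refine ⟨-1, by rw [Nm_neg, Nm_one], ?_⟩
      have e : γ - -1 * 1 = γ + 1 := by ring
      rw [e]
      exact hNO.trans h
  exact r3 _ _ _ (r2 _ _ hray) hγray

end Pool.Agent.DN
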