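import Pool.Agent.Lib.DN.E.SpecA

/-!
# Theorem DN, part E: `Psi` implies `τ ∈ GK` (module `PsK`; author helper9)
-/

set_option autoImplicit false

open scoped Pointwise nonZeroDivisors

noncomputable section

namespace Pool.Agent.DN

open Pool.Agent.MuZ Pool.Agent.FW NumberField IsDedekindDomain
open Pool.Agent.DI (io ofC io_inj exists_io io_ofC ofC_io VP MP UP TP ex)

variable {n t : ℕ}

/-- A point `z` with `conj z ± μ z` in the lattice. -/
private theorem PsK_pm [Ine n t] (l5 : S_L5) (b1 : S_B1) (r1 : S_R1) {A a' : Ideal (OO n t)} {N : ℕ}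
    (hN : 0 < N) (gA : G15 A) (pA : PrI A N) (ga' : G15 a') (pa' : PrI a' N) {μ : ℂ}
    (hX : ∀ z : ℂ, XC a' z = XC A (μ * z)) (hL : ∀ z : ℂ, z ∈ Lam a' ↔ μ * z ∈ Lam A)
    (hi : ∀ z : ℂ, (N : ℂ) * z ∈ Lam (⊤ : Ideal (OO n t)) →
      xO a' z = xO A ((starRingEnd ℂ) z)) {z : ℂ}
    (hz : (N : ℂ) * z ∈ Lam (⊤ : Ideal (OO n t))) (hz' : z ∉ Lam (⊤ : Ideal (OO n t))) :
    (starRingEnd ℂ) z - μ * z ∈ Lam A ∨ (starRingEnd ℂ) z + μ * z ∈ Lam A := by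
  have htop : (⊤ : Ideal (OO n t)) ≠ ⊥ := top_ne_bot
  have hcj : ∀ y : ℂ, y ∈ Lam (⊤ : Ideal (OO n t)) →
      (starRingEnd ℂ) y ∈ Lam (⊤ : Ideal (OO n t)) := by
    intro y hy
    obtain ⟨v, rfl⟩ := lam_top.1 hy
    exact lam_top.2 ⟨cjO v, conj_toC v⟩
  have hcz : (N : ℂ) * (starRingEnd ℂ) z ∈ Lam (⊤ : Ideal (OO n t)) := by
    have h := hcj _ hz
    rwa [map_mul, map_natCast] at h
  have hcz' : (starRingEnd ℂ) z ∉ Lam (⊤ : Ideal (OO n t)) := by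
    intro h
    apply hz'
    have h2 := hcj _ h
    rwa [Complex.conj_conj] at h2
  have h5 : ∀ (c : Ideal (OO n t)) (y : ℂ), c ≠ ⊥ → PrI c N → (N : ℂ) * y ∈ Lam (⊤ : Ideal (OO n t)) →
      y ∉ Lam (⊤ : Ideal (OO n t)) → y ∉ Lam c := by
    intro c y hc hcN hy hy' h
    apply hy'
    refine (l5 n t c ⊤ N hc htop hN hcN).1 y hy ?_
    rwa [Ideal.mul_top]
  have hzA : (starRingEnd ℂ) z ∉ Lam A := h5 A _ gA.ne pA hcz hcz'
  have hza' : z ∉ Lam a' := h5 a' _ ga'.ne pa' hz hz'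
  have hμz : μ * z ∉ Lam A := fun h => hza' ((hL z).2 h)
  have htz : Tor n t z := (tor_iff htop).2 ⟨N, hN, hz⟩
  have htcz : Tor n t ((starRingEnd ℂ) z) := (tor_iff htop).2 ⟨N, hN, hcz⟩
  have e1 : XC A ((starRingEnd ℂ) z) = XC A (μ * z) := by
    rw [← hX z, ← (((r1.1 n t).1 a' ga').2.2.1 z htz).1, hi z hz,
      (((r1.1 n t).1 A gA).2.2.1 _ htcz).1]
  obtain ⟨-, -, -, b4, -, b6⟩ := b1 n t A gA.ne
  have hfr : fr A ^ 2 ≠ 0 := pow_ne_zero 2 (b6 gA.cop).1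
  unfold XC at e1
  have e2 := (div_left_inj' hfr).1 e1
  exact (b4 _ _ hzA hμz).1 (sub_left_injective e2)

/-- **`Psi` implies `τ ∈ GK`.** -/
theorem sPsK (o3 : S_O3) (l5 : S_L5) (l6 : S_L6) (b1 : S_B1) (b13 : S_B13) (r1 : S_R1) (e1 : S_E1)
    (iso : S_Iso) : S_PsK := by
  intro n t _ τ N a hN h15 hP
  rw [mem_GK_iff]
  have ht1 : t = 1 := Ine.one n
  have htop : (⊤ : Ideal (OO n t)) ≠ ⊥ := top_ne_bot
  have hsq := congrArg (τ : Om → Om) (wO_sq (n := n) (t := t))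
  rw [map_pow, map_sub, map_mul, map_natCast, map_natCast] at hsq
  have hfac : (τ (wO n t) - wO n t) * (τ (wO n t) - (t - wO n t)) = 0 := by
    linear_combination hsq - wO_sq (n := n) (t := t)
  rcases mul_eq_zero.1 hfac with h | h
  · exact sub_eq_zero.1 h
  exfalso
  have hτ : τ (wO n t) = t - wO n t := sub_eq_zero.1 h
  obtain ⟨c, hc, hcx⟩ := r1.2
  have hcw : c (wO n t) = t - wO n t := by
    apply io_inj
    rw [hc, io_wO, conj_wC, map_sub, map_natCast, io_wO]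
  have hσ : c * τ ∈ GK n t := by
    rw [mem_GK_iff, AlgEquiv.mul_apply, hτ, map_sub, map_natCast, hcw]
    ring
  obtain ⟨a', ha'⟩ := (e1 n t N hN h15).1 _ hσ
  have ga : G15 a := Eb.psi_g15 hP
  have ga' : G15 a' := Eb.psi_g15 ha'
  have pa' : PrI a' N := Eb.psi_pri ha'
  have pA : PrI (cjI a) N := ((o3 n t).2.2.2.2.1 a N).2 (Eb.psi_pri hP)
  have gA : G15 (cjI a) := ⟨Eb.ne_cj o3 ga.ne, ((o3 n t).2.2.2.2.1 a 15).2 ga.cop⟩
  have pt15 : PrI (⊤ : Ideal (OO n t)) 15 := Eb.pri_top 15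
  obtain ⟨cA1, cA3, cX⟩ := hcx n t a ga
  have h1 : a1O a' = a1O (cjI a) := by
    have h1 := ha'.a1 ⊤ htop pt15
    rw [Ideal.mul_top, AlgEquiv.mul_apply, hP.a1 ⊤ htop pt15, Ideal.mul_top, cA1] at h1
    exact h1.symm
  have h3 : a3O a' = a3O (cjI a) := by
    have h1 := ha'.a3 ⊤ htop pt15
    rw [Ideal.mul_top, AlgEquiv.mul_apply, hP.a3 ⊤ htop pt15, Ideal.mul_top, cA3] at h1
    exact h1.symm
  have hx : ∀ z : ℂ, (N : ℂ) * z ∈ Lam (⊤ : Ideal (OO n t)) →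
      xO a' z = xO (cjI a) ((starRingEnd ℂ) z) := by
    intro z hz
    have h1 := ha'.xx ⊤ htop pt15 z hz
    rw [Ideal.mul_top, AlgEquiv.mul_apply, hP.xx ⊤ htop pt15 z hz, Ideal.mul_top,
      (cX z ((tor_iff htop).2 ⟨N, hN, hz⟩)).1] at h1
    exact h1.symm
  have g1 := ((r1.1 n t).1 a' ga')
  have g2 := ((r1.1 n t).1 (cjI a) gA)
  obtain ⟨α, α', hα, hα', hcα, hcα', hαa, h33, h55⟩ := b13 n t (cjI a) a' gA ga'
    (by rw [← g1.1, ← g2.1, h1]) (by rw [← g1.2.1, ← g2.2.1, h3])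
  obtain ⟨-, -, -, hiso⟩ := iso n t (cjI a) a' α α' gA ga' hα hα' hcα hcα' h33 h55 hαa ⊤ Eb.g15_top
  rw [Ideal.mul_top, Ideal.mul_top] at hiso
  obtain ⟨μ, hμ⟩ : ∃ μ : ℂ, μ = toC α / toC α' := ⟨_, rfl⟩
  rw [← hμ] at hiso
  have hpm : ∀ z : ℂ, (N : ℂ) * z ∈ Lam (⊤ : Ideal (OO n t)) → z ∉ Lam (⊤ : Ideal (OO n t)) →
      (starRingEnd ℂ) z - μ * z ∈ Lam (cjI a) ∨ (starRingEnd ℂ) z + μ * z ∈ Lam (cjI a) :=
    fun z hz hz' => PsK_pm l5 b1 r1 hN gA pA ga' pa' (fun z => (hiso z).1)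
      (fun z => (hiso z).2.2) hx hz hz'
  have hNC : (N : ℂ) ≠ 0 := by exact_mod_cast hN.ne'
  have hN15 : 15 ≤ N := Nat.le_of_dvd hN h15
  have hnd : ¬ ((N : ℤ) ∣ 1) := by
    intro h
    have := Int.le_of_dvd one_pos h
    omega
  have hdiv : ∀ v : OO n t, (N : ℂ) * (toC v / N) ∈ Lam (⊤ : Ideal (OO n t)) := fun v =>
    lam_top.2 ⟨v, by field_simp⟩
  have hnt : ∀ v : OO n t, ¬ (N : OO n t) ∣ v → toC v / N ∉ Lam (⊤ : Ideal (OO n t)) :=
    fun v hv h => hv ((l6.1 n t ⊤ N htop hN (Eb.pri_top N) v).1 h)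
  -- the point `1/N`
  have k1 : ∃ e : ℂ, (e = 1 ∨ e = -1) ∧ (1 - e * μ) / N ∈ Lam (cjI a) := by
    have h := hpm (toC (1 : OO n t) / N) (hdiv 1) (hnt 1 (fun h => hnd (by
      have := ((nat_dvd_iff N (1 : OO n t)).1 h).1
      rwa [re_one] at this)))
    rw [toC_one, map_div₀, map_one, map_natCast] at h
    rcases h with h | h
    · refine ⟨1, Or.inl rfl, ?_⟩
      have e : (1 - 1 * μ) / (N : ℂ) = 1 / N - μ * (1 / N) := by ring
      rwa [e]
    · refine ⟨-1, Or.inr rfl, ?_⟩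
      have e : (1 - -1 * μ) / (N : ℂ) = 1 / N + μ * (1 / N) := by ring
      rwa [e]
  obtain ⟨e, he, hk1⟩ := k1
  -- the point `w/N`
  have k2 : ∃ e' : ℂ, (e' = 1 ∨ e' = -1) ∧
      (toC (1 - wI n t) - e' * μ * toC (wI n t)) / N ∈ Lam (cjI a) := by
    have h := hpm (toC (wI n t) / N) (hdiv _) (hnt _ (fun h => hnd (by
      have := ((nat_dvd_iff N (wI n t)).1 h).2
      simpa [wI] using this)))
    have ec : (starRingEnd ℂ) (toC (wI n t) / N) = toC (1 - wI n t) / N := by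
      rw [map_div₀, map_natCast, toC_wI, conj_wC, toC_sub, toC_one, toC_wI, ht1, Nat.cast_one]
    rw [ec] at h
    rcases h with h | h
    · refine ⟨1, Or.inl rfl, ?_⟩
      have e : (toC (1 - wI n t) - 1 * μ * toC (wI n t)) / (N : ℂ) =
          toC (1 - wI n t) / N - μ * (toC (wI n t) / N) := by ring
      rwa [e]
    · refine ⟨-1, Or.inr rfl, ?_⟩
      have e : (toC (1 - wI n t) - -1 * μ * toC (wI n t)) / (N : ℂ) =
          toC (1 - wI n t) / N + μ * (toC (wI n t) / N) := by ring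
      rwa [e]
  obtain ⟨e', he', hk2⟩ := k2
  have hk3 := lam_mul (wI n t) hk1
  have hfin : ∀ s : ℤ, (s = 1 ∨ s = -1) → toC (1 - wI n t - (s : OO n t) * wI n t) / N ∉ Lam (cjI a) := by
    intro s _ h
    have h2 := (l6.1 n t (cjI a) N gA.ne hN pA _).1 h
    have h3 := ((nat_dvd_iff N _).1 h2).1
    rw [QuadraticAlgebra.re_sub, QuadraticAlgebra.re_sub, re_mul, re_one, im_int] at h3
    simp [wI] at h3
    exact hnd h3
  rcases he with rfl | rfl <;> rcases he' with rfl | rfl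
  · refine hfin 1 (Or.inl rfl) ?_
    have h := lam_sub hk2 hk3
    rw [toC_sub, toC_mul, toC_int]
    convert h using 1
    push_cast
    ring
  · refine hfin (-1) (Or.inr rfl) ?_
    have h := lam_add hk2 hk3
    rw [toC_sub, toC_mul, toC_int]
    convert h using 1
    push_cast
    ring
  · refine hfin (-1) (Or.inr rfl) ?_
    have h := lam_add hk2 hk3
    rw [toC_sub, toC_mul, toC_int]
    convert h using 1
    push_cast
    ring
  · refine hfin 1 (Or.inl rfl) ?_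
    have h := lam_sub hk2 hk3
    rw [toC_sub, toC_mul, toC_int]
    convert h using 1
    push_cast
    ring

end Pool.Agent.DN
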