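import Pool.Agent.Lib.DN.E.SpecA

/-!
# Theorem DN, part E: `A1` is divisible by `2`
-/

set_option autoImplicit false

noncomputable section

namespace Pool.Agent.DN

open Pool.Agent.MuZ Pool.Agent.FW NumberField IsDedekindDomain
open Pool.Agent.DI (io ofC io_inj exists_io io_ofC ofC_io VP MP UP TP ex)

private theorem R2b_GK {n t : ℕ} [Ine n t] {P : Ideal ZZ} (hP : Npr P) (h2 : MP P 2)
    {τ : Gal(Om/ℚ)} (hτ : τ ∈ P.inertia Gal(Om/ℚ)) : τ ∈ GK n t := by
  have : P.IsPrime := hP.1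
  rw [mem_GK_iff]
  have hv : VP P (wO n t) := by
    have h := toO_VP (P := P) (wI n t)
    rwa [toO_wI] at h
  have h := DI.VP.inertia hτ hv
  have hsq := wO_sq (n := n) (t := t)
  have h3 : (τ (wO n t) - wO n t) * (τ (wO n t) - (t - wO n t)) = 0 := by
    have h4 := congrArg τ hsq
    simp only [map_sub, map_mul, map_pow, map_natCast] at h4
    linear_combination h4 - hsq
  rcases mul_eq_zero.1 h3 with h5 | h5
  · exact sub_eq_zero.1 h5
  · exfalso
    have h6 : τ (wO n t) = t - wO n t := sub_eq_zero.1 h5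
    have ht : (t : Om) = 1 := by
      rw [Ine.one (n := n) (t := t)]
      exact Nat.cast_one
    rw [h6] at h
    have h7 : MP P ((t : Om) - wO n t - wO n t + 2 * wO n t) := DI.MP.add h (DI.MP.mul_right h2 hv)
    have h8 : (t : Om) - wO n t - wO n t + 2 * wO n t = 1 := by
      linear_combination ht
    rw [h8] at h7
    exact DI.MP.one_not h7

theorem sR2b (hR2a : S_R2a) (hE4a : S_E4a) (hUnI : S_UnI) : S_R2b := by
  intro n t _ P hP b hb
  have h1 : MP P (a1O b) := ((hR2a n t).1 P hP).2 b hb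
  have h2 : MP P ((2 : ℕ) : Om) := by
    rw [Nat.cast_ofNat]
    exact hP.2
  have h3 := hUnI P 2 hP.1 Nat.prime_two h2 (a1O b) ?_ h1
  · rwa [Nat.cast_ofNat] at h3
  · intro τ hτ
    have h4 := hE4a n t P hP τ (R2b_GK hP.1 hP.2 hτ) hτ 15 (by decide) (dvd_refl 15)
    have h5 := h4.a1 b hb.ne hb.cop
    rwa [Ideal.top_mul] at h5

end Pool.Agent.DN
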