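import Pool.Agent.Lib.DN.E.SpecA
import Pool.Agent.Lib.FW.E.Ine

/-!
# DN, part E, module UnI: the inertia field is unramified (helper60)

Adapted from `DN/GL/Ram.lean` (helper99) and `DT/GL/UnrT.lean` (helper47).
-/

set_option autoImplicit false

open scoped Pointwise

noncomputable section

namespace Pool.Agent.DN

open Pool.Agent.MuZ Pool.Agent.FW
open Pool.Agent.DI (io ofC io_inj exists_io io_ofC ofC_io VP MP UP TP ex)
open IsDedekindDomain
open scoped NumberField WithZero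

/-- The valuation of `p` at a prime above `p` of a Galois extension of `ℚ`. -/
private theorem UnI_p (L : Type) [Field L] [NumberField L] [IsGalois ℚ L] (p : ℕ) (hp : p.Prime)
    (w : HeightOneSpectrum (𝓞 L)) (h2 : (p : 𝓞 L) ∈ w.asIdeal) :
    w.valuation L (p : L) = WithZero.exp (-1 : ℤ) ^ Nat.card (w.asIdeal.inertia Gal(L/ℚ)) := by
  have hp2 : Prime (p : ℤ) := Nat.prime_iff_prime_int.1 hp
  have hp0 : (p : ℤ) ≠ 0 := hp2.ne_zero
  have hv : Ideal.span {(p : ℤ)} ≠ ⊥ := by
    rw [Ne, Ideal.span_singleton_eq_bot]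
    exact hp0
  let v : HeightOneSpectrum ℤ :=
    ⟨Ideal.span {(p : ℤ)}, (Ideal.span_singleton_prime hp0).2 hp2, hv⟩
  have hwP : w.asIdeal.IsPrime := w.isPrime
  have hvP : v.asIdeal.IsPrime := v.isPrime
  have hlies : w.asIdeal.LiesOver v.asIdeal := by
    refine (Ideal.liesOver_span_iff hwP.ne_top hp2).2 ?_
    rw [map_natCast]
    exact h2
  have hgg : IsGaloisGroup Gal(L/ℚ) ℤ (𝓞 L) := IsGaloisGroup.of_isFractionRing Gal(L/ℚ) ℤ (𝓞 L) ℚ L
  have h3 : Nat.card (w.asIdeal.inertia Gal(L/ℚ)) = Ideal.ramificationIdxIn v.asIdeal (𝓞 L) :=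
    Ideal.card_inertia_eq_ramificationIdxIn v.asIdeal w.asIdeal
  have h4 := Ideal.ramificationIdxIn_eq_ramificationIdx v.asIdeal w.asIdeal Gal(L/ℚ)
  have h5 : v.asIdeal.ramificationIdx' w.asIdeal = w.asIdeal.ramificationIdx ℤ :=
    Ideal.ramificationIdx'_eq_ramificationIdx v.asIdeal w.asIdeal v.ne_bot
  have h6 := HeightOneSpectrum.intValuation_liesOver v w (p : ℤ)
  have h9 : algebraMap ℤ (𝓞 L) (p : ℤ) = (p : 𝓞 L) := map_natCast _ p
  rw [h5, ← h4, ← h3,
    HeightOneSpectrum.intValuation_singleton v hp0 rfl, h9] at h6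
  have h7 := HeightOneSpectrum.valuation_of_algebraMap (K := L) w (p : 𝓞 L)
  have h8 : (p : L) = algebraMap (𝓞 L) L (p : 𝓞 L) := (map_natCast _ p).symm
  rw [h8, h7, ← h6]

private theorem UnI_exp {a : ℤᵐ⁰} (h : a < 1) : a ≤ WithZero.exp (-1 : ℤ) := by
  rcases eq_or_ne a 0 with rfl | h0
  · exact zero_le
  rw [← WithZero.exp_log h0] at h ⊢
  rw [← WithZero.exp_zero, WithZero.exp_lt_exp] at h
  rw [WithZero.exp_le_exp]
  omega

/-- The elements fixed by the inertia group. -/
private theorem UnI_fix (L : Type) [Field L] [NumberField L] [IsGalois ℚ L]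
    (w : HeightOneSpectrum (𝓞 L)) (z : L) (hz : ∀ s ∈ w.asIdeal.inertia Gal(L/ℚ), s z = z)
    (h1 : w.valuation L z < 1) :
    w.valuation L z ≤ WithZero.exp (-1 : ℤ) ^ Nat.card (w.asIdeal.inertia Gal(L/ℚ)) := by
  classical
  have hfin : Finite Gal(L/ℚ) := inferInstance
  set I : Subgroup Gal(L/ℚ) := w.asIdeal.inertia Gal(L/ℚ) with hI
  set F : IntermediateField ℚ L := IntermediateField.fixedField I with hF
  have hNF : NumberField F := NumberField.mk
  have hGF : IsGalois F L := inferInstance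
  have hwP : w.asIdeal.IsPrime := w.isPrime
  have hvb : w.asIdeal.under (𝓞 F) ≠ ⊥ := by
    intro h
    exact w.ne_bot (Ideal.eq_bot_of_comap_eq_bot h)
  have hvp : (w.asIdeal.under (𝓞 F)).IsPrime := inferInstance
  let v : HeightOneSpectrum (𝓞 F) := ⟨w.asIdeal.under (𝓞 F), hvp, hvb⟩
  have hvP : v.asIdeal.IsPrime := v.isPrime
  have hlies : w.asIdeal.LiesOver v.asIdeal := ⟨rfl⟩
  have htop : w.asIdeal.inertia Gal(L/F) = ⊤ := by
    rw [eq_top_iff]
    rintro σ -
    have h2 : (σ.restrictScalars ℚ : Gal(L/ℚ)) ∈ F.fixingSubgroup := by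
      rw [IntermediateField.mem_fixingSubgroup_iff]
      intro y hy
      exact σ.commutes ⟨y, hy⟩
    have hff : F.fixingSubgroup = I := IntermediateField.fixingSubgroup_fixedField I
    rw [hff] at h2
    intro y
    exact h2 y
  have hcard : Nat.card (w.asIdeal.inertia Gal(L/F)) = Nat.card I := by
    rw [htop, Subgroup.card_top, IsGalois.card_aut_eq_finrank, hF,
      IntermediateField.finrank_fixedField_eq_card]
  have h3 : Nat.card (w.asIdeal.inertia Gal(L/F)) = Ideal.ramificationIdxIn v.asIdeal (𝓞 L) :=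
    Ideal.card_inertia_eq_ramificationIdxIn v.asIdeal w.asIdeal
  have h4 := Ideal.ramificationIdxIn_eq_ramificationIdx v.asIdeal w.asIdeal Gal(L/F)
  have h5 : v.asIdeal.ramificationIdx' w.asIdeal = w.asIdeal.ramificationIdx (𝓞 F) :=
    Ideal.ramificationIdx'_eq_ramificationIdx v.asIdeal w.asIdeal v.ne_bot
  have hzF : z ∈ F := by
    rw [hF]
    rintro ⟨s, hs⟩
    exact hz s hs
  have h6 := HeightOneSpectrum.valuation_liesOver L v w (⟨z, hzF⟩ : F)
  rw [h5, ← h4, ← h3, hcard] at h6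
  have h7 : algebraMap F L ⟨z, hzF⟩ = z := rfl
  rw [h7] at h6
  have hpos : Nat.card I ≠ 0 := Nat.card_pos.ne'
  have h8 : v.valuation F (⟨z, hzF⟩ : F) < 1 := by
    by_contra hcon
    rw [not_lt] at hcon
    rw [← h6] at h1
    exact absurd h1 (not_lt.2 (one_le_pow_of_one_le' hcon _))
  rw [← h6]
  exact pow_le_pow_left' (UnI_exp h8) _

theorem sUnI : S_UnI := by
  classical
  intro P p hNP hp hpP x hx hMx
  have hP : P.IsPrime := hNP.1
  have hp0 : (p : Om) ≠ 0 := Nat.cast_ne_zero.2 hp.ne_zero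
  -- the normal closure of `ℚ(x)`
  have hxint : IsIntegral ℚ x := (Algebra.IsAlgebraic.isAlgebraic x).isIntegral
  have hfd0 : FiniteDimensional ℚ (IntermediateField.adjoin ℚ {x} : IntermediateField ℚ Om) :=
    IntermediateField.adjoin.finiteDimensional hxint
  set E : IntermediateField ℚ Om :=
    IntermediateField.normalClosure ℚ (IntermediateField.adjoin ℚ {x} : IntermediateField ℚ Om) Om
    with hE
  have hfd : FiniteDimensional ℚ E := normalClosure.is_finiteDimensional ℚ _ Om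
  have hN : Normal ℚ E := normalClosure.normal ℚ _ Om
  have hxE : x ∈ E :=
    IntermediateField.le_normalClosure _ (IntermediateField.mem_adjoin_simple_self ℚ x)
  have hNF : NumberField E := NumberField.mk
  have hG : IsGalois ℚ E := ⟨⟩
  -- the prime `w`
  have h2Z : (p : ZZ) ∈ P := (DI.MP.nat_iff (P := P) p).1 hpP
  have hwp : (P.comap (iO E)).IsPrime := Ideal.comap_isPrime _ _
  have h2w : (p : 𝓞 E) ∈ P.comap (iO E) := by
    rw [Ideal.mem_comap, map_natCast]
    exact h2Z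
  have hwb : P.comap (iO E) ≠ ⊥ := by
    intro h
    rw [h, Ideal.mem_bot] at h2w
    have h1 := congrArg (fun t : 𝓞 E => ((t : E) : Om)) h2w
    apply hp0
    have h3 : (((p : 𝓞 E) : E) : Om) = (p : Om) := by push_cast; rfl
    exact h3.symm.trans h1
  let w : HeightOneSpectrum (𝓞 E) := ⟨P.comap (iO E), hwp, hwb⟩
  have hfin : Finite Gal(E/ℚ) := inferInstance
  have hlift : ∀ σ ∈ w.asIdeal.inertia Gal(E/ℚ), ∃ τ ∈ P.inertia Gal(Om/ℚ),
      ∀ z : E, τ (z : Om) = ((σ z : E) : Om) := by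
    intro σ hσ
    let σ' : Gal(Om/ℚ) := σ.liftNormal Om
    have hσ' : ∀ z : E, σ' (z : Om) = ((σ z : E) : Om) := fun z =>
      σ.liftNormal_commutes Om z
    obtain ⟨τ, hτ, hτL⟩ := tEIne E P hP σ' (by
      intro y hy
      have hyi : IsIntegral ℤ (⟨(y : Om), hy⟩ : E) := by
        have h1 : IsIntegral ℤ (y : Om) := y.2
        exact (isIntegral_algHom_iff ((algebraMap E Om).toIntAlgHom)
          (algebraMap E Om).injective).1 h1
      let z : 𝓞 E := ⟨⟨(y : Om), hy⟩, hyi⟩
      have h3 : iO E (σ • z - z) = σ' • y - y := by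
        apply Subtype.ext
        rw [map_sub]
        change ((iO E (σ • z) : ZZ) : Om) - ((iO E z : ZZ) : Om) = σ' (y : Om) - (y : Om)
        rw [show (y : Om) = (((⟨(y : Om), hy⟩ : E)) : Om) from rfl, hσ']
        rfl
      rw [← h3]
      exact hσ z)
    refine ⟨τ, hτ, fun z => ?_⟩
    rw [hτL z z.2, hσ' z]
  have hfrac : ∀ (z : E) (a d : 𝓞 E),
      z * algebraMap (𝓞 E) E d = algebraMap (𝓞 E) E a →
      ((z : E) : Om) * ((iO E d : ZZ) : Om) = ((iO E a : ZZ) : Om) := by
    intro z a d h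
    exact congrArg (fun t : E => (t : Om)) h
  have hVP : ∀ z : E, w.valuation E z ≤ 1 → VP P (z : Om) := by
    intro z hz
    obtain ⟨a, d, hd⟩ := w.exists_primeCompl_mul_eq_of_integer z hz
    exact ⟨iO E a, iO E d, fun h => d.2 h, hfrac z a d hd⟩
  set y : E := ⟨x, hxE⟩ with hy
  have hw2 := UnI_p E p hp w h2w
  have hyfix : ∀ s ∈ w.asIdeal.inertia Gal(E/ℚ), s y = y := by
    intro s hs
    obtain ⟨τ, hτ, hτz⟩ := hlift s hs
    apply Subtype.ext
    rw [← hτz y]
    exact hx τ hτ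
  have hy1 : w.valuation E y < 1 := by
    by_contra hcon
    rw [not_lt] at hcon
    have hy0 : y ≠ 0 := by
      intro h0
      rw [h0, map_zero] at hcon
      exact absurd hcon (not_le.2 zero_lt_one)
    have h3 : w.valuation E y⁻¹ ≤ 1 := by
      rw [map_inv₀]
      exact inv_le_one_of_one_le₀ hcon
    have h4 := hVP _ h3
    have h5 : ((y⁻¹ : E) : Om) = x⁻¹ := rfl
    rw [h5] at h4
    have hx0 : x ≠ 0 := fun h => hy0 (Subtype.ext h)
    have h6 := DI.MP.mul_left h4 hMx
    rw [inv_mul_cancel₀ hx0] at h6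
    exact DI.MP.one_not h6
  have h7 := UnI_fix E w y hyfix hy1
  rw [← hw2] at h7
  have hpE0 : (p : E) ≠ 0 := Nat.cast_ne_zero.2 hp.ne_zero
  have h8 : w.valuation E (y / (p : E)) ≤ 1 := by
    rw [map_div₀]
    exact div_le_one_of_le₀ h7 zero_le
  have h9 := hVP _ h8
  refine ⟨x / (p : Om), ?_, (mul_div_cancel₀ x hp0).symm⟩
  have h10 : ((y / (p : E) : E) : Om) = x / (p : Om) := by
    push_cast
    rfl
  rw [← h10]
  exact h9

end Pool.Agent.DN
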