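import Pool.Agent.Lib.DN.D.All
import Pool.Agent.Lib.DN.E.AllB
import Pool.Agent.Lib.DN.E.Iso
import Pool.Agent.Lib.DN.E.FN
import Pool.Agent.Lib.DN.E.Inc
import Pool.Agent.Lib.DN.E.E2
import Pool.Agent.Lib.DN.E.OpA
import Pool.Agent.Lib.DN.E.Ex
import Pool.Agent.Lib.DN.E.MO
import Pool.Agent.Lib.DN.E.Dq
import Pool.Agent.Lib.DN.E.AuxP
import Pool.Agent.Lib.DN.E.Gwf
import Pool.Agent.Lib.DN.E.Gwc
import Pool.Agent.Lib.DN.E.Afi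
import Pool.Agent.Lib.DN.E.Afx
import Pool.Agent.Lib.DN.E.Af3
import Pool.Agent.Lib.DN.E.Aff
import Pool.Agent.Lib.DN.E.Pri
import Pool.Agent.Lib.DN.E.Eis
import Pool.Agent.Lib.DN.E.Pr3
import Pool.Agent.Lib.DN.E.Gwp
import Pool.Agent.Lib.DN.E.Gw
import Pool.Agent.Lib.DN.E.UnI
import Pool.Agent.Lib.DN.E.R2b
import Pool.Agent.Lib.DN.E.E4b
import Pool.Agent.Lib.DN.E.PsK
import Pool.Agent.Lib.DN.E.SyA
import Pool.Agent.Lib.DN.E.HsA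
import Pool.Agent.Lib.DN.E.E10v
import Pool.Agent.Lib.DN.E.Efr
import Pool.Agent.Lib.DN.E.Ero
import Pool.Agent.Lib.DN.E.E10r
import Pool.Agent.Lib.DN.E.E10g
import Pool.Agent.Lib.DN.E.E10T

/-!
# Theorem DN, part E: assembly (author helper39)

`S_E1` .. `S_E10`, `S_E4a`, `S_E4b`, `S_R2b`, `S_R2`, `S_D10`, without hypotheses.
-/

set_option autoImplicit false

noncomputable section

namespace Pool.Agent.DN

theorem aIso : S_Iso := sIso aB7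
theorem aInc : S_Inc := sInc
theorem aOpA : S_OpA := sOpA
theorem aMO : S_MO := sMO
theorem aDq : S_Dq := sDq
theorem aAux : S_Aux := sAux Eb.aGn Eb.aAbB aMO
theorem aGwf : S_Gwf := sGwf Eb.aAbB
theorem aGwc : S_Gwc := sGwc aMO aGwf
theorem aEis : S_Eis := sEis
theorem aUnI : S_UnI := sUnI
theorem aSyA : S_SyA := sSyA aO6 aL5
theorem aHsA : S_HsA := sHsA
theorem aEfr : S_Efr := sEfr aIso
theorem aFN : Eb.S_FN := sFN aO7 aL3 aXOm aIso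

theorem aE2 : S_E2 :=
  sE2 aO6 aR2a aXOm Eb.aAbB aD1 aD3 aFN aInc

theorem aEx : Eb.S_Ex := sEx Eb.aGn (Eb.bOp aFN) aOpA aE2

theorem aE1 : S_E1 := Eb.cE1 aR1 aEx

theorem aE6 : S_E6 := Eb.bE6 aE1 aE2 aFN

theorem aE7 : S_E7 := Eb.bE7 aE1 aE2

theorem aE8 : S_E8 := Eb.bE8 aE1 aFN

theorem aAfi : S_Afi := sAfi aL5 aO6 aR2a aD1

theorem aAfx : S_Afx := sAfx aL3 aXOm aDq aAfi

theorem aAf3 : S_Af3 := sAf3 aR2a aXOm aD2 aAfi

theorem aAff : S_Aff := sAff aO6 aR1 aXOm aD2 aAfi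

theorem aPri : S_Pri := sPri aO6 aO7 aE1 aDq aAux aAff aAf3 aAfx

theorem aPr3 : S_Pr3 :=
  sPr3 aO6 aO7 aE1 aDq aAux aAfi aAff aAf3 aAfx aEis

theorem aGwp : S_Gwp := sGwp aO3 aO6 aE1 aDq aGwc aPri

theorem aGw : S_Gw := sGw aO5 aGwp

/-- Inertia above `2`. -/
theorem aE4a : S_E4a := sE4a aE1 aPri aPr3 aGw

/-- Inertia and the torsion prime to `Q`. -/
theorem aE4b : S_E4b := sE4b aO6 aL3 aL5 aB1 aB7 aR1 aLeg

/-- `A1` is divisible by `2`. -/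
theorem aR2b : S_R2b := sR2b aR2a aE4a aUnI

/-- `S_R2` of the interface. -/
theorem aR2 : S_R2 := by
  intro n t _
  obtain ⟨h1, h2⟩ := aR2a n t
  exact ⟨fun P hP => ⟨(h1 P hP).1, fun b hb => aR2b n t P hP b hb⟩, h2⟩

theorem aE9 : S_E9 := Eb.bE9 aE1 aE4a aR1

theorem aPsK : S_PsK := sPsK aO3 aL5 aL6 aB1 aB13 aR1 aE1 aIso

theorem aE10v : S_E10v := sE10v aL5 aL6 aO6 aXOm

theorem aEro : S_Ero := sEro aL3 aL6 aO6 aB1 aB9 aR1 aSyA aE10v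

theorem aE10r : S_E10r := sE10r aO2 aO7 aR1 aE1 aPsK aEfr aEro

theorem aE10g : S_E10g :=
  sE10g aO6 aL5 aB11 aB14 aR1 aXOm aSyA aHsA aE10v

theorem aE10T : S_E10T := sE10T aB14 aD8 aSyA

theorem aE10 : S_E10 := sE10 aE10v aE10r aE10g aE10T

/-- The valuations at the points of order `2 ^ j`. -/
theorem bD10 : S_D10 := aD10 aR2

end Pool.Agent.DN
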